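import Mathlib

/-!
# PROJECT CD (MP_c9b794_pr), frame B: Poisson configurations

A configuration gives to every cell `i` a number of points and a sequence of marks; only the
marks with index below the number of points are present. All events of the project depend on the
set `Sp w` of the pairs (cell, mark) which are present.
-/

set_option autoImplicit false

open MeasureTheory ProbabilityTheory
open scoped NNReal ENNReal

namespace Pool.Agent.Helper3.CD

variable {ι E : Type*}

/-- the content of one cell: a number of points and marks -/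
abbrev Cell (E : Type*) : Type _ := ℕ × (ℕ → E)

/-- configurations -/
abbrev Cfg (ι E : Type*) : Type _ := ι → Cell E

/-- the marks present in a cell -/
def pts (c : Cell E) : Set E := {e | ∃ j < c.1, c.2 j = e}

/-- the pairs (cell, mark) which are present -/
def Sp (w : Cfg ι E) : Set (ι × E) := {p | ∃ j < (w p.1).1, (w p.1).2 j = p.2}

lemma mem_Sp {w : Cfg ι E} {p : ι × E} : p ∈ Sp w ↔ p.2 ∈ pts (w p.1) := Iff.rfl

/-- the cells outside `A` are emptied -/
noncomputable def cut (A : Set ι) (w : Cfg ι E) : Cfg ι E := by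
  classical exact fun i => if i ∈ A then w i else (0, (w i).2)

/-- `S` is decreasing: it is kept when points are removed -/
def Decr (S : Set (Cfg ι E)) : Prop := ∀ w w' : Cfg ι E, Sp w' ⊆ Sp w → w ∈ S → w' ∈ S

/-- `S` depends only on the cells in `A` -/
def DepOn (A : Set ι) (S : Set (Cfg ι E)) : Prop :=
  ∀ w w' : Cfg ι E, (∀ i ∈ A, w i = w' i) → (w ∈ S ↔ w' ∈ S)

/-- the function `f` depends only on the cells in `A` -/
def DepOnF {α : Type*} (A : Set ι) (f : Cfg ι E → α) : Prop :=
  ∀ w w' : Cfg ι E, (∀ i ∈ A, w i = w' i) → f w = f w'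

/-- no finite list of present points in the cells of `A` satisfies `R` -/
def Ev (A : Set ι) (R : List (ι × E) → Prop) : Set (Cfg ι E) :=
  {w | ∀ l : List (ι × E), (∀ p ∈ l, p ∈ Sp w ∧ p.1 ∈ A) → ¬ R l}

section meas
variable [MeasurableSpace E]

/-- measurability of a property of finite lists, for every list of cells -/
def MeasR (R : List (ι × E) → Prop) : Prop :=
  ∀ (n : ℕ) (c : Fin n → ι), MeasurableSet {e : Fin n → E | R (List.ofFn fun t => (c t, e t))}

/-- the law of the content of one cell: a Poisson number of independent marks -/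
noncomputable def cellLaw (r : ℝ≥0) (ν : Measure E) : Measure (Cell E) :=
  (poissonMeasure r).prod (Measure.infinitePi fun _ : ℕ => ν)

/-- the law of the configuration: independent cells -/
noncomputable def soup (r : ι → ℝ≥0) (ν : ι → Measure E) : Measure (Cfg ι E) :=
  Measure.infinitePi fun i => cellLaw (r i) (ν i)

instance (r : ℝ≥0) (ν : Measure E) [IsProbabilityMeasure ν] :
    IsProbabilityMeasure (cellLaw r ν) := by
  unfold cellLaw
  infer_instance

instance (r : ι → ℝ≥0) (ν : ι → Measure E) [∀ i, IsProbabilityMeasure (ν i)] :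
    IsProbabilityMeasure (soup r ν) := by
  unfold soup
  infer_instance

end meas

/-! ### elementary facts -/

lemma Sp_cut (A : Set ι) (w : Cfg ι E) : Sp (cut A w) = Sp w ∩ {p | p.1 ∈ A} := by
  classical
  ext p
  simp only [Sp, cut, Set.mem_ofPred_eq, Set.mem_inter_iff]
  by_cases h : p.1 ∈ A <;> simp [h]

lemma decr_Ev (A : Set ι) (R : List (ι × E) → Prop) : Decr (Ev A R) :=
  fun _ _ h hw l hl => hw l fun p hp => ⟨h (hl p hp).1, (hl p hp).2⟩

lemma depOn_Ev (A : Set ι) (R : List (ι × E) → Prop) : DepOn A (Ev A R) := by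
  have key : ∀ w w' : Cfg ι E, (∀ i ∈ A, w i = w' i) → w ∈ Ev A R → w' ∈ Ev A R := by
    intro w w' h hw l hl
    refine hw l fun p hp => ⟨?_, (hl p hp).2⟩
    have h1 := (hl p hp).1
    rw [mem_Sp, ← h _ (hl p hp).2] at h1
    exact h1
  exact fun w w' h => ⟨key w w' h, key w' w fun i hi => (h i hi).symm⟩

lemma Decr.inter {S T : Set (Cfg ι E)} (hS : Decr S) (hT : Decr T) : Decr (S ∩ T) :=
  fun w w' h hw => ⟨hS w w' h hw.1, hT w w' h hw.2⟩

lemma Decr.iInter {κ : Sort*} {S : κ → Set (Cfg ι E)} (hS : ∀ k, Decr (S k)) :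
    Decr (⋂ k, S k) := fun w w' h hw => Set.mem_iInter.2 fun k =>
  hS k w w' h (Set.mem_iInter.1 hw k)

lemma DepOn.mono {A B : Set ι} {S : Set (Cfg ι E)} (hAB : A ⊆ B) (hS : DepOn A S) : DepOn B S :=
  fun w w' h => hS w w' fun i hi => h i (hAB hi)

lemma DepOn.inter {A : Set ι} {S T : Set (Cfg ι E)} (hS : DepOn A S) (hT : DepOn A T) :
    DepOn A (S ∩ T) := fun w w' h => and_congr (hS w w' h) (hT w w' h)

lemma DepOn.iInter {A : Set ι} {κ : Sort*} {S : κ → Set (Cfg ι E)} (hS : ∀ k, DepOn A (S k)) :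
    DepOn A (⋂ k, S k) := fun w w' h => by
  simp only [Set.mem_iInter]
  exact forall_congr' fun k => hS k w w' h

lemma DepOn.compl {A : Set ι} {S : Set (Cfg ι E)} (hS : DepOn A S) : DepOn A Sᶜ :=
  fun w w' h => not_congr (hS w w' h)

/-- the event of the configuration with the cells outside `A` emptied -/
lemma depOn_cut (A : Set ι) (S : Set (Cfg ι E)) (hS : ∀ w w' : Cfg ι E, Sp w = Sp w' →
    (w ∈ S ↔ w' ∈ S)) : DepOn A {w | cut A w ∈ S} := by
  intro w w' h
  refine hS _ _ ?_
  rw [Sp_cut, Sp_cut]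
  ext p
  simp only [Set.mem_inter_iff, Set.mem_ofPred_eq, and_congr_left_iff]
  intro hp
  rw [mem_Sp, mem_Sp, h _ hp]

lemma Decr.congr {S : Set (Cfg ι E)} (hS : Decr S) {w w' : Cfg ι E} (h : Sp w = Sp w') :
    w ∈ S ↔ w' ∈ S := ⟨hS w w' h.ge, hS w' w h.le⟩

lemma decr_cut (A : Set ι) {S : Set (Cfg ι E)} (hS : Decr S) : Decr {w | cut A w ∈ S} := by
  intro w w' h hw
  refine hS _ _ ?_ hw
  rw [Sp_cut, Sp_cut]
  exact Set.inter_subset_inter_left _ h

lemma DepOnF.mono {α : Type*} {A B : Set ι} {f : Cfg ι E → α} (hAB : A ⊆ B)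
    (hf : DepOnF A f) : DepOnF B f :=
  fun w w' h => hf w w' fun i hi => h i (hAB hi)

lemma DepOn.depOnF {A : Set ι} {S : Set (Cfg ι E)} (hS : DepOn A S) {α : Type*} (a b : α)
    [DecidablePred (· ∈ S)] : DepOnF A fun w => if w ∈ S then a else b := by
  intro w w' h
  have := hS w w' h
  simp only [this]

end Pool.Agent.Helper3.CD
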