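import Mathlib
import Pool.Agent.Helper3.CD.Base

/-!
# CD frame B, piece B1: measurability

PROOF. `{w | p ∈ Sp w ...}` is a countable union over the cells `i` and the indices `j` of the
sets `{w | j < (w i).1} ∩ {w | (w i).2 j ∈ ..}`; all coordinate maps are measurable.
For `Ev A R`: a finite list of present points is given by `n`, `c : Fin n → ι`, `j : Fin n → ℕ`
(countably many triples) with `j t < (w (c t)).1`, and the list is
`List.ofFn fun t => (c t, (w (c t)).2 (j t))` (every list `l` is `List.ofFn l.get`). So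
`Ev A R = ⋂ n, ⋂ c (all c t ∈ A), ⋂ j, {w | (∀ t, j t < (w (c t)).1) → ¬ R (..)}`.
`cut A` is measurable because every coordinate is either `w i` or `(0, (w i).2)`.
-/

set_option autoImplicit false

open MeasureTheory ProbabilityTheory
open scoped NNReal ENNReal

namespace Pool.Agent.Helper3.CD

variable {ι E : Type*} [MeasurableSpace E]

private theorem Meas_num (i : ι) : Measurable fun w : Cfg ι E => (w i).1 :=
  measurable_fst.comp (measurable_pi_apply i)

private theorem Meas_mark (i : ι) (j : ℕ) : Measurable fun w : Cfg ι E => (w i).2 j :=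
  (measurable_pi_apply j).comp (measurable_snd.comp (measurable_pi_apply i))

private theorem Meas_lt (i : ι) (j : ℕ) : MeasurableSet {w : Cfg ι E | j < (w i).1} :=
  (Meas_num i) (measurableSet_Ioi (a := j))

theorem measurable_cut (A : Set ι) : Measurable (cut A : Cfg ι E → Cfg ι E) := by
  classical
  refine measurable_pi_lambda _ fun i => ?_
  by_cases h : i ∈ A
  · have h1 : (fun w : Cfg ι E => cut A w i) = fun w => w i := by
      funext w
      simp only [cut]
      rw [if_pos h]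
    rw [h1]
    exact measurable_pi_apply i
  · have h1 : (fun w : Cfg ι E => cut A w i) = fun w => ((0 : ℕ), (w i).2) := by
      funext w
      simp only [cut]
      rw [if_neg h]
    rw [h1]
    exact measurable_const.prodMk (measurable_snd.comp (measurable_pi_apply i))

theorem measurableSet_exists [Countable ι] (T : ι → Set E) (hT : ∀ i, MeasurableSet (T i)) :
    MeasurableSet {w : Cfg ι E | ∃ p ∈ Sp w, p.2 ∈ T p.1} := by
  have h1 : {w : Cfg ι E | ∃ p ∈ Sp w, p.2 ∈ T p.1} =
      ⋃ i, ⋃ j, ({w : Cfg ι E | j < (w i).1} ∩ {w : Cfg ι E | (w i).2 j ∈ T i}) := by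
    ext w
    simp only [Set.mem_ofPred_eq, Set.mem_iUnion, Set.mem_inter_iff]
    constructor
    · rintro ⟨⟨i, e⟩, ⟨j, hj, he⟩, hT⟩
      refine ⟨i, j, hj, ?_⟩
      simp only at he hT
      rw [he]
      exact hT
    · rintro ⟨i, j, hj, hT⟩
      exact ⟨(i, (w i).2 j), ⟨j, hj, rfl⟩, hT⟩
  rw [h1]
  exact MeasurableSet.iUnion fun i => MeasurableSet.iUnion fun j =>
    (Meas_lt i j).inter ((Meas_mark i j) (hT i))

/-- two different present points -/
theorem measurableSet_two [Countable ι] [MeasurableEq E] (T : ι → Set E)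
    (hT : ∀ i, MeasurableSet (T i)) :
    MeasurableSet {w : Cfg ι E | ∃ p ∈ Sp w, ∃ q ∈ Sp w, p ≠ q ∧ p.2 ∈ T p.1 ∧ q.2 ∈ T q.1} := by
  have h1 : {w : Cfg ι E | ∃ p ∈ Sp w, ∃ q ∈ Sp w, p ≠ q ∧ p.2 ∈ T p.1 ∧ q.2 ∈ T q.1} =
      ⋃ i, ⋃ j, ⋃ i', ⋃ j', (({w : Cfg ι E | j < (w i).1} ∩ {w : Cfg ι E | j' < (w i').1}) ∩
        ({w : Cfg ι E | (i, (w i).2 j) ≠ (i', (w i').2 j')} ∩
        ({w : Cfg ι E | (w i).2 j ∈ T i} ∩ {w : Cfg ι E | (w i').2 j' ∈ T i'}))) := by
    ext w
    simp only [Set.mem_ofPred_eq, Set.mem_iUnion, Set.mem_inter_iff]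
    constructor
    · rintro ⟨⟨i, e⟩, ⟨j, hj, he⟩, ⟨i', e'⟩, ⟨j', hj', he'⟩, hne, hT, hT'⟩
      simp only at he he' hT hT' hj hj'
      refine ⟨i, j, i', j', ⟨hj, hj'⟩, ?_, ?_, ?_⟩
      · rw [he, he']
        exact hne
      · rw [he]
        exact hT
      · rw [he']
        exact hT'
    · rintro ⟨i, j, i', j', ⟨hj, hj'⟩, hne, hT, hT'⟩
      exact ⟨(i, (w i).2 j), ⟨j, hj, rfl⟩, (i', (w i').2 j'), ⟨j', hj', rfl⟩, hne, hT, hT'⟩
  rw [h1]
  refine MeasurableSet.iUnion fun i => MeasurableSet.iUnion fun j =>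
    MeasurableSet.iUnion fun i' => MeasurableSet.iUnion fun j' =>
    ((Meas_lt i j).inter (Meas_lt i' j')).inter (MeasurableSet.inter ?_
      (((Meas_mark i j) (hT i)).inter ((Meas_mark i' j') (hT i'))))
  by_cases h : i = i'
  · subst h
    have h2 : {w : Cfg ι E | (i, (w i).2 j) ≠ (i, (w i).2 j')} =
        {w : Cfg ι E | (w i).2 j = (w i).2 j'}ᶜ := by
      ext w
      simp
    rw [h2]
    exact (measurableSet_eq_fun (Meas_mark i j) (Meas_mark i j')).compl
  · have h2 : {w : Cfg ι E | (i, (w i).2 j) ≠ (i', (w i').2 j')} = Set.univ := by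
      ext w
      simp [h]
    rw [h2]
    exact MeasurableSet.univ

theorem measurableSet_Ev [Countable ι] (A : Set ι) (R : List (ι × E) → Prop) (hR : MeasR R) :
    MeasurableSet (Ev A R) := by
  have h1 : Ev A R = (⋃ n : ℕ, ⋃ c : Fin n → ι, ⋃ _ : (∀ t, c t ∈ A), ⋃ j : Fin n → ℕ,
      ((⋂ t, {w : Cfg ι E | j t < (w (c t)).1}) ∩
        {w : Cfg ι E | R (List.ofFn fun t => (c t, (w (c t)).2 (j t)))}))ᶜ := by
    ext w
    simp only [Ev, Set.mem_ofPred_eq, Set.mem_compl_iff, Set.mem_iUnion, Set.mem_inter_iff,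
      Set.mem_iInter]
    constructor
    · rintro h ⟨n, c, hc, j, hj, hRl⟩
      refine h _ ?_ hRl
      intro p hp
      rw [List.mem_ofFn] at hp
      obtain ⟨t, rfl⟩ := hp
      exact ⟨⟨j t, hj t, rfl⟩, hc t⟩
    · intro h l hl hRl
      apply h
      have h2 : ∀ t : Fin l.length, ∃ j < (w (l.get t).1).1, (w (l.get t).1).2 j = (l.get t).2 :=
        fun t => (hl _ (List.get_mem l t)).1
      choose j hj1 hj2 using h2
      refine ⟨l.length, fun t => (l.get t).1, fun t => (hl _ (List.get_mem l t)).2, j, hj1, ?_⟩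
      have h3 : (List.ofFn fun t => ((l.get t).1, (w (l.get t).1).2 (j t))) = l := by
        have h4 : (fun t => ((l.get t).1, (w (l.get t).1).2 (j t))) = l.get := by
          funext t
          rw [hj2]
        rw [h4, List.ofFn_get]
      rw [h3]
      exact hRl
  rw [h1]
  refine MeasurableSet.compl (MeasurableSet.iUnion fun n => MeasurableSet.iUnion fun c =>
    MeasurableSet.iUnion fun _ => MeasurableSet.iUnion fun j =>
    (MeasurableSet.iInter fun t => Meas_lt (c t) (j t)).inter ?_)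
  have h2 : Measurable fun w : Cfg ι E => (fun t => (w (c t)).2 (j t) : Fin n → E) :=
    measurable_pi_lambda _ fun t => Meas_mark (c t) (j t)
  exact h2 (hR n c)

end Pool.Agent.Helper3.CD
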