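import Mathlib
import Pool.Agent.Helper3.CD.Base

/-!
# CD frame B, piece B4: change of the index set

PROOF. `Measure.map_infinitePi_infinitePi_of_inj`. In the second statement the family of laws is
unchanged. For `Sp`: `(i, e) ∈ Sp (w ∘ φ) ↔ (φ i, e) ∈ Sp w` by definition.
-/

set_option autoImplicit false

open MeasureTheory ProbabilityTheory
open scoped NNReal ENNReal

namespace Pool.Agent.Helper3.CD

variable {ι ι' E : Type*} [MeasurableSpace E]

theorem mem_Sp_comp (φ : ι' → ι) (w : Cfg ι E) (p : ι' × E) :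
    p ∈ Sp (fun i => w (φ i)) ↔ (φ p.1, p.2) ∈ Sp w := Iff.rfl

theorem map_comp_inj (r : ι → ℝ≥0) (ν : ι → Measure E) [∀ i, IsProbabilityMeasure (ν i)]
    (φ : ι' → ι) (hφ : Function.Injective φ) :
    (soup r ν).map (fun w i => w (φ i)) = soup (fun i => r (φ i)) (fun i => ν (φ i)) := by
  unfold soup
  exact Measure.map_infinitePi_infinitePi_of_inj (P := fun i => cellLaw (r i) (ν i)) hφ

/-- invariance: `φ` injective and compatible with the rates and the laws of the marks -/
theorem soup_comp (r : ι → ℝ≥0) (ν : ι → Measure E) [∀ i, IsProbabilityMeasure (ν i)]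
    (φ : ι → ι) (hφ : Function.Injective φ) (hr : ∀ i, r (φ i) = r i) (hν : ∀ i, ν (φ i) = ν i)
    (S : Set (Cfg ι E)) (hS : MeasurableSet S) :
    soup r ν {w | (fun i => w (φ i)) ∈ S} = soup r ν S := by
  have h := map_comp_inj r ν φ hφ
  rw [funext hr, funext hν] at h
  conv_rhs => rw [← h]
  rw [Measure.map_apply (by fun_prop) hS]
  rfl

theorem lintegral_comp (r : ι → ℝ≥0) (ν : ι → Measure E) [∀ i, IsProbabilityMeasure (ν i)]
    (φ : ι → ι) (hφ : Function.Injective φ) (hr : ∀ i, r (φ i) = r i) (hν : ∀ i, ν (φ i) = ν i)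
    (f : Cfg ι E → ℝ≥0∞) (hf : Measurable f) :
    ∫⁻ w, f (fun i => w (φ i)) ∂(soup r ν) = ∫⁻ w, f w ∂(soup r ν) := by
  have h := map_comp_inj r ν φ hφ
  rw [funext hr, funext hν] at h
  conv_rhs => rw [← h]
  rw [lintegral_map hf (by fun_prop)]

end Pool.Agent.Helper3.CD
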