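import Mathlib

/-!
# CD frame B, piece B2e: approximation of events by events of finitely many coordinates

PROOF. The sets which depend on finitely many coordinates and are measurable (Mathlib:
`measurableCylinders`) form an algebra of sets which generates the product sigma-algebra
(`generateFrom_measurableCylinders`, `isSetAlgebra_measurableCylinders`); for a finite measure
an algebra which generates is dense: `Measure.MeasureDense.of_generateFrom_isSetAlgebra_finite` (file
Mathlib/MeasureTheory/Measure/SeparableMeasure.lean). A cylinder depends only on its coordinates.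
-/

set_option autoImplicit false

open MeasureTheory

namespace Pool.Agent.Helper3.CD

theorem approx_cylinder {ι : Type*} {X : ι → Type*} [∀ i, MeasurableSpace (X i)]
    (μ : Measure (∀ i, X i)) [IsFiniteMeasure μ] (S : Set (∀ i, X i)) (hS : MeasurableSet S)
    (ε : ℝ) (hε : 0 < ε) :
    ∃ (J : Finset ι) (S' : Set (∀ i, X i)), MeasurableSet S' ∧
      (∀ w w' : ∀ i, X i, (∀ i ∈ J, w i = w' i) → (w ∈ S' ↔ w' ∈ S')) ∧
      μ (symmDiff S S') < ENNReal.ofReal ε := by
  have hd : μ.MeasureDense (measurableCylinders X) :=
    Measure.MeasureDense.of_generateFrom_isSetAlgebra_finite μ isSetAlgebra_measurableCylinders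
      generateFrom_measurableCylinders.symm
  obtain ⟨t, ht, hlt⟩ := hd.approx S hS (measure_ne_top μ S) ε hε
  obtain ⟨J, B, hB, rfl⟩ := (mem_measurableCylinders t).1 ht
  refine ⟨J, cylinder J B, hB.cylinder, fun w w' h => ?_, hlt⟩
  rw [mem_cylinder, mem_cylinder]
  have h1 : J.restrict w = J.restrict w' := by
    funext i
    exact h i i.2
  rw [h1]

end Pool.Agent.Helper3.CD
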