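import Mathlib
import Pool.Agent.Helper3.CD.Base

/-!
# CD frame B, piece B2a: superposition in one cell

PROOF of `law_merge`. For fixed `m`, the map `splice m : (x, y) ↦ fun j => if j < m then x j else
y (j - m)` sends `ν^ℕ × ν^ℕ` to `ν^ℕ` (`Measure.eq_infinitePi`: the preimage of a box over a
Finset `s` is a product of two boxes; `Measure.prod_prod`, `infinitePi_pi`, the product over
`s` splits into `j < m` and `j ≥ m`). For a measurable `S`, both sides at `S` are
`∑ m, ∑ n, P_a(m) P_b(n) ν^ℕ {z | (m + n, z) ∈ S}`; use `lintegral_prod`/`Measure.prod_apply` and that the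
sum of two independent Poisson numbers is Poisson (`poissonMeasure_conv_poissonMeasure`). It is
enough to check sets `S = {k} ×ˢ B` (a pi-system generating the product, or `Measure.prod_eq`).
-/

set_option autoImplicit false

open MeasureTheory ProbabilityTheory
open scoped NNReal ENNReal

namespace Pool.Agent.Helper3.CD

variable {E : Type*}

/-- the union of the contents of two cells -/
def merge (c c' : Cell E) : Cell E :=
  (c.1 + c'.1, fun j => if j < c.1 then c.2 j else c'.2 (j - c.1))

theorem pts_merge (c c' : Cell E) : pts (merge c c') = pts c ∪ pts c' := by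
  ext e
  simp only [pts, merge, Set.mem_union, Set.mem_ofPred_eq]
  constructor
  · rintro ⟨j, hj, he⟩
    by_cases h : j < c.1
    · rw [if_pos h] at he
      exact Or.inl ⟨j, h, he⟩
    · rw [if_neg h] at he
      exact Or.inr ⟨j - c.1, by omega, he⟩
  · rintro (⟨j, hj, he⟩ | ⟨j, hj, he⟩)
    · exact ⟨j, by omega, by rw [if_pos hj]; exact he⟩
    · refine ⟨c.1 + j, by omega, ?_⟩
      rw [if_neg (by omega), Nat.add_sub_cancel_left]
      exact he

variable [MeasurableSpace E]

theorem measurable_merge : Measurable fun p : Cell E × Cell E => merge p.1 p.2 := by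
  have hev : Measurable fun q : (ℕ → E) × ℕ => q.1 q.2 :=
    measurable_from_prod_countable_left fun k => measurable_pi_apply k
  refine Measurable.prodMk (by fun_prop) (measurable_pi_lambda _ fun j => ?_)
  refine Measurable.ite ?_ (by fun_prop) ?_
  · have h1 : Measurable fun p : Cell E × Cell E => p.1.1 := by fun_prop
    exact h1 (MeasurableSet.of_discrete : MeasurableSet {m : ℕ | j < m})
  · have h1 : Measurable fun p : Cell E × Cell E => (p.2.2, j - p.1.1) := by fun_prop
    exact hev.comp h1

/-- the marks of a merged cell -/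
private def splice (m : ℕ) (p : (ℕ → E) × (ℕ → E)) : ℕ → E :=
  fun j => if j < m then p.1 j else p.2 (j - m)

private theorem measurable_splice (m : ℕ) : Measurable (splice (E := E) m) := by
  refine measurable_pi_lambda _ fun j => ?_
  unfold splice
  by_cases h : j < m
  · simp only [if_pos h]
    fun_prop
  · simp only [if_neg h]
    fun_prop

omit [MeasurableSpace E] in
private theorem splice_preimage (m : ℕ) (s : Finset ℕ) (t : ℕ → Set E) :
    splice m ⁻¹' (Set.pi s t) =
      (Set.pi (s.filter (· < m) : Finset ℕ) t) ×ˢ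
        (Set.pi ((s.filter (fun j => ¬ j < m)).image (· - m) : Finset ℕ) fun j => t (j + m)) := by
  ext ⟨x, y⟩
  simp only [Set.mem_preimage, Set.mem_pi, Finset.mem_coe, splice, Set.mem_prod, Finset.mem_filter,
    Finset.mem_image]
  constructor
  · intro h
    refine ⟨fun i hi => ?_, ?_⟩
    · have := h i hi.1
      rwa [if_pos hi.2] at this
    · rintro i ⟨j, ⟨hj, hjm⟩, rfl⟩
      have := h j hj
      rw [if_neg hjm] at this
      rwa [Nat.sub_add_cancel (not_lt.1 hjm)]
  · rintro ⟨h1, h2⟩ i hi
    by_cases him : i < m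
    · rw [if_pos him]
      exact h1 i ⟨hi, him⟩
    · rw [if_neg him]
      have := h2 (i - m) ⟨i, ⟨hi, him⟩, rfl⟩
      rwa [Nat.sub_add_cancel (not_lt.1 him)] at this

private theorem map_splice (m : ℕ) (ν : Measure E) [IsProbabilityMeasure ν] :
    ((Measure.infinitePi fun _ : ℕ => ν).prod (Measure.infinitePi fun _ : ℕ => ν)).map
      (splice m) = Measure.infinitePi fun _ : ℕ => ν := by
  refine Measure.eq_infinitePi _ fun s t ht => ?_
  rw [Measure.map_apply (measurable_splice m)
    (MeasurableSet.pi s.countable_toSet fun i _ => ht i), splice_preimage, Measure.prod_prod,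
    Measure.infinitePi_pi _ fun i _ => ht i, Measure.infinitePi_pi _ fun i _ => ht _,
    Finset.prod_image, ← Finset.prod_filter_mul_prod_filter_not s (· < m)]
  · congr 1
    refine Finset.prod_congr rfl fun j hj => ?_
    rw [Nat.sub_add_cancel (not_lt.1 (Finset.mem_filter.1 hj).2)]
  · intro i hi j hj hij
    have h1 := (Finset.mem_filter.1 hi).2
    have h2 := (Finset.mem_filter.1 hj).2
    simp only at hij
    omega

theorem law_merge (a b : ℝ≥0) (ν : Measure E) [IsProbabilityMeasure ν] :
    ((cellLaw a ν).prod (cellLaw b ν)).map (fun p => merge p.1 p.2) = cellLaw (a + b) ν := by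
  ext S hS
  have hT := measurable_merge (E := E) hS
  rw [Measure.map_apply measurable_merge hS, Measure.prod_apply hT]
  unfold cellLaw
  rw [lintegral_prod _ (measurable_measure_prodMk_left hT).aemeasurable, Measure.prod_apply hS,
    ← poissonMeasure_conv_poissonMeasure,
    Measure.lintegral_conv (measurable_measure_prodMk_left hS)]
  refine lintegral_congr fun m => ?_
  set Q : Measure (ℕ → E) := Measure.infinitePi fun _ : ℕ => ν with hQ
  have h1 : ∀ x : ℕ → E, ((poissonMeasure b).prod Q)
      (Prod.mk (m, x) ⁻¹' ((fun p : Cell E × Cell E => merge p.1 p.2) ⁻¹' S)) =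
      ∫⁻ n, Q {y | ((m + n, splice m (x, y)) : Cell E) ∈ S} ∂(poissonMeasure b) := by
    intro x
    rw [Measure.prod_apply (measurable_prodMk_left hT)]
    rfl
  simp only [h1]
  have hm : Measurable fun p : ((ℕ → E) × ℕ) × (ℕ → E) =>
      ((m + p.1.2, splice m (p.1.1, p.2)) : Cell E) := by
    refine Measurable.prodMk (by fun_prop) ((measurable_splice m).comp ?_)
    fun_prop
  have h2 : Measurable fun p : (ℕ → E) × ℕ =>
      Q {y | ((m + p.2, splice m (p.1, y)) : Cell E) ∈ S} :=
    measurable_measure_prodMk_left (hm hS)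
  rw [lintegral_lintegral_swap (f := fun (x : ℕ → E) (n : ℕ) =>
    Q {y | ((m + n, splice m (x, y)) : Cell E) ∈ S}) h2.aemeasurable]
  refine lintegral_congr fun n => ?_
  have hmn : Measurable fun z : ℕ → E => ((m + n, z) : Cell E) := by fun_prop
  have h3 : (Q.prod Q).map (splice m) {z | ((m + n, z) : Cell E) ∈ S} =
      ∫⁻ x, Q {y | ((m + n, splice m (x, y)) : Cell E) ∈ S} ∂Q := by
    have hS' : MeasurableSet {z : ℕ → E | ((m + n, z) : Cell E) ∈ S} := hmn hS
    rw [Measure.map_apply (measurable_splice m) hS',
      Measure.prod_apply ((measurable_splice m) hS')]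
    rfl
  rw [← h3, hQ, map_splice]
  rfl

end Pool.Agent.Helper3.CD
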