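import Mathlib
import Pool.Agent.Helper3.CD.Base

/-!
# CD frame B, piece B2c: defects of positive association

`Defect μ le D`: for all measurable `f, g` with values in `[0, 1]`, decreasing with respect to
`le`, `(∫ f) (∫ g) ≤ ∫ f g + D`.

PROOFS. `Defect.map`: `integral_map`, the composition of a decreasing function with a monotone map
is decreasing. `Defect.prod`: for fixed `y` the functions `f (·, y)`, `g (·, y)` are decreasing
(`le₂` reflexive), so `∫ f g dμ₁ ≥ (∫ f dμ₁) (∫ g dμ₁) - D₁` for every `y`; the functions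
`y ↦ ∫ f (x, y) dμ₁ x` are measurable (`Measurable` of parametric integrals:
`StronglyMeasurable.integral_prod_left` or `right`), with values in `[0, 1]` and decreasing
(`integral_mono`, `le₁` reflexive); apply the second hypothesis; `integral_prod`.
`Defect.pi_fin`: induction on `n` with `D = 0`, `MeasureTheory.measurePreserving_piFinSuccAbove`
or `MeasurableEquiv.piFinSuccAbove` and `Defect.prod`, `Defect.map` (in both cases use the map
`(x₀, x) ↦ Fin.cons x₀ x` or the inverse of `piFinSuccAbove`). `Defect.pi`: transport along an equivalence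
with `Fin n` (`measurePreserving_piCongrLeft`).
-/

set_option autoImplicit false

open MeasureTheory ProbabilityTheory
open scoped NNReal ENNReal

namespace Pool.Agent.Helper3.CD

variable {Ω Ω₁ Ω₂ : Type*} [MeasurableSpace Ω] [MeasurableSpace Ω₁] [MeasurableSpace Ω₂]

/-- measurable, with values in `[0, 1]`, decreasing -/
structure Dec (le : Ω → Ω → Prop) (f : Ω → ℝ) : Prop where
  meas : Measurable f
  nonneg : ∀ x, 0 ≤ f x
  le_one : ∀ x, f x ≤ 1
  anti : ∀ x y, le x y → f y ≤ f x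

/-- the defect of positive association is at most `D` -/
def Defect (μ : Measure Ω) (le : Ω → Ω → Prop) (D : ℝ) : Prop :=
  ∀ f g : Ω → ℝ, Dec le f → Dec le g → (∫ x, f x ∂μ) * (∫ x, g x ∂μ) ≤ ∫ x, f x * g x ∂μ + D

theorem Defect.map {μ : Measure Ω₁} {le₁ : Ω₁ → Ω₁ → Prop} {le₂ : Ω₂ → Ω₂ → Prop} {D : ℝ}
    (h : Defect μ le₁ D) (φ : Ω₁ → Ω₂) (hφ : Measurable φ)
    (hm : ∀ x y, le₁ x y → le₂ (φ x) (φ y)) : Defect (μ.map φ) le₂ D := by
  intro f g hf hg
  rw [integral_map hφ.aemeasurable hf.meas.aestronglyMeasurable,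
    integral_map hφ.aemeasurable hg.meas.aestronglyMeasurable,
    integral_map hφ.aemeasurable (show Measurable fun x => f x * g x from
      hf.meas.mul hg.meas).aestronglyMeasurable]
  exact h (fun x => f (φ x)) (fun x => g (φ x))
    ⟨hf.meas.comp hφ, fun x => hf.nonneg _, fun x => hf.le_one _,
      fun x y hxy => hf.anti _ _ (hm x y hxy)⟩
    ⟨hg.meas.comp hφ, fun x => hg.nonneg _, fun x => hg.le_one _,
      fun x y hxy => hg.anti _ _ (hm x y hxy)⟩

private lemma Defect_integrable {μ : Measure Ω} [IsProbabilityMeasure μ] {le : Ω → Ω → Prop}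
    {f : Ω → ℝ} (hf : Dec le f) : Integrable f μ := by
  refine Integrable.of_bound hf.meas.aestronglyMeasurable 1 (Filter.Eventually.of_forall fun x => ?_)
  rw [Real.norm_eq_abs, abs_of_nonneg (hf.nonneg x)]
  exact hf.le_one x

private lemma Defect_mul {le : Ω → Ω → Prop} {f g : Ω → ℝ} (hf : Dec le f) (hg : Dec le g) :
    Dec le fun x => f x * g x where
  meas := hf.meas.mul hg.meas
  nonneg x := mul_nonneg (hf.nonneg x) (hg.nonneg x)
  le_one x := mul_le_one₀ (hf.le_one x) (hg.nonneg x) (hg.le_one x)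
  anti x y h := mul_le_mul (hf.anti x y h) (hg.anti x y h) (hg.nonneg y) (hf.nonneg x)

private lemma Defect_fst {le₁ : Ω₁ → Ω₁ → Prop} {le₂ : Ω₂ → Ω₂ → Prop} {f : Ω₁ × Ω₂ → ℝ}
    (r₂ : ∀ y, le₂ y y) (hf : Dec (fun p q : Ω₁ × Ω₂ => le₁ p.1 q.1 ∧ le₂ p.2 q.2) f) (y : Ω₂) :
    Dec le₁ fun x => f (x, y) where
  meas := hf.meas.comp measurable_prodMk_right
  nonneg _ := hf.nonneg _
  le_one _ := hf.le_one _
  anti _ _ h := hf.anti _ _ ⟨h, r₂ y⟩

private lemma Defect_int {μ₁ : Measure Ω₁} [IsProbabilityMeasure μ₁] {le₁ : Ω₁ → Ω₁ → Prop}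
    {le₂ : Ω₂ → Ω₂ → Prop} {f : Ω₁ × Ω₂ → ℝ} (r₁ : ∀ x, le₁ x x) (r₂ : ∀ y, le₂ y y)
    (hf : Dec (fun p q : Ω₁ × Ω₂ => le₁ p.1 q.1 ∧ le₂ p.2 q.2) f) :
    Dec le₂ fun y => ∫ x, f (x, y) ∂μ₁ where
  meas := by
    have h := hf.meas.stronglyMeasurable.integral_prod_left' (μ := μ₁)
    exact h.measurable
  nonneg y := integral_nonneg fun x => hf.nonneg _
  le_one y := by
    calc ∫ x, f (x, y) ∂μ₁ ≤ ∫ _, (1 : ℝ) ∂μ₁ :=
          integral_mono (Defect_integrable (Defect_fst r₂ hf y)) (integrable_const _) fun x => hf.le_one _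
      _ = 1 := by simp
  anti y y' h := integral_mono (Defect_integrable (Defect_fst r₂ hf y')) (Defect_integrable (Defect_fst r₂ hf y))
    fun x => hf.anti _ _ ⟨r₁ x, h⟩

theorem Defect.prod {μ₁ : Measure Ω₁} {μ₂ : Measure Ω₂} [IsProbabilityMeasure μ₁]
    [IsProbabilityMeasure μ₂] {le₁ : Ω₁ → Ω₁ → Prop} {le₂ : Ω₂ → Ω₂ → Prop} {D₁ D₂ : ℝ}
    (r₁ : ∀ x, le₁ x x) (r₂ : ∀ y, le₂ y y) (h₁ : Defect μ₁ le₁ D₁) (h₂ : Defect μ₂ le₂ D₂) :
    Defect (μ₁.prod μ₂) (fun p q => le₁ p.1 q.1 ∧ le₂ p.2 q.2) (D₁ + D₂) := by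
  intro f g hf hg
  have hF := Defect_int (μ₁ := μ₁) r₁ r₂ hf
  have hG := Defect_int (μ₁ := μ₁) r₁ r₂ hg
  have hH := Defect_int (μ₁ := μ₁) r₁ r₂ (Defect_mul hf hg)
  rw [integral_prod_symm _ (Defect_integrable hf), integral_prod_symm _ (Defect_integrable hg),
    integral_prod_symm _ (Defect_integrable (Defect_mul hf hg))]
  have h3 := h₂ _ _ hF hG
  have h4 : ∫ y, (∫ x, f (x, y) ∂μ₁) * (∫ x, g (x, y) ∂μ₁) ∂μ₂ ≤
      ∫ y, ((∫ x, f (x, y) * g (x, y) ∂μ₁) + D₁) ∂μ₂ := by
    refine integral_mono (Defect_integrable (Defect_mul hF hG)) ((Defect_integrable hH).add (integrable_const _))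
      fun y => ?_
    exact h₁ _ _ (Defect_fst r₂ hf y) (Defect_fst r₂ hg y)
  rw [integral_add (Defect_integrable hH) (integrable_const _)] at h4
  simp only [integral_const, probReal_univ, smul_eq_mul, one_mul] at h4
  linarith

theorem Defect.pi_fin (n : ℕ) {X : Fin n → Type*} [∀ i, MeasurableSpace (X i)]
    (μ : ∀ i, Measure (X i)) [∀ i, IsProbabilityMeasure (μ i)] (le : ∀ i, X i → X i → Prop)
    (rf : ∀ i x, le i x x) (h : ∀ i, Defect (μ i) (le i) 0) :
    Defect (Measure.pi μ) (fun x y => ∀ i, le i (x i) (y i)) 0 := by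
  induction n with
  | zero =>
    intro f g _ _
    rw [Measure.pi_of_empty]
    rw [integral_dirac, integral_dirac, integral_dirac, add_zero]
  | succ n ih =>
    have h1 := (measurePreserving_piFinSuccAbove μ 0).symm
    rw [← h1.map_eq]
    have h2 := Defect.prod (rf 0) (le₂ := fun x y : ∀ j : Fin n, X (Fin.succAbove 0 j) =>
      ∀ i, le (Fin.succAbove 0 i) (x i) (y i)) (fun y i => rf _ _) (h 0)
      (ih (fun j => μ (Fin.succAbove 0 j)) (fun j => le (Fin.succAbove 0 j))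
        (fun j => rf (Fin.succAbove 0 j)) fun j => h (Fin.succAbove 0 j))
    rw [add_zero] at h2
    refine h2.map _ h1.measurable fun p q hpq => ?_
    have k1 : ∀ p, (MeasurableEquiv.piFinSuccAbove X 0).symm p 0 = p.1 := fun p =>
      congrArg Prod.fst ((MeasurableEquiv.piFinSuccAbove X 0).apply_symm_apply p)
    have k2 : ∀ p j, (MeasurableEquiv.piFinSuccAbove X 0).symm p (Fin.succAbove 0 j) = p.2 j :=
      fun p j => congrFun (congrArg Prod.snd
        ((MeasurableEquiv.piFinSuccAbove X 0).apply_symm_apply p)) j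
    rw [Fin.forall_iff_succAbove 0]
    refine ⟨?_, fun j => ?_⟩
    · rw [k1, k1]
      exact hpq.1
    · rw [k2, k2]
      exact hpq.2 j

theorem Defect.pi {κ : Type*} [Fintype κ] {X : κ → Type*} [∀ i, MeasurableSpace (X i)]
    (μ : ∀ i, Measure (X i)) [∀ i, IsProbabilityMeasure (μ i)] (le : ∀ i, X i → X i → Prop)
    (rf : ∀ i x, le i x x) (h : ∀ i, Defect (μ i) (le i) 0) :
    Defect (Measure.pi μ) (fun x y => ∀ i, le i (x i) (y i)) 0 := by
  have h1 := measurePreserving_piCongrLeft μ (Fintype.equivFin κ).symm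
  rw [← h1.map_eq]
  refine (Defect.pi_fin _ (fun i' => μ ((Fintype.equivFin κ).symm i'))
    (fun i' => le ((Fintype.equivFin κ).symm i')) (fun i' => rf _) fun i' => h _).map _
    h1.measurable fun p q hpq i => ?_
  obtain ⟨i', rfl⟩ := (Fintype.equivFin κ).symm.surjective i
  rw [MeasurableEquiv.coe_piCongrLeft, Equiv.piCongrLeft_apply_apply,
    Equiv.piCongrLeft_apply_apply]
  exact hpq i'

end Pool.Agent.Helper3.CD
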