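import Mathlib
import Pool.Agent.Helper3.CD.Base
import Pool.Agent.Helper3.CD.Defect

/-!
# CD frame B, piece B2b: the defect of one cell of small rate is `O(r ^ 2)`

PROOF. Let `f0` be the value of `f` at the cells without points (all such cells have the same value:
`pts` is empty, apply `anti` in both directions), `f1 e` the value at the cells with
`c.1 = 1`, `c.2 0 = e` (again the same value for all of them), `F1 = ∫ f1 dν`; same for `g`. The
integral over `{N = 0}` is `exp (-r) f0`, over `{N = 1}` it is `exp (-r) r F1`, over `{N ≥ 2}` it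
is between `0` and `P (N ≥ 2) ≤ r ^ 2`. So
`∫ f g ≥ exp (-r) (f0 g0 + r ∫ f1 g1)` and `(∫ f) (∫ g) ≤ (exp (-r) (f0 + r F1) + r^2) (exp (-r)
(g0 + r G1) + r^2) ≤ exp (-2r) (f0 + r F1) (g0 + r G1) + 2 r^2 + r^4` and
`exp (-r) (f0 g0 + r ∫ f1 g1) - exp (-2r) (f0 + r F1) (g0 + r G1)
≥ exp (-2r) ((1 + r) (f0 g0 + r ∫ f1 g1) - (f0 + r F1) (g0 + r G1))
= exp (-2r) (r ∫ (f0 - f1) (g0 - g1) + r^2 (∫ f1 g1 - F1 G1)) ≥ - r^2`.
-/

set_option autoImplicit false

open MeasureTheory ProbabilityTheory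
open scoped NNReal ENNReal

namespace Pool.Agent.Helper3.CD

variable {E : Type*} [MeasurableSpace E]

/-- inclusion of the sets of points present -/
def cellLe (c c' : Cell E) : Prop := pts c ⊆ pts c'

private lemma exp_mul_le (r : ℝ≥0) : Real.exp (-(r : ℝ)) * (1 + r) ≤ 1 := by
  have h1 : (r : ℝ) + 1 ≤ Real.exp r := Real.add_one_le_exp _
  have h2 : Real.exp (-(r : ℝ)) * Real.exp r = 1 := by
    rw [← Real.exp_add]; simp
  have h3 := Real.exp_pos (-(r : ℝ))
  nlinarith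

private lemma poisson_split (r : ℝ≥0) (h : ℕ → ℝ) (h0 : ∀ n, 0 ≤ h n)
    (h1 : ∀ n, h n ≤ 1) :
    Real.exp (-(r : ℝ)) * (h 0 + r * h 1) ≤ ∫ n, h n ∂(poissonMeasure r) ∧
    ∫ n, h n ∂(poissonMeasure r) ≤ Real.exp (-(r : ℝ)) * (h 0 + r * h 1) + (r : ℝ) ^ 2 := by
  have hint : Integrable h (poissonMeasure r) := by
    refine Integrable.of_bound (C := 1) (Measurable.of_discrete).aestronglyMeasurable ?_
    refine Filter.Eventually.of_forall fun n => ?_
    rw [Real.norm_eq_abs, abs_of_nonneg (h0 n)]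
    exact h1 n
  have hs := hasSum_one_poissonMeasure r
  have hf := hasSum_integral_poissonMeasure hint
  have hs2 := (hasSum_nat_add_iff' 2).2 hs
  have hf2 := (hasSum_nat_add_iff' 2).2 hf
  have hw : ∀ n : ℕ, 0 ≤ Real.exp (-(r : ℝ)) * (r : ℝ) ^ n / (n.factorial : ℝ) := fun n => by
    positivity
  have hlow := hf2.nonneg (fun n => by
    simp only [smul_eq_mul]
    exact mul_nonneg (hw _) (h0 _))
  have hup := hasSum_le (fun n => by
    simp only [smul_eq_mul]
    exact mul_le_of_le_one_right (hw _) (h1 _)) hf2 hs2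
  simp only [Finset.sum_range_succ, Finset.sum_range_zero, smul_eq_mul, Nat.factorial,
    pow_zero, pow_one, Nat.cast_one, div_one, mul_one, zero_add, Nat.succ_eq_add_one] at hlow hup
  have h2 : 1 - (r : ℝ) ≤ Real.exp (-(r : ℝ)) := by
    have := Real.add_one_le_exp (-(r : ℝ))
    linarith
  have hr0 : (0 : ℝ) ≤ r := r.2
  constructor
  · nlinarith
  · nlinarith

private lemma cell_bound (r : ℝ≥0) (ν : Measure E) [IsProbabilityMeasure ν] (F : Cell E → ℝ)
    (hm : Measurable F) (h0 : ∀ c, 0 ≤ F c) (h1 : ∀ c, F c ≤ 1) (c0 : ℝ) (c1 : E → ℝ)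
    (hc1 : Measurable c1) (e0 : ∀ e, F (0, e) = c0) (e1 : ∀ e, F (1, e) = c1 (e 0)) :
    Real.exp (-(r : ℝ)) * (c0 + r * ∫ x, c1 x ∂ν) ≤ ∫ c, F c ∂(cellLaw r ν) ∧
    ∫ c, F c ∂(cellLaw r ν) ≤ Real.exp (-(r : ℝ)) * (c0 + r * ∫ x, c1 x ∂ν) + (r : ℝ) ^ 2 := by
  have hint : Integrable F (cellLaw r ν) := by
    refine Integrable.of_bound (C := 1) hm.aestronglyMeasurable ?_
    refine Filter.Eventually.of_forall fun n => ?_
    rw [Real.norm_eq_abs, abs_of_nonneg (h0 n)]
    exact h1 n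
  have hprod : ∫ c, F c ∂(cellLaw r ν) =
      ∫ n, (∫ e, F (n, e) ∂(Measure.infinitePi fun _ : ℕ => ν)) ∂(poissonMeasure r) := by
    unfold cellLaw at hint ⊢
    exact integral_prod F hint
  have key := poisson_split r (fun n => ∫ e, F (n, e) ∂(Measure.infinitePi fun _ : ℕ => ν))
    (fun n => integral_nonneg fun e => h0 _)
    (fun n => by
      have hb : ∫ e, F (n, e) ∂(Measure.infinitePi fun _ : ℕ => ν) ≤
          ∫ _e, (1 : ℝ) ∂(Measure.infinitePi fun _ : ℕ => ν) := by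
        refine integral_mono ?_ (integrable_const _) (fun e => h1 _)
        refine Integrable.of_bound (C := 1)
          (hm.comp measurable_prodMk_left).aestronglyMeasurable ?_
        refine Filter.Eventually.of_forall fun e => ?_
        rw [Real.norm_eq_abs, abs_of_nonneg (h0 _)]
        exact h1 _
      simpa using hb)
  have k0 : ∫ e, F (0, e) ∂(Measure.infinitePi fun _ : ℕ => ν) = c0 := by
    simp [e0]
  have k1 : ∫ e, F (1, e) ∂(Measure.infinitePi fun _ : ℕ => ν) = ∫ x, c1 x ∂ν := by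
    have hmap : (Measure.infinitePi fun _ : ℕ => ν).map (Function.eval 0) = ν :=
      Measure.infinitePi_map_eval (fun _ : ℕ => ν) 0
    calc ∫ e, F (1, e) ∂(Measure.infinitePi fun _ : ℕ => ν)
        = ∫ e, c1 (Function.eval 0 e) ∂(Measure.infinitePi fun _ : ℕ => ν) := by
          simp only [e1, Function.eval]
      _ = ∫ x, c1 x ∂((Measure.infinitePi fun _ : ℕ => ν).map (Function.eval 0)) :=
          (integral_map (measurable_pi_apply 0).aemeasurable hc1.aestronglyMeasurable).symm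
      _ = ∫ x, c1 x ∂ν := by rw [hmap]
  rw [hprod]
  simp only [k0, k1] at key
  exact key

omit [MeasurableSpace E] in
private lemma pts_zero (e : ℕ → E) : pts ((0, e) : Cell E) = ∅ := by
  ext x; simp [pts]

omit [MeasurableSpace E] in
private lemma pts_one (e : ℕ → E) : pts ((1, e) : Cell E) = {e 0} := by
  ext x
  simp only [pts, Set.mem_ofPred_eq, Set.mem_singleton_iff, Nat.lt_one_iff, exists_eq_left]
  exact eq_comm

private lemma Dec.eq_of_pts {f : Cell E → ℝ} (hf : Dec cellLe f) {c c' : Cell E}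
    (h : pts c = pts c') : f c = f c' :=
  le_antisymm (hf.anti _ _ h.ge) (hf.anti _ _ h.le)

private lemma final_ineq {r ex f0 g0 F1 G1 H1 P Q R : ℝ} (hr0 : 0 ≤ r) (hr1 : r ≤ 1)
    (hex0 : 0 < ex) (hex1 : ex * (1 + r) ≤ 1) (hf0 : 0 ≤ f0) (hf0' : f0 ≤ 1) (hg0 : 0 ≤ g0)
    (hg0' : g0 ≤ 1) (hF : 0 ≤ F1) (hF' : F1 ≤ 1) (hG : 0 ≤ G1) (hG' : G1 ≤ 1) (hH : 0 ≤ H1)
    (hK : 0 ≤ f0 * g0 - f0 * G1 - g0 * F1 + H1) (hP0 : 0 ≤ P)
    (hP : P ≤ ex * (f0 + r * F1) + r ^ 2) (hQ : Q ≤ ex * (g0 + r * G1) + r ^ 2)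
    (hR : ex * (f0 * g0 + r * H1) ≤ R) : P * Q ≤ R + 4 * r ^ 2 := by
  have hexle : ex ≤ 1 := by nlinarith
  have ha : ex * (f0 + r * F1) ≤ 1 := by
    refine le_trans ?_ hex1
    have : f0 + r * F1 ≤ 1 + r := by nlinarith
    exact mul_le_mul_of_nonneg_left this hex0.le
  have hb : ex * (g0 + r * G1) ≤ 1 := by
    refine le_trans ?_ hex1
    have : g0 + r * G1 ≤ 1 + r := by nlinarith
    exact mul_le_mul_of_nonneg_left this hex0.le
  have ha0 : 0 ≤ ex * (f0 + r * F1) := by positivity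
  have hb0 : 0 ≤ ex * (g0 + r * G1) := by positivity
  have hr2 : 0 ≤ r ^ 2 := sq_nonneg r
  have hr2' : r ^ 2 ≤ 1 := by nlinarith
  have h1 : P * Q ≤ (ex * (f0 + r * F1) + r ^ 2) * (ex * (g0 + r * G1) + r ^ 2) := by
    calc P * Q ≤ P * (ex * (g0 + r * G1) + r ^ 2) := mul_le_mul_of_nonneg_left hQ hP0
      _ ≤ _ := mul_le_mul_of_nonneg_right hP (by positivity)
  have h2 : (ex * (f0 + r * F1) + r ^ 2) * (ex * (g0 + r * G1) + r ^ 2) ≤
      ex * (f0 + r * F1) * (ex * (g0 + r * G1)) + 3 * r ^ 2 := by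
    have e1 : r ^ 2 * (ex * (f0 + r * F1)) ≤ r ^ 2 * 1 := mul_le_mul_of_nonneg_left ha hr2
    have e2 : r ^ 2 * (ex * (g0 + r * G1)) ≤ r ^ 2 * 1 := mul_le_mul_of_nonneg_left hb hr2
    have e3 : r ^ 2 * r ^ 2 ≤ r ^ 2 * 1 := mul_le_mul_of_nonneg_left hr2' hr2
    nlinarith
  have h3 : ex ^ 2 * ((1 + r) * (f0 * g0 + r * H1)) ≤ ex * (f0 * g0 + r * H1) := by
    have e1 : 0 ≤ ex * (f0 * g0 + r * H1) := by positivity
    have e2 := mul_le_mul_of_nonneg_left hex1 e1
    nlinarith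
  have h4 : ex * (f0 + r * F1) * (ex * (g0 + r * G1)) ≤
      ex ^ 2 * ((1 + r) * (f0 * g0 + r * H1)) + r ^ 2 := by
    have e0 : ex * (f0 + r * F1) * (ex * (g0 + r * G1)) =
        ex ^ 2 * ((1 + r) * (f0 * g0 + r * H1)) +
          ex ^ 2 * (-(r * (f0 * g0 - f0 * G1 - g0 * F1 + H1)) + r ^ 2 * (F1 * G1 - H1)) := by
      ring
    have e1 : F1 * G1 - H1 ≤ 1 := by nlinarith
    have e2 : -(r * (f0 * g0 - f0 * G1 - g0 * F1 + H1)) + r ^ 2 * (F1 * G1 - H1) ≤ r ^ 2 := by
      have := mul_nonneg hr0 hK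
      have := mul_le_mul_of_nonneg_left e1 hr2
      linarith
    have e3 : ex ^ 2 ≤ 1 := by nlinarith
    have e4 : ex ^ 2 * (-(r * (f0 * g0 - f0 * G1 - g0 * F1 + H1)) + r ^ 2 * (F1 * G1 - H1)) ≤
        ex ^ 2 * r ^ 2 := mul_le_mul_of_nonneg_left e2 (sq_nonneg _)
    have e5 : ex ^ 2 * r ^ 2 ≤ 1 * r ^ 2 := mul_le_mul_of_nonneg_right e3 hr2
    linarith
  linarith

theorem defect_small (r : ℝ≥0) (hr : r ≤ 1) (ν : Measure E) [IsProbabilityMeasure ν] :
    Defect (cellLaw r ν) cellLe (4 * (r : ℝ) ^ 2) := by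
  intro f g hf hg
  obtain ⟨x0⟩ : Nonempty E := ν.nonempty_of_neZero
  have hbase : ∀ {f : Cell E → ℝ}, Dec cellLe f →
      (∀ e, f (0, e) = f (0, fun _ => x0)) ∧ (∀ e : ℕ → E, f (1, e) = f (1, fun _ => e 0)) ∧
        Measurable (fun x : E => f (1, fun _ => x)) := by
    intro f hf
    refine ⟨fun e => hf.eq_of_pts ?_, fun e => hf.eq_of_pts ?_, ?_⟩
    · rw [pts_zero, pts_zero]
    · rw [pts_one, pts_one]
    · refine hf.meas.comp ?_
      exact measurable_const.prodMk (measurable_pi_lambda _ fun _ => measurable_id)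
  obtain ⟨f0e, f1e, fm⟩ := hbase hf
  obtain ⟨g0e, g1e, gm⟩ := hbase hg
  have bf := cell_bound r ν f hf.meas hf.nonneg hf.le_one _ (fun x => f (1, fun _ => x)) fm f0e f1e
  have bg := cell_bound r ν g hg.meas hg.nonneg hg.le_one _ (fun x => g (1, fun _ => x)) gm g0e g1e
  have bfg := cell_bound r ν (fun c => f c * g c) (hf.meas.mul hg.meas)
    (fun c => mul_nonneg (hf.nonneg c) (hg.nonneg c))
    (fun c => mul_le_one₀ (hf.le_one c) (hg.nonneg c) (hg.le_one c))
    (f (0, fun _ => x0) * g (0, fun _ => x0))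
    (fun x => f (1, fun _ => x) * g (1, fun _ => x)) (fm.mul gm)
    (fun e => by simp only [f0e e, g0e e]) (fun e => by simp only [f1e e, g1e e])
  have hle : ∀ {f : Cell E → ℝ}, Dec cellLe f → ∀ x, f (1, fun _ => x) ≤ f (0, fun _ => x0) :=
    fun {f} hf x => hf.anti _ _ (by
      rw [cellLe, pts_zero]; exact Set.empty_subset _)
  have hif : ∀ {u : E → ℝ}, Measurable u → (∀ x, 0 ≤ u x) → (∀ x, u x ≤ 1) → Integrable u ν := by
    intro u hu h0 h1
    refine Integrable.of_bound (C := 1) hu.aestronglyMeasurable ?_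
    refine Filter.Eventually.of_forall fun x => ?_
    rw [Real.norm_eq_abs, abs_of_nonneg (h0 x)]
    exact h1 x
  have i1 := hif fm (fun x => hf.nonneg _) (fun x => hf.le_one _)
  have i2 := hif gm (fun x => hg.nonneg _) (fun x => hg.le_one _)
  have i3 := hif (fm.mul gm) (fun x => mul_nonneg (hf.nonneg _) (hg.nonneg _))
    (fun x => mul_le_one₀ (hf.le_one _) (hg.nonneg _) (hg.le_one _))
  have hint1 : ∀ {u : E → ℝ}, Integrable u ν → (∀ x, u x ≤ 1) → ∫ x, u x ∂ν ≤ 1 := by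
    intro u hu h1
    have := integral_mono hu (integrable_const (1 : ℝ)) h1
    simpa using this
  have hK : 0 ≤ f (0, fun _ => x0) * g (0, fun _ => x0)
      - f (0, fun _ => x0) * ∫ x, g (1, fun _ => x) ∂ν
      - g (0, fun _ => x0) * ∫ x, f (1, fun _ => x) ∂ν
      + ∫ x, f (1, fun _ => x) * g (1, fun _ => x) ∂ν := by
    have hpos : 0 ≤ ∫ x, (f (0, fun _ => x0) - f (1, fun _ => x)) *
        (g (0, fun _ => x0) - g (1, fun _ => x)) ∂ν :=
      integral_nonneg fun x => mul_nonneg (sub_nonneg.2 (hle hf x)) (sub_nonneg.2 (hle hg x))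
    have heq : ∫ x, (f (0, fun _ => x0) - f (1, fun _ => x)) *
        (g (0, fun _ => x0) - g (1, fun _ => x)) ∂ν =
        ∫ x, (f (0, fun _ => x0) * g (0, fun _ => x0)
          - f (0, fun _ => x0) * g (1, fun _ => x)
          - g (0, fun _ => x0) * f (1, fun _ => x)
          + f (1, fun _ => x) * g (1, fun _ => x)) ∂ν := by
      refine integral_congr_ae (Filter.Eventually.of_forall fun x => ?_)
      simp only
      ring
    rw [heq, integral_add, integral_sub, integral_sub, integral_const, integral_const_mul,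
      integral_const_mul] at hpos
    · simpa using hpos
    · exact integrable_const _
    · exact i2.const_mul _
    · exact (integrable_const _).sub (i2.const_mul _)
    · exact i1.const_mul _
    · exact ((integrable_const _).sub (i2.const_mul _)).sub (i1.const_mul _)
    · exact i3
  refine final_ineq r.2 (by exact_mod_cast hr) (Real.exp_pos _) (exp_mul_le r)
    (hf.nonneg _) (hf.le_one _) (hg.nonneg _) (hg.le_one _)
    (integral_nonneg fun x => hf.nonneg _) (hint1 i1 fun x => hf.le_one _)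
    (integral_nonneg fun x => hg.nonneg _) (hint1 i2 fun x => hg.le_one _)
    (integral_nonneg fun x => mul_nonneg (hf.nonneg _) (hg.nonneg _)) hK
    (integral_nonneg fun c => hf.nonneg _) bf.2 bg.2 bfg.1

end Pool.Agent.Helper3.CD
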