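import Mathlib
import Pool.Agent.Helper3.CD.Merge
import Pool.Agent.Helper3.CD.Small

/-!
# CD frame B, piece B2d: one cell is positively associated

PROOF. `cellLaw (a + b)` is the image of the product under `merge` (`law_merge`), which is
monotone (`pts_merge`); so the defect is subadditive (`Defect.prod`, `Defect.map`), the defect of
`cellLaw r` is at most `n * (4 (r / n) ^ 2) = 4 r ^ 2 / n` for `n ≥ r` (induction on `n` with rate
`k * (r / n)`), which tends to `0`.
-/

set_option autoImplicit false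

open MeasureTheory ProbabilityTheory
open scoped NNReal ENNReal

namespace Pool.Agent.Helper3.CD

variable {E : Type*} [MeasurableSpace E]

theorem defect_add (a b : ℝ≥0) (ν : Measure E) [IsProbabilityMeasure ν] {D D' : ℝ}
    (h : Defect (cellLaw a ν) cellLe D) (h' : Defect (cellLaw b ν) cellLe D') :
    Defect (cellLaw (a + b) ν) cellLe (D + D') := by
  have h1 := (h.prod (fun c => Set.Subset.refl (pts c)) (fun c => Set.Subset.refl (pts c)) h').map
    (le₂ := cellLe) (fun p => merge p.1 p.2) measurable_merge (by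
      rintro ⟨x, x'⟩ ⟨y, y'⟩ ⟨h1, h2⟩
      show pts _ ⊆ pts _
      rw [pts_merge, pts_merge]
      exact Set.union_subset_union h1 h2)
  rwa [law_merge] at h1

theorem defect_nsmul (s : ℝ≥0) (ν : Measure E) [IsProbabilityMeasure ν] {D : ℝ} (hD : 0 ≤ D)
    (h : Defect (cellLaw s ν) cellLe D) (n : ℕ) (hn : 0 < n) :
    Defect (cellLaw (n * s) ν) cellLe (n * D) := by
  induction n, hn using Nat.le_induction with
  | base => simpa using h
  | succ n _ ih =>
    have h1 := defect_add _ _ ν ih h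
    have e1 : ((n : ℝ≥0) * s + s) = ((n + 1 : ℕ) : ℝ≥0) * s := by push_cast; ring
    have e2 : ((n : ℝ) * D + D) = ((n + 1 : ℕ) : ℝ) * D := by push_cast; ring
    rwa [e1, e2] at h1

theorem assoc_cell (r : ℝ≥0) (ν : Measure E) [IsProbabilityMeasure ν] :
    Defect (cellLaw r ν) cellLe 0 := by
  intro f g hf hg
  rw [add_zero]
  refine le_of_forall_pos_le_add fun ε hε => ?_
  obtain ⟨n, hn⟩ := exists_nat_gt (max (r : ℝ) (4 * (r : ℝ) ^ 2 / ε))
  have hn1 : (r : ℝ) < n := lt_of_le_of_lt (le_max_left _ _) hn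
  have hn2 : 4 * (r : ℝ) ^ 2 / ε < n := lt_of_le_of_lt (le_max_right _ _) hn
  have hn0 : (0 : ℝ) < n := lt_of_le_of_lt r.2 hn1
  have hn0' : 0 < n := by exact_mod_cast hn0
  have h1 : r / n ≤ 1 := by
    rw [div_le_one (by exact_mod_cast hn0')]
    exact_mod_cast hn1.le
  have h2 := defect_nsmul (r / n) ν (by positivity) (defect_small (r / n) h1 ν) n hn0'
  have e1 : ((n : ℝ≥0) * (r / n)) = r := mul_div_cancel₀ _ (by exact_mod_cast hn0'.ne')
  rw [e1] at h2
  refine (h2 f g hf hg).trans (add_le_add_right ?_ _)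
  have e2 : (n : ℝ) * (4 * ((r / n : ℝ≥0) : ℝ) ^ 2) = 4 * (r : ℝ) ^ 2 / n := by
    push_cast
    field_simp
  rw [e2, div_le_iff₀ hn0]
  rw [div_lt_iff₀ hε] at hn2
  linarith

end Pool.Agent.Helper3.CD
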