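import Mathlib
import Pool.Agent.Helper3.CD.Base
import Pool.Agent.Helper3.CD.OneCell

/-!
# CD frame B, piece B2f: positive association for functions of finitely many cells

PROOF. Extend `v : ∀ i : J, Cell E` to a configuration by empty cells (`(0, x)` with some fixed
sequence of marks `x`; `E` is nonempty because it carries a probability measure when `J` is nonempty, and
if there is no configuration at all the integrals are `0`; or extend by a fixed configuration `w₀`
and treat the case of an empty space `Cfg ι E` apart); `f' v := f (extension)` is measurable, with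
values in `[0, 1]` and decreasing for the pointwise `cellLe`, and `f w = f' (J.restrict w)`. The law of
`J.restrict w` is `Measure.pi` (`Measure.infinitePi_map_restrict`); `Defect.pi` with `assoc_cell`.
`Sp w ⊆ Sp w'` iff `cellLe (w i) (w' i)` for all `i`.
-/

set_option autoImplicit false

open MeasureTheory ProbabilityTheory
open scoped NNReal ENNReal

namespace Pool.Agent.Helper3.CD

variable {ι E : Type*} [MeasurableSpace E]

/-- inclusion of the sets of points present -/
def cfgLe (w w' : Cfg ι E) : Prop := Sp w ⊆ Sp w'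

theorem cfgLe_iff (w w' : Cfg ι E) : cfgLe w w' ↔ ∀ i, cellLe (w i) (w' i) :=
  ⟨fun h i e he => h (show (i, e) ∈ Sp w from he), fun h p hp => h p.1 hp⟩

open Classical in
/-- the configuration with the cells of `v` in `J` and those of `w₀` outside -/
private noncomputable def FkgFin_ext (J : Finset ι) (w₀ : Cfg ι E) (v : ∀ _ : J, Cell E) :
    Cfg ι E := fun i => if h : i ∈ J then v ⟨i, h⟩ else w₀ i

private theorem FkgFin_ext_meas (J : Finset ι) (w₀ : Cfg ι E) :
    Measurable (FkgFin_ext (E := E) J w₀) := by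
  classical
  refine measurable_pi_lambda _ fun i => ?_
  by_cases h : i ∈ J
  · have h1 : (fun v => FkgFin_ext (E := E) J w₀ v i) = fun v => v ⟨i, h⟩ := by
      funext v
      unfold FkgFin_ext
      rw [dif_pos h]
    rw [h1]
    exact measurable_pi_apply (⟨i, h⟩ : J)
  · have h1 : (fun v => FkgFin_ext (E := E) J w₀ v i) = fun _ => w₀ i := by
      funext v
      unfold FkgFin_ext
      rw [dif_neg h]
    rw [h1]
    exact measurable_const

private theorem FkgFin_dec (J : Finset ι) (w₀ : Cfg ι E) (f : Cfg ι E → ℝ) (hf : Dec cfgLe f) :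
    Dec (fun x y : (∀ _ : J, Cell E) => ∀ i, cellLe (x i) (y i))
      (fun v => f (FkgFin_ext J w₀ v)) where
  meas := hf.meas.comp (FkgFin_ext_meas J w₀)
  nonneg := fun x => hf.nonneg _
  le_one := fun x => hf.le_one _
  anti := by
    classical
    intro x y h
    refine hf.anti _ _ ((cfgLe_iff _ _).2 fun i => ?_)
    unfold FkgFin_ext
    by_cases hi : i ∈ J
    · rw [dif_pos hi, dif_pos hi]
      exact h ⟨i, hi⟩
    · rw [dif_neg hi, dif_neg hi]
      exact Set.Subset.refl _

private theorem FkgFin_int (r : ι → ℝ≥0) (ν : ι → Measure E) [∀ i, IsProbabilityMeasure (ν i)]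
    (J : Finset ι) (w₀ : Cfg ι E) (f : Cfg ι E → ℝ) (hf : Measurable f)
    (hfJ : DepOnF (J : Set ι) f) :
    ∫ w, f w ∂(soup r ν) =
      ∫ v, f (FkgFin_ext J w₀ v) ∂(Measure.pi fun i : J => cellLaw (r i) (ν i)) := by
  classical
  have h1 : (soup r ν).map J.restrict = Measure.pi fun i : J => cellLaw (r i) (ν i) := by
    unfold soup
    exact Measure.infinitePi_map_restrict _
  rw [← h1, integral_map (Finset.measurable_restrict J).aemeasurable
    (hf.comp (FkgFin_ext_meas J w₀)).aestronglyMeasurable]
  refine integral_congr_ae (Filter.Eventually.of_forall fun w => ?_)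
  refine hfJ w _ fun i hi => ?_
  unfold FkgFin_ext
  rw [dif_pos (Finset.mem_coe.1 hi)]
  rfl

theorem fkg_fin (r : ι → ℝ≥0) (ν : ι → Measure E) [∀ i, IsProbabilityMeasure (ν i)]
    (J : Finset ι) (f g : Cfg ι E → ℝ) (hf : Dec cfgLe f) (hg : Dec cfgLe g)
    (hfJ : DepOnF (J : Set ι) f) (hgJ : DepOnF (J : Set ι) g) :
    (∫ w, f w ∂(soup r ν)) * (∫ w, g w ∂(soup r ν)) ≤ ∫ w, f w * g w ∂(soup r ν) := by
  have hne : Nonempty (Cfg ι E) := by
    by_contra h
    rw [not_nonempty_iff] at h
    have h1 : soup r ν Set.univ = 1 := measure_univ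
    have h2 : (Set.univ : Set (Cfg ι E)) = ∅ := Set.eq_empty_of_isEmpty _
    rw [h2, measure_empty] at h1
    exact zero_ne_one h1
  obtain ⟨w₀⟩ := hne
  have hfgJ : DepOnF (J : Set ι) fun w => f w * g w := fun w w' h => by
    show f w * g w = f w' * g w'
    rw [hfJ w w' h, hgJ w w' h]
  rw [FkgFin_int r ν J w₀ f hf.meas hfJ, FkgFin_int r ν J w₀ g hg.meas hgJ,
    FkgFin_int r ν J w₀ (fun w => f w * g w) (hf.meas.mul hg.meas) hfgJ]
  have h1 := Defect.pi (fun i : J => cellLaw (r i) (ν i)) (fun _ => cellLe)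
    (fun _ x => Set.Subset.refl (pts x)) (fun i => assoc_cell (r i) (ν i))
    _ _ (FkgFin_dec J w₀ f hf) (FkgFin_dec J w₀ g hg)
  rw [add_zero] at h1
  exact h1

end Pool.Agent.Helper3.CD
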