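import Mathlib
import Pool.Agent.Helper3.CD.Base
import Pool.Agent.Helper3.CD.FkgFin

/-!
# CD frame B, piece B2g: averaging over the cells outside a finite set

`glue J w w'` has the cells of `w` in `J` and those of `w'` outside `J`; `avg J f w` is the
integral of `f (glue J w w')` over `w'`.

PROOFS. `law_glue`: `Measure.eq_infinitePi`: the preimage of a box over the Finset `s` is the product of
the boxes over `s ∩ J` and `s \ J`; `Measure.prod_prod`, `infinitePi_pi`, `Finset.prod_inter_mul_prod_diff`.
`avg_dec`: measurability of parametric integrals (`StronglyMeasurable.integral_prod_right`),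
`integral_mono`, `Sp (glue J w v) ⊆ Sp (glue J w' v)` if `Sp w ⊆ Sp w'`. `integral_avg`: `law_glue`,
`integral_map`, `integral_prod`.
-/

set_option autoImplicit false

open MeasureTheory ProbabilityTheory
open scoped NNReal ENNReal

namespace Pool.Agent.Helper3.CD

variable {ι E : Type*}

open Classical in
/-- the cells of `w` in `J`, those of `w'` outside `J` -/
noncomputable def glue (J : Finset ι) (w w' : Cfg ι E) : Cfg ι E :=
  fun i => if i ∈ J then w i else w' i

variable [MeasurableSpace E] (r : ι → ℝ≥0) (ν : ι → Measure E)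

/-- the average over the cells outside `J` -/
noncomputable def avg (J : Finset ι) (f : Cfg ι E → ℝ) (w : Cfg ι E) : ℝ :=
  ∫ w', f (glue J w w') ∂(soup r ν)

variable [∀ i, IsProbabilityMeasure (ν i)]

theorem measurable_glue (J : Finset ι) :
    Measurable fun p : Cfg ι E × Cfg ι E => glue J p.1 p.2 := by
  classical
  refine measurable_pi_lambda _ fun i => ?_
  unfold glue
  by_cases h : i ∈ J
  · simp only [h, if_true]
    exact (measurable_pi_apply i).comp measurable_fst
  · simp only [h, if_false]
    exact (measurable_pi_apply i).comp measurable_snd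

theorem law_glue (J : Finset ι) :
    ((soup r ν).prod (soup r ν)).map (fun p => glue J p.1 p.2) = soup r ν := by
  classical
  refine Measure.eq_infinitePi _ fun s t ht => ?_
  rw [Measure.map_apply (measurable_glue J) (MeasurableSet.pi s.countable_toSet fun i _ => ht i)]
  have hpre : (fun p : Cfg ι E × Cfg ι E => glue J p.1 p.2) ⁻¹' (Set.pi s t)
      = (Set.pi (s ∩ J : Finset ι) t) ×ˢ (Set.pi (s \ J : Finset ι) t) := by
    ext p
    simp only [Set.mem_preimage, Set.mem_pi, Set.mem_prod, Finset.coe_inter, Finset.coe_sdiff,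
      Set.mem_inter_iff, Set.mem_sdiff, Finset.mem_coe, glue]
    constructor
    · intro h
      refine ⟨fun i hi => ?_, fun i hi => ?_⟩
      · have := h i hi.1
        rwa [if_pos hi.2] at this
      · have := h i hi.1
        rwa [if_neg hi.2] at this
    · rintro ⟨h1, h2⟩ i hi
      by_cases hJ : i ∈ J
      · rw [if_pos hJ]; exact h1 i ⟨hi, hJ⟩
      · rw [if_neg hJ]; exact h2 i ⟨hi, hJ⟩
  rw [hpre, Measure.prod_prod]
  unfold soup
  rw [Measure.infinitePi_pi _ fun i _ => ht i, Measure.infinitePi_pi _ fun i _ => ht i]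
  exact Finset.prod_inter_mul_prod_sdiff s J _

omit [MeasurableSpace E] in
private theorem gl_le (J : Finset ι) {w w' : Cfg ι E} (h : Sp w ⊆ Sp w') (v : Cfg ι E) :
    Sp (glue J w v) ⊆ Sp (glue J w' v) := by
  classical
  intro p hp
  rw [mem_Sp] at hp ⊢
  unfold glue at hp ⊢
  by_cases hJ : p.1 ∈ J
  · simp only [hJ, if_true] at hp ⊢
    exact h (show p ∈ Sp w from hp)
  · simp only [hJ, if_false] at hp ⊢
    exact hp

private theorem gl_integrable {Ω : Type*} [MeasurableSpace Ω] {μ : Measure Ω} [IsFiniteMeasure μ]
    {f : Ω → ℝ} (hm : Measurable f) (h0 : ∀ x, 0 ≤ f x) (h1 : ∀ x, f x ≤ 1) : Integrable f μ :=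
  Integrable.of_bound hm.aestronglyMeasurable 1
    (Filter.Eventually.of_forall fun x => by
      rw [Real.norm_eq_abs, abs_of_nonneg (h0 x)]; exact h1 x)

private theorem gl_meas_right (J : Finset ι) {f : Cfg ι E → ℝ} (hf : Measurable f) (w : Cfg ι E) :
    Measurable fun w' => f (glue J w w') :=
  hf.comp ((measurable_glue J).comp (measurable_const.prodMk measurable_id))

theorem avg_dec (J : Finset ι) (f : Cfg ι E → ℝ) (hf : Dec cfgLe f) :
    Dec cfgLe (avg r ν J f) ∧ DepOnF (J : Set ι) (avg r ν J f) := by
  classical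
  refine ⟨⟨?_, fun w => ?_, fun w => ?_, fun w w' h => ?_⟩, fun w w' h => ?_⟩
  · have h1 : StronglyMeasurable fun p : Cfg ι E × Cfg ι E => f (glue J p.1 p.2) :=
      (hf.meas.comp (measurable_glue J)).stronglyMeasurable
    exact (h1.integral_prod_right (ν := soup r ν)).measurable
  · exact integral_nonneg fun v => hf.nonneg _
  · unfold avg
    calc ∫ w', f (glue J w w') ∂(soup r ν) ≤ ∫ _, (1 : ℝ) ∂(soup r ν) :=
          integral_mono (gl_integrable (gl_meas_right J hf.meas w) (fun _ => hf.nonneg _)
            fun _ => hf.le_one _) (integrable_const _) fun v => hf.le_one _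
      _ = 1 := by simp
  · unfold avg
    refine integral_mono (gl_integrable (gl_meas_right J hf.meas w') (fun _ => hf.nonneg _)
      fun _ => hf.le_one _) (gl_integrable (gl_meas_right J hf.meas w) (fun _ => hf.nonneg _)
      fun _ => hf.le_one _) fun v => ?_
    exact hf.anti _ _ (gl_le J h v)
  · unfold avg
    refine integral_congr_ae (Filter.Eventually.of_forall fun v => ?_)
    have : glue J w v = glue J w' v := by
      funext i
      unfold glue
      by_cases hJ : i ∈ J
      · simp only [hJ, if_true]; exact h i hJ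
      · simp only [hJ, if_false]
    simp only [this]

theorem integral_avg (J : Finset ι) (f : Cfg ι E → ℝ) (hf : Dec cfgLe f) :
    ∫ w, avg r ν J f w ∂(soup r ν) = ∫ w, f w ∂(soup r ν) := by
  have h1 : ∫ w, f w ∂(soup r ν)
      = ∫ p : Cfg ι E × Cfg ι E, f (glue J p.1 p.2) ∂((soup r ν).prod (soup r ν)) := by
    conv_lhs => rw [← law_glue r ν J]
    exact integral_map (measurable_glue J).aemeasurable hf.meas.aestronglyMeasurable
  have h2 : Integrable (fun p : Cfg ι E × Cfg ι E => f (glue J p.1 p.2))
      ((soup r ν).prod (soup r ν)) :=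
    gl_integrable (hf.meas.comp (measurable_glue J)) (fun _ => hf.nonneg _) fun _ => hf.le_one _
  rw [h1, integral_prod _ h2]
  rfl

end Pool.Agent.Helper3.CD
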