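import Mathlib
import Pool.Agent.Helper3.CD.Glue
import Pool.Agent.Helper3.CD.Approx

/-!
# CD frame B, piece B2i: the averages converge

PROOF. By `approx_cylinder` there is `J₀` and `S'` depending on
`J₀` with `μ (S ∆ S') < ε / 2`. If `J₀ ⊆ J` then `1_{S'} (glue J w w') = 1_{S'} w`, so
`∫ |1_S - avg J 1_S| ≤ ∫ |1_S - 1_{S'}| + ∫ ∫ |1_{S'} - 1_S| (glue J w w') ≤ 2 μ (S ∆ S')`.
-/

set_option autoImplicit false

open MeasureTheory ProbabilityTheory
open scoped NNReal ENNReal

namespace Pool.Agent.Helper3.CD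

variable {ι E : Type*} [MeasurableSpace E] (r : ι → ℝ≥0) (ν : ι → Measure E)
  [∀ i, IsProbabilityMeasure (ν i)]

omit [MeasurableSpace E] in
private theorem Close_point (S S' : Set (Cfg ι E)) (J : Finset ι)
    (h : ∀ w w' : Cfg ι E, (w ∈ S' ↔ glue J w w' ∈ S')) (w w' : Cfg ι E) :
    |S.indicator (1 : Cfg ι E → ℝ) w - S.indicator (1 : Cfg ι E → ℝ) (glue J w w')| ≤
      (symmDiff S S').indicator (1 : Cfg ι E → ℝ) w +
        (symmDiff S S').indicator (1 : Cfg ι E → ℝ) (glue J w w') := by
  classical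
  have h1 := h w w'
  simp only [Set.indicator_apply, Set.mem_symmDiff, Pi.one_apply]
  by_cases a : w ∈ S <;> by_cases b : glue J w w' ∈ S <;> by_cases c : w ∈ S' <;>
    by_cases d : glue J w w' ∈ S' <;> simp_all

theorem avg_close (S : Set (Cfg ι E)) (hS : MeasurableSet S) (ε : ℝ) (hε : 0 < ε) :
    ∃ J₀ : Finset ι, ∀ J : Finset ι, J₀ ⊆ J →
      ∫ w, |S.indicator 1 w - avg r ν J (S.indicator 1) w| ∂(soup r ν) ≤ ε := by
  classical
  obtain ⟨J₀, S', hS', hdep, hlt⟩ := approx_cylinder (soup r ν) S hS (ε / 2) (by positivity)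
  refine ⟨J₀, fun J hJ => ?_⟩
  set P := soup r ν with hP
  set D : Set (Cfg ι E) := symmDiff S S' with hD
  have hDm : MeasurableSet D := hS.symmDiff hS'
  have hglue : ∀ w w' : Cfg ι E, (w ∈ S' ↔ glue J w w' ∈ S') := by
    intro w w'
    refine hdep w _ fun i hi => ?_
    unfold glue
    rw [if_pos (hJ hi)]
  have hg := measurable_glue (ι := ι) (E := E) J
  have hgw : ∀ w : Cfg ι E, Measurable fun w' : Cfg ι E => glue J w w' := fun w =>
    hg.comp measurable_prodMk_left
  have hm1 : ∀ T : Set (Cfg ι E), MeasurableSet T →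
      Measurable (T.indicator (1 : Cfg ι E → ℝ)) := fun T hT =>
    measurable_one.indicator hT
  have hb1 : ∀ (T : Set (Cfg ι E)) (w : Cfg ι E), ‖T.indicator (1 : Cfg ι E → ℝ) w‖ ≤ 1 := by
    intro T w
    rw [Set.indicator_apply]
    split_ifs <;> simp
  have hn1 : ∀ (T : Set (Cfg ι E)) (w : Cfg ι E), 0 ≤ T.indicator (1 : Cfg ι E → ℝ) w := by
    intro T w
    rw [Set.indicator_apply]
    split_ifs <;> simp
  have hi1 : ∀ (T : Set (Cfg ι E)) (w : Cfg ι E), MeasurableSet T →
      Integrable (fun w' => T.indicator (1 : Cfg ι E → ℝ) (glue J w w')) P := by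
    intro T w hT
    refine Integrable.of_bound ((hm1 T hT).comp (hgw w)).aestronglyMeasurable 1 ?_
    exact Filter.Eventually.of_forall fun w' => hb1 T _
  -- the bound for a fixed configuration
  have hpt : ∀ w : Cfg ι E, |S.indicator (1 : Cfg ι E → ℝ) w - avg r ν J (S.indicator 1) w| ≤
      ∫ w', (D.indicator (1 : Cfg ι E → ℝ) w + D.indicator (1 : Cfg ι E → ℝ) (glue J w w')) ∂P := by
    intro w
    have h1 : S.indicator (1 : Cfg ι E → ℝ) w - avg r ν J (S.indicator 1) w =
        ∫ w', (S.indicator (1 : Cfg ι E → ℝ) w - S.indicator (1 : Cfg ι E → ℝ) (glue J w w')) ∂P := by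
      rw [integral_sub (integrable_const _) (hi1 S w hS), integral_const, probReal_univ, one_smul]
      rfl
    rw [h1]
    refine abs_integral_le_integral_abs.trans ?_
    refine integral_mono_of_nonneg (Filter.Eventually.of_forall fun w' => abs_nonneg _)
      ((integrable_const _).add (hi1 D w hDm)) (Filter.Eventually.of_forall fun w' => ?_)
    exact Close_point S S' J hglue w w'
  have hF : Integrable (fun z : Cfg ι E × Cfg ι E => D.indicator (1 : Cfg ι E → ℝ) z.1 +
      D.indicator (1 : Cfg ι E → ℝ) (glue J z.1 z.2)) (P.prod P) := by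
    refine Integrable.add ?_ ?_
    · refine Integrable.of_bound ((hm1 D hDm).comp measurable_fst).aestronglyMeasurable 1 ?_
      exact Filter.Eventually.of_forall fun w' => hb1 D _
    · refine Integrable.of_bound ((hm1 D hDm).comp hg).aestronglyMeasurable 1 ?_
      exact Filter.Eventually.of_forall fun w' => hb1 D _
  have hF1 : Integrable (fun z : Cfg ι E × Cfg ι E => D.indicator (1 : Cfg ι E → ℝ) z.1)
      (P.prod P) := by
    refine Integrable.of_bound ((hm1 D hDm).comp measurable_fst).aestronglyMeasurable 1 ?_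
    exact Filter.Eventually.of_forall fun w' => hb1 D _
  have hF2 : Integrable (fun z : Cfg ι E × Cfg ι E =>
      D.indicator (1 : Cfg ι E → ℝ) (glue J z.1 z.2)) (P.prod P) := by
    refine Integrable.of_bound ((hm1 D hDm).comp hg).aestronglyMeasurable 1 ?_
    exact Filter.Eventually.of_forall fun w' => hb1 D _
  have h2 : ∫ w, |S.indicator (1 : Cfg ι E → ℝ) w - avg r ν J (S.indicator 1) w| ∂P ≤
      ∫ w, ∫ w', (D.indicator (1 : Cfg ι E → ℝ) w +
        D.indicator (1 : Cfg ι E → ℝ) (glue J w w')) ∂P ∂P := by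
    refine integral_mono_of_nonneg (Filter.Eventually.of_forall fun w' => abs_nonneg _)
      hF.integral_prod_left (Filter.Eventually.of_forall hpt)
  refine h2.trans ?_
  rw [← integral_prod (fun z : Cfg ι E × Cfg ι E => D.indicator (1 : Cfg ι E → ℝ) z.1 +
      D.indicator (1 : Cfg ι E → ℝ) (glue J z.1 z.2)) hF, integral_add hF1 hF2]
  have h3 : ∫ z : Cfg ι E × Cfg ι E, D.indicator (1 : Cfg ι E → ℝ) z.1 ∂(P.prod P) = P.real D := by
    have h4 : (P.prod P).map Prod.fst = P := measurePreserving_fst.map_eq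
    have h5 := integral_map (μ := P.prod P) (φ := Prod.fst) measurable_fst.aemeasurable
      (f := D.indicator (1 : Cfg ι E → ℝ)) (hm1 D hDm).aestronglyMeasurable
    rw [← h5, h4, integral_indicator_one hDm]
  have h6 : ∫ z : Cfg ι E × Cfg ι E, D.indicator (1 : Cfg ι E → ℝ) (glue J z.1 z.2)
      ∂(P.prod P) = P.real D := by
    have h4 : (P.prod P).map (fun p => glue J p.1 p.2) = P := law_glue r ν J
    have h5 := integral_map (μ := P.prod P) (φ := fun p => glue J p.1 p.2) hg.aemeasurable
      (f := D.indicator (1 : Cfg ι E → ℝ)) (hm1 D hDm).aestronglyMeasurable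
    rw [← h5, h4, integral_indicator_one hDm]
  rw [h3, h6]
  have h7 : P.real D ≤ ε / 2 := by
    rw [measureReal_def]
    exact ENNReal.toReal_le_of_le_ofReal (by positivity) hlt.le
  linarith

end Pool.Agent.Helper3.CD
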