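import Mathlib
import Pool.Agent.Helper3.CD.Base
import Pool.Agent.Helper3.CD.Glue
import Pool.Agent.Helper3.CD.Close

/-!
# CD frame B, B2: decreasing events are positively correlated
-/

set_option autoImplicit false

open MeasureTheory ProbabilityTheory
open scoped NNReal ENNReal

namespace Pool.Agent.Helper3.CD

variable {ι E : Type*} [MeasurableSpace E] (r : ι → ℝ≥0) (ν : ι → Measure E)
  [∀ i, IsProbabilityMeasure (ν i)]

lemma dec_indicator (S : Set (Cfg ι E)) (hS : MeasurableSet S) (hd : Decr S) :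
    Dec cfgLe (S.indicator (1 : Cfg ι E → ℝ)) where
  meas := measurable_one.indicator hS
  nonneg := fun x => Set.indicator_nonneg (fun _ _ => zero_le_one) x
  le_one := fun x => Set.indicator_le_self' (fun _ _ => zero_le_one) x
  anti := by
    intro x y h
    by_cases hy : y ∈ S
    · have hx : x ∈ S := hd y x h hy
      simp [hx, hy]
    · rw [Set.indicator_of_notMem hy]
      exact Set.indicator_nonneg (fun _ _ => zero_le_one) x

lemma integrable_dec (f : Cfg ι E → ℝ) (hf : Dec cfgLe f) : Integrable f (soup r ν) := by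
  refine Integrable.of_bound hf.meas.aestronglyMeasurable 1 (Filter.Eventually.of_forall fun w => ?_)
  rw [Real.norm_eq_abs, abs_of_nonneg (hf.nonneg w)]
  exact hf.le_one w

theorem fkg (S T : Set (Cfg ι E)) (hS : MeasurableSet S) (hT : MeasurableSet T)
    (hSd : Decr S) (hTd : Decr T) : soup r ν S * soup r ν T ≤ soup r ν (S ∩ T) := by
  set f : Cfg ι E → ℝ := S.indicator 1 with hf
  set g : Cfg ι E → ℝ := T.indicator 1 with hg
  have hfD : Dec cfgLe f := dec_indicator S hS hSd
  have hgD : Dec cfgLe g := dec_indicator T hT hTd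
  have key : (∫ w, f w ∂(soup r ν)) * (∫ w, g w ∂(soup r ν)) ≤ ∫ w, f w * g w ∂(soup r ν) := by
    refine le_of_forall_pos_le_add fun ε hε => ?_
    obtain ⟨J₁, h₁⟩ := avg_close r ν S hS (ε / 2) (half_pos hε)
    obtain ⟨J₂, h₂⟩ := avg_close r ν T hT (ε / 2) (half_pos hε)
    classical
    have h₁' := h₁ (J₁ ∪ J₂) Finset.subset_union_left
    have h₂' := h₂ (J₁ ∪ J₂) Finset.subset_union_right
    obtain ⟨ha, ha'⟩ := avg_dec r ν (J₁ ∪ J₂) f hfD
    obtain ⟨hb, hb'⟩ := avg_dec r ν (J₁ ∪ J₂) g hgD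
    have h3 := fkg_fin r ν (J₁ ∪ J₂) _ _ ha hb ha' hb'
    rw [integral_avg r ν _ f hfD, integral_avg r ν _ g hgD] at h3
    refine h3.trans ?_
    have if1 : Integrable (fun w => |f w - avg r ν (J₁ ∪ J₂) f w|) (soup r ν) :=
      ((integrable_dec r ν f hfD).sub (integrable_dec r ν _ ha)).abs
    have ig1 : Integrable (fun w => |g w - avg r ν (J₁ ∪ J₂) g w|) (soup r ν) :=
      ((integrable_dec r ν g hgD).sub (integrable_dec r ν _ hb)).abs
    have ifg : Integrable (fun w => f w * g w) (soup r ν) := by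
      refine Integrable.of_bound (hfD.meas.mul hgD.meas).aestronglyMeasurable 1
        (Filter.Eventually.of_forall fun w => ?_)
      rw [Real.norm_eq_abs, abs_of_nonneg (mul_nonneg (hfD.nonneg w) (hgD.nonneg w))]
      exact mul_le_one₀ (hfD.le_one w) (hgD.nonneg w) (hgD.le_one w)
    have iab : Integrable (fun w => avg r ν (J₁ ∪ J₂) f w * avg r ν (J₁ ∪ J₂) g w)
        (soup r ν) := by
      refine Integrable.of_bound (ha.meas.mul hb.meas).aestronglyMeasurable 1
        (Filter.Eventually.of_forall fun w => ?_)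
      rw [Real.norm_eq_abs, abs_of_nonneg (mul_nonneg (ha.nonneg w) (hb.nonneg w))]
      exact mul_le_one₀ (ha.le_one w) (hb.nonneg w) (hb.le_one w)
    have h4 : ∫ w, avg r ν (J₁ ∪ J₂) f w * avg r ν (J₁ ∪ J₂) g w ∂(soup r ν) ≤
        ∫ w, (f w * g w + (|f w - avg r ν (J₁ ∪ J₂) f w| +
          |g w - avg r ν (J₁ ∪ J₂) g w|)) ∂(soup r ν) := by
      refine integral_mono iab (ifg.add (if1.add ig1)) fun w => ?_
      have a0 := ha.nonneg w
      have a1 := ha.le_one w
      have g0 := hgD.nonneg w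
      have g1 := hgD.le_one w
      have e1 := neg_abs_le (f w - avg r ν (J₁ ∪ J₂) f w)
      have e2 := neg_abs_le (g w - avg r ν (J₁ ∪ J₂) g w)
      have e3 := abs_nonneg (f w - avg r ν (J₁ ∪ J₂) f w)
      have e4 := abs_nonneg (g w - avg r ν (J₁ ∪ J₂) g w)
      show avg r ν (J₁ ∪ J₂) f w * avg r ν (J₁ ∪ J₂) g w ≤ f w * g w + _
      nlinarith [mul_nonneg a0 e4, mul_nonneg g0 e3, mul_nonneg (sub_nonneg.2 a1) e4,
        mul_nonneg (sub_nonneg.2 g1) e3,
        mul_le_mul_of_nonneg_left e1 g0, mul_le_mul_of_nonneg_left e2 a0]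
    refine h4.trans ?_
    have h5 : ∫ w, (f w * g w + (|f w - avg r ν (J₁ ∪ J₂) f w| +
          |g w - avg r ν (J₁ ∪ J₂) g w|)) ∂(soup r ν) =
        (∫ w, f w * g w ∂(soup r ν)) + ∫ w, (|f w - avg r ν (J₁ ∪ J₂) f w| +
          |g w - avg r ν (J₁ ∪ J₂) g w|) ∂(soup r ν) := integral_add ifg (if1.add ig1)
    have h6 : ∫ w, (|f w - avg r ν (J₁ ∪ J₂) f w| + |g w - avg r ν (J₁ ∪ J₂) g w|) ∂(soup r ν) =
        (∫ w, |f w - avg r ν (J₁ ∪ J₂) f w| ∂(soup r ν)) +
          ∫ w, |g w - avg r ν (J₁ ∪ J₂) g w| ∂(soup r ν) := integral_add if1 ig1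
    rw [h5, h6]
    linarith
  have e1 : ∫ w, f w ∂(soup r ν) = (soup r ν).real S := by
    rw [hf]; exact integral_indicator_one hS
  have e2 : ∫ w, g w ∂(soup r ν) = (soup r ν).real T := by
    rw [hg]; exact integral_indicator_one hT
  have e3 : ∫ w, f w * g w ∂(soup r ν) = (soup r ν).real (S ∩ T) := by
    have e4 : (fun w => f w * g w) = (S ∩ T).indicator (1 : Cfg ι E → ℝ) := by
      rw [Set.inter_indicator_one]
      rfl
    rw [e4]
    exact integral_indicator_one (hS.inter hT)
  rw [e1, e2, e3] at key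
  rw [← ofReal_measureReal (μ := soup r ν) (s := S), ← ofReal_measureReal (μ := soup r ν) (s := T),
    ← ofReal_measureReal (μ := soup r ν) (s := S ∩ T), ← ENNReal.ofReal_mul measureReal_nonneg]
  exact ENNReal.ofReal_le_ofReal key

/-- real form -/
theorem fkg_real (S T : Set (Cfg ι E)) (hS : MeasurableSet S) (hT : MeasurableSet T)
    (hSd : Decr S) (hTd : Decr T) :
    (soup r ν).real S * (soup r ν).real T ≤ (soup r ν).real (S ∩ T) := by
  have h := fkg r ν S T hS hT hSd hTd
  have h2 := ENNReal.toReal_mono (measure_ne_top _ _) h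
  rwa [ENNReal.toReal_mul] at h2

theorem fkg_finset {κ : Type*} (s : Finset κ) (S : κ → Set (Cfg ι E))
    (hS : ∀ k ∈ s, MeasurableSet (S k)) (hSd : ∀ k ∈ s, Decr (S k)) :
    ∏ k ∈ s, soup r ν (S k) ≤ soup r ν (⋂ k ∈ s, S k) := by
  classical
  induction s using Finset.induction_on with
  | empty => simp
  | insert a s ha ih =>
    rw [Finset.prod_insert ha, Finset.set_biInter_insert]
    refine le_trans (mul_le_mul' le_rfl (ih (fun k hk => hS k (Finset.mem_insert_of_mem hk))
      (fun k hk => hSd k (Finset.mem_insert_of_mem hk)))) ?_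
    refine fkg r ν _ _ (hS a (Finset.mem_insert_self _ _))
      (Finset.measurableSet_biInter _ fun k hk => hS k (Finset.mem_insert_of_mem hk))
      (hSd a (Finset.mem_insert_self _ _)) ?_
    intro w w' h hw
    simp only [Set.mem_iInter] at hw ⊢
    exact fun k hk => hSd k (Finset.mem_insert_of_mem hk) w w' h (hw k hk)

end Pool.Agent.Helper3.CD
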