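import Mathlib
import Pool.Agent.Helper3.CD.Base

/-!
# CD frame B, piece B3: independence of disjoint families of cells

PROOF. `f` with `DepOnF A f` satisfies `f w = f (glue A w w₀)` for a fixed configuration `w₀` (the
cells outside `A` are replaced by those of `w₀`), so `f` is a measurable function of the restriction
`w|A : A → Cell E` (`f' v = f (extension of v by w₀)`, measurable by `measurable_pi_iff`). The
restrictions to the disjoint sets `A`, `B` are independent under the product measure: apply
`Measure.map_infinitePi_infinitePi_of_inj` and `Measure.infinitePi_map_piCurry` or, directly,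
`measurePreserving`: the law of `(w|A, w|B)` is the product of the laws (both sides are equal on
boxes: `Measure.pi_eq`-like argument with the pi-system of measurable boxes over finite subsets,
`infinitePi_pi`), or use `iIndepFun_infinitePi` and `iIndepFun.indepFun_...`.
Then `lintegral_map` and `lintegral_prod_mul`. The finite product by induction on the Finset
(`⋃` of the first sets is disjoint from the new one), events by indicators.
-/

set_option autoImplicit false

open MeasureTheory ProbabilityTheory
open scoped NNReal ENNReal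

namespace Pool.Agent.Helper3.CD

variable {ι E : Type*} [MeasurableSpace E] (r : ι → ℝ≥0) (ν : ι → Measure E)
  [∀ i, IsProbabilityMeasure (ν i)]

/-- the sigma algebra of the cells in `A` -/
private abbrev Indep_sig (E : Type*) [MeasurableSpace E] (A : Set ι) :
    MeasurableSpace (Cfg ι E) :=
  ⨆ i ∈ A, MeasurableSpace.comap (fun w : Cfg ι E => w i) inferInstance

private theorem Indep_sig_le (A : Set ι) :
    Indep_sig E A ≤ (inferInstance : MeasurableSpace (Cfg ι E)) := by
  refine iSup_le fun i => iSup_le fun _ => ?_
  exact (measurable_pi_apply i).comap_le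

private theorem Indep_main (A B : Set ι) (hAB : Disjoint A B) :
    Indep (Indep_sig E A) (Indep_sig E B) (soup r ν) := by
  have h1 : iIndepFun (fun (i : ι) (w : Cfg ι E) => w i) (soup r ν) :=
    iIndepFun_infinitePi (P := fun i => cellLaw (r i) (ν i)) (X := fun _ x => x)
      (fun _ => measurable_id)
  exact indep_iSup_of_disjoint (fun i => (measurable_pi_apply i).comap_le) h1.iIndep hAB

/-- the cells outside `A` are replaced by those of `w₀` -/
private noncomputable def Indep_glue (A : Set ι) (w₀ w : Cfg ι E) : Cfg ι E := by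
  classical exact fun i => if i ∈ A then w i else w₀ i

private theorem Indep_glue_meas (A : Set ι) (w₀ : Cfg ι E) :
    Measurable[Indep_sig E A] (Indep_glue A w₀) := by
  classical
  refine @measurable_pi_lambda _ _ _ (Indep_sig E A) _ _ fun i => ?_
  by_cases hi : i ∈ A
  · have h1 : (fun w : Cfg ι E => Indep_glue A w₀ w i) = fun w => w i := by
      funext w
      unfold Indep_glue
      rw [if_pos hi]
    rw [h1]
    have h2 : MeasurableSpace.comap (fun w : Cfg ι E => w i) inferInstance ≤
        Indep_sig E A := le_iSup₂_of_le i hi le_rfl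
    exact (comap_measurable (fun w : Cfg ι E => w i)).mono h2 le_rfl
  · have h1 : (fun w : Cfg ι E => Indep_glue A w₀ w i) = fun _ => w₀ i := by
      funext w
      unfold Indep_glue
      rw [if_neg hi]
    rw [h1]
    exact @measurable_const _ _ _ (Indep_sig E A) _

private theorem Indep_glue_eq (A : Set ι) (w₀ w : Cfg ι E) :
    ∀ i ∈ A, Indep_glue A w₀ w i = w i := by
  classical
  intro i hi
  unfold Indep_glue
  rw [if_pos hi]

include r ν in
private theorem Indep_nonempty : Nonempty (Cfg ι E) := by
  by_contra h
  rw [not_nonempty_iff] at h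
  have h1 : soup r ν Set.univ = 1 := measure_univ
  have h2 : (Set.univ : Set (Cfg ι E)) = ∅ := Set.eq_empty_of_isEmpty _
  rw [h2, measure_empty] at h1
  exact zero_ne_one h1

include r ν in
private theorem Indep_meas {α : Type*} [MeasurableSpace α] (A : Set ι) (f : Cfg ι E → α)
    (hf : Measurable f) (hfA : DepOnF A f) : Measurable[Indep_sig E A] f := by
  obtain ⟨w₀⟩ := Indep_nonempty r ν
  have h1 : f = f ∘ Indep_glue A w₀ := by
    funext w
    exact hfA w (Indep_glue A w₀ w) fun i hi => (Indep_glue_eq A w₀ w i hi).symm
  rw [h1]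
  exact hf.comp (Indep_glue_meas A w₀)

theorem lintegral_mul_dep (A B : Set ι) (hAB : Disjoint A B) (f g : Cfg ι E → ℝ≥0∞)
    (hf : Measurable f) (hg : Measurable g) (hfA : DepOnF A f) (hgB : DepOnF B g) :
    ∫⁻ w, f w * g w ∂(soup r ν) = (∫⁻ w, f w ∂(soup r ν)) * ∫⁻ w, g w ∂(soup r ν) :=
  lintegral_mul_eq_lintegral_mul_lintegral_of_independent_measurableSpace (Indep_sig_le A)
    (Indep_sig_le B) (Indep_main r ν A B hAB) (Indep_meas r ν A f hf hfA)
    (Indep_meas r ν B g hg hgB)

theorem lintegral_prod_dep {κ : Type*} (s : Finset κ) (A : κ → Set ι)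
    (hA : Set.PairwiseDisjoint (s : Set κ) A) (f : κ → Cfg ι E → ℝ≥0∞)
    (hf : ∀ k ∈ s, Measurable (f k)) (hfA : ∀ k ∈ s, DepOnF (A k) (f k)) :
    ∫⁻ w, ∏ k ∈ s, f k w ∂(soup r ν) = ∏ k ∈ s, ∫⁻ w, f k w ∂(soup r ν) := by
  classical
  induction s using Finset.induction_on with
  | empty => simp
  | insert a s ha ih =>
    have h1 : ∀ w : Cfg ι E, ∏ k ∈ insert a s, f k w = f a w * ∏ k ∈ s, f k w :=
      fun w => Finset.prod_insert ha
    simp only [h1]
    rw [Finset.prod_insert ha, ← ih (hA.subset (by
        rw [Finset.coe_insert]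
        exact Set.subset_insert _ _)) (fun k hk => hf k (Finset.mem_insert_of_mem hk))
      (fun k hk => hfA k (Finset.mem_insert_of_mem hk))]
    apply lintegral_mul_dep r ν (A a) (⋃ k ∈ s, A k)
    · rw [Set.disjoint_iUnion₂_right]
      intro k hk
      have hne : a ≠ k := by
        rintro rfl
        exact ha hk
      exact hA (Finset.mem_coe.2 (Finset.mem_insert_self a s))
        (Finset.mem_coe.2 (Finset.mem_insert_of_mem hk)) hne
    · exact hf a (Finset.mem_insert_self a s)
    · exact Finset.measurable_fun_prod s fun k hk => hf k (Finset.mem_insert_of_mem hk)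
    · exact hfA a (Finset.mem_insert_self a s)
    · intro w w' h
      refine Finset.prod_congr rfl fun k hk => ?_
      exact hfA k (Finset.mem_insert_of_mem hk) w w' fun i hi =>
        h i (Set.mem_iUnion₂.2 ⟨k, hk, hi⟩)

include r ν in
private theorem Indep_meas_set (A : Set ι) (S : Set (Cfg ι E)) (hS : MeasurableSet S)
    (hSA : DepOn A S) : MeasurableSet[Indep_sig E A] S := by
  obtain ⟨w₀⟩ := Indep_nonempty r ν
  have h1 : S = Indep_glue A w₀ ⁻¹' S := by
    ext w
    exact hSA w (Indep_glue A w₀ w) fun i hi => (Indep_glue_eq A w₀ w i hi).symm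
  rw [h1]
  exact Indep_glue_meas A w₀ hS

theorem indep_sets (A B : Set ι) (hAB : Disjoint A B) (S T : Set (Cfg ι E))
    (hS : MeasurableSet S) (hT : MeasurableSet T) (hSA : DepOn A S) (hTB : DepOn B T) :
    soup r ν (S ∩ T) = soup r ν S * soup r ν T :=
  (Indep_iff _ _ _).1 (Indep_main r ν A B hAB) S T (Indep_meas_set r ν A S hS hSA)
    (Indep_meas_set r ν B T hT hTB)

theorem indep_finset {κ : Type*} (s : Finset κ) (A : κ → Set ι)
    (hA : Set.PairwiseDisjoint (s : Set κ) A) (S : κ → Set (Cfg ι E))
    (hS : ∀ k ∈ s, MeasurableSet (S k)) (hSA : ∀ k ∈ s, DepOn (A k) (S k)) :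
    soup r ν (⋂ k ∈ s, S k) = ∏ k ∈ s, soup r ν (S k) := by
  classical
  induction s using Finset.induction_on with
  | empty => simp
  | insert a s ha ih =>
    rw [Finset.prod_insert ha, ← ih (hA.subset (by
        rw [Finset.coe_insert]
        exact Set.subset_insert _ _)) (fun k hk => hS k (Finset.mem_insert_of_mem hk))
      (fun k hk => hSA k (Finset.mem_insert_of_mem hk))]
    have h1 : (⋂ k ∈ insert a s, S k) = S a ∩ ⋂ k ∈ s, S k := by
      rw [Finset.set_biInter_insert]
    rw [h1]
    apply indep_sets r ν (A a) (⋃ k ∈ s, A k)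
    · rw [Set.disjoint_iUnion₂_right]
      intro k hk
      have hne : a ≠ k := by
        rintro rfl
        exact ha hk
      exact hA (Finset.mem_coe.2 (Finset.mem_insert_self a s))
        (Finset.mem_coe.2 (Finset.mem_insert_of_mem hk)) hne
    · exact hS a (Finset.mem_insert_self a s)
    · exact Finset.measurableSet_biInter s fun k hk => hS k (Finset.mem_insert_of_mem hk)
    · exact hSA a (Finset.mem_insert_self a s)
    · intro w w' h
      simp only [Set.mem_iInter]
      refine forall_congr' fun k => forall_congr' fun hk => ?_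
      exact hSA k (Finset.mem_insert_of_mem hk) w w' fun i hi =>
        h i (Set.mem_iUnion₂.2 ⟨k, hk, hi⟩)

end Pool.Agent.Helper3.CD
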