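import Mathlib
import Pool.Agent.Helper3.CD.Base
import Pool.Agent.Helper3.CD.Shift
import Pool.Agent.Helper3.CD.Meas

/-!
# CD frame B: invariance of the events `Ev A R` under an injection of the cells
-/

set_option autoImplicit false

open MeasureTheory ProbabilityTheory
open scoped NNReal ENNReal

namespace Pool.Agent.Helper3.CD

variable {ι E : Type*}

/-- the pull back of an event `Ev (θ '' A) R'` under `w ↦ w ∘ θ` -/
theorem Ev_image_eq (θ : ι → ι) (A : Set ι) (R R' : List (ι × E) → Prop)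
    (h : ∀ l : List (ι × E), (∀ p ∈ l, p.1 ∈ A) →
      (R' (l.map fun p => (θ p.1, p.2)) ↔ R l)) :
    Ev (θ '' A) R' = {w : Cfg ι E | (fun i => w (θ i)) ∈ Ev A R} := by
  ext w
  simp only [Ev, Set.mem_ofPred_eq]
  constructor
  · intro hw l hl hR
    refine hw (l.map fun p => (θ p.1, p.2)) ?_ ((h l fun p hp => (hl p hp).2).2 hR)
    intro p hp
    obtain ⟨q, hq, rfl⟩ := List.mem_map.1 hp
    exact ⟨(hl q hq).1, Set.mem_image_of_mem θ (hl q hq).2⟩
  · intro hw l hl hR
    have h1 : ∀ p ∈ l, ∃ i ∈ A, θ i = p.1 := fun p hp => (hl p hp).2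
    have h2 : ∃ l' : List (ι × E), (∀ p ∈ l', p.1 ∈ A) ∧
        (l'.map fun p => (θ p.1, p.2)) = l := by
      clear hR hl
      induction l with
      | nil => exact ⟨[], by simp, rfl⟩
      | cons a l ih =>
        obtain ⟨l', hl', e⟩ := ih (fun p hp => h1 p (List.mem_cons_of_mem _ hp))
        obtain ⟨i, hi, e'⟩ := h1 a (List.mem_cons_self ..)
        refine ⟨(i, a.2) :: l', ?_, ?_⟩
        · intro p hp
          rcases List.mem_cons.1 hp with rfl | hp
          · exact hi
          · exact hl' p hp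
        · rw [List.map_cons, e, e']
    obtain ⟨l', hl', rfl⟩ := h2
    refine hw l' ?_ ((h l' hl').1 hR)
    intro p hp
    exact ⟨(hl _ (List.mem_map_of_mem hp)).1, hl' p hp⟩

variable [MeasurableSpace E]

/-- the image of a cell family under an injection which keeps the rates and the laws of the marks -/
theorem soup_Ev_image [Countable ι] (r : ι → ℝ≥0) (ν : ι → Measure E)
    [∀ i, IsProbabilityMeasure (ν i)] (θ : ι → ι) (hθ : Function.Injective θ)
    (hr : ∀ i, r (θ i) = r i) (hν : ∀ i, ν (θ i) = ν i) (A : Set ι)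
    (R R' : List (ι × E) → Prop) (hR : MeasR R)
    (h : ∀ l : List (ι × E), (∀ p ∈ l, p.1 ∈ A) →
      (R' (l.map fun p => (θ p.1, p.2)) ↔ R l)) :
    soup r ν (Ev (θ '' A) R') = soup r ν (Ev A R) := by
  rw [Ev_image_eq θ A R R' h]
  exact soup_comp r ν θ hθ hr hν _ (measurableSet_Ev A R hR)

/-- the same with constant rates and laws; `B` is the set of cells used by `R'` -/
theorem law_Ev_image [Countable ι] (r : ℝ≥0) (ν : Measure E) [IsProbabilityMeasure ν]
    (θ : ι → ι) (hθ : Function.Injective θ) (A B : Set ι) (hB : θ '' A = B)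
    (R R' : List (ι × E) → Prop) (hR : MeasR R)
    (h : ∀ l : List (ι × E), (∀ p ∈ l, p.1 ∈ A) →
      (R' (l.map fun p => (θ p.1, p.2)) ↔ R l)) :
    soup (fun _ => r) (fun _ => ν) (Ev B R') = soup (fun _ => r) (fun _ => ν) (Ev A R) := by
  subst hB
  exact soup_Ev_image (fun _ => r) (fun _ => ν) θ hθ (fun _ => rfl) (fun _ => rfl) A R R' hR h

/-- if `R` only holds for lists in `B`, one may restrict the cells -/
theorem Ev_univ_eq (B : Set ι) (R : List (ι × E) → Prop)
    (h : ∀ l : List (ι × E), R l → ∀ p ∈ l, p.1 ∈ B) (A : Set ι) (hBA : B ⊆ A) :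
    Ev A R = Ev B R := by
  ext w
  simp only [Ev, Set.mem_ofPred_eq]
  exact ⟨fun hw l hl hR => hw l (fun p hp => ⟨(hl p hp).1, hBA (hl p hp).2⟩) hR,
    fun hw l hl hR => hw l (fun p hp => ⟨(hl p hp).1, h l hR p hp⟩) hR⟩

end Pool.Agent.Helper3.CD
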