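import Mathlib
import Pool.Agent.Helper3.CD.Base
import Pool.Agent.Helper3.CD.Meas

/-!
# CD frame B, piece B5: first moments

PROOF. The set is contained in the union over the cells `i` of `{w | ∃ j < (w i).1, (w i).2 j ∈ T i}`,
which has measure `cellLaw (r i) (ν i) {c | ∃ j < c.1, c.2 j ∈ T i}` (the `i`-th coordinate has law
`cellLaw`, `Measure.infinitePi_map_eval`), at most the sum over `j` of
`P(N > j) * ν i (T i)` (independence of the number and the marks, `Measure.prod_apply` or
`Measure.prod_prod`; the `j`-th mark has law `ν i`), and `∑' j, P(N > j) = r i`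
(the mean of the Poisson law: `∑' j, P(N > j) = ∑' n, n * P(N = n)`, `P(N = n) = exp (-r) r^n / n!`).
`prob_count_eq` is the exact first moment in one cell, `prob_none_eq` the probability of no point
in `T` in the whole configuration (`exp (- ∑ r ν(T))`, only for finitely many cells).
-/

set_option autoImplicit false

open MeasureTheory ProbabilityTheory
open scoped NNReal ENNReal

namespace Pool.Agent.Helper3.CD

variable {ι E : Type*} [MeasurableSpace E]

/-- the mean of the Poisson law -/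
private theorem First_mean (r : ℝ≥0) : ∑' j : ℕ, poissonMeasure r {n | j < n} = (r : ℝ≥0∞) := by
  classical
  have h1 : ∀ j : ℕ, poissonMeasure r {n | j < n} =
      ∑' n : ℕ, if j < n then poissonMeasure r {n} else 0 := by
    intro j
    rw [← Measure.tsum_indicator_apply_singleton (poissonMeasure r) {n | j < n}
      MeasurableSet.of_discrete]
    refine tsum_congr fun n => ?_
    rw [Set.indicator_apply]
    rfl
  have h2 : ∀ n : ℕ, (∑' j : ℕ, if j < n then poissonMeasure r {n} else 0) =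
      (n : ℝ≥0∞) * poissonMeasure r {n} := by
    intro n
    rw [tsum_eq_sum (s := Finset.range n) (fun j hj => by
      rw [if_neg]
      rwa [Finset.mem_range] at hj)]
    rw [Finset.sum_congr rfl (fun j hj => if_pos (Finset.mem_range.1 hj)), Finset.sum_const,
      Finset.card_range, nsmul_eq_mul]
  have h3 : ∀ n : ℕ, ((n + 1 : ℕ) : ℝ≥0∞) * poissonMeasure r {n + 1} =
      (r : ℝ≥0∞) * poissonMeasure r {n} := by
    intro n
    rw [poissonMeasure_singleton, poissonMeasure_singleton, ← ENNReal.ofReal_natCast,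
      ← ENNReal.ofReal_mul (Nat.cast_nonneg _), ← ENNReal.ofReal_coe_nnreal,
      ← ENNReal.ofReal_mul (NNReal.coe_nonneg r)]
    congr 1
    rw [Nat.factorial_succ]
    push_cast
    have h4 : ((n : ℝ) + 1) ≠ 0 := by positivity
    have h5 : ((n.factorial : ℕ) : ℝ) ≠ 0 := by exact_mod_cast n.factorial_ne_zero
    field_simp
    ring
  have h6 : ∑' n : ℕ, poissonMeasure r {n} = 1 := by
    have h7 := Measure.tsum_indicator_apply_singleton (poissonMeasure r) Set.univ
      MeasurableSet.univ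
    rw [Set.indicator_univ, measure_univ] at h7
    exact h7
  rw [tsum_congr h1, ENNReal.tsum_comm, tsum_congr h2,
    tsum_eq_zero_add' ENNReal.summable, Nat.cast_zero, zero_mul, zero_add, tsum_congr h3,
    ENNReal.tsum_mul_left, h6, mul_one]

private theorem First_eval {κ : Type*} {X : κ → Type*} [∀ i, MeasurableSpace (X i)]
    (μ : ∀ i, Measure (X i)) [∀ i, IsProbabilityMeasure (μ i)] (i : κ) (S : Set (X i))
    (hS : MeasurableSet S) : Measure.infinitePi μ {x | x i ∈ S} = μ i S := by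
  have h1 := Measure.infinitePi_map_eval μ i
  rw [← h1, Measure.map_apply (measurable_pi_apply i) hS]
  rfl

theorem cell_exists_le (r : ℝ≥0) (ν : Measure E) [IsProbabilityMeasure ν] (T : Set E)
    (hT : MeasurableSet T) :
    cellLaw r ν {c | ∃ e ∈ pts c, e ∈ T} ≤ (r : ℝ≥0∞) * ν T := by
  have h1 : {c : Cell E | ∃ e ∈ pts c, e ∈ T} ⊆
      ⋃ j : ℕ, ({n : ℕ | j < n} ×ˢ {x : ℕ → E | x j ∈ T}) := by
    rintro c ⟨e, ⟨j, hj, rfl⟩, he⟩
    exact Set.mem_iUnion.2 ⟨j, hj, he⟩
  refine (measure_mono h1).trans ((measure_iUnion_le _).trans ?_)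
  have h2 : ∀ j : ℕ, cellLaw r ν ({n : ℕ | j < n} ×ˢ {x : ℕ → E | x j ∈ T}) =
      poissonMeasure r {n | j < n} * ν T := by
    intro j
    rw [cellLaw, Measure.prod_prod, First_eval (fun _ : ℕ => ν) j T hT]
  rw [tsum_congr h2, ENNReal.tsum_mul_right, First_mean]

theorem prob_exists_le [Countable ι] (r : ι → ℝ≥0) (ν : ι → Measure E)
    [∀ i, IsProbabilityMeasure (ν i)] (T : ι → Set E) (hT : ∀ i, MeasurableSet (T i)) :
    soup r ν {w | ∃ p ∈ Sp w, p.2 ∈ T p.1} ≤ ∑' i, (r i : ℝ≥0∞) * ν i (T i) := by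
  have h1 : {w : Cfg ι E | ∃ p ∈ Sp w, p.2 ∈ T p.1} ⊆
      ⋃ i, {w : Cfg ι E | w i ∈ {c : Cell E | ∃ e ∈ pts c, e ∈ T i}} := by
    rintro w ⟨p, hp, hpT⟩
    exact Set.mem_iUnion.2 ⟨p.1, p.2, hp, hpT⟩
  refine (measure_mono h1).trans ((measure_iUnion_le _).trans ?_)
  refine ENNReal.tsum_le_tsum fun i => ?_
  have hm : MeasurableSet {c : Cell E | ∃ e ∈ pts c, e ∈ T i} := by
    have h2 : {c : Cell E | ∃ e ∈ pts c, e ∈ T i} =
        ⋃ j : ℕ, ({n : ℕ | j < n} ×ˢ {x : ℕ → E | x j ∈ T i}) := by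
      ext c
      simp only [Set.mem_ofPred_eq, Set.mem_iUnion, Set.mem_prod, pts]
      constructor
      · rintro ⟨e, ⟨j, hj, rfl⟩, he⟩
        exact ⟨j, hj, he⟩
      · rintro ⟨j, hj, he⟩
        exact ⟨_, ⟨j, hj, rfl⟩, he⟩
    rw [h2]
    exact MeasurableSet.iUnion fun j => MeasurableSet.of_discrete.prod
      ((measurable_pi_apply j) (hT i))
  rw [soup, First_eval (fun i => cellLaw (r i) (ν i)) i _ hm]
  exact cell_exists_le (r i) (ν i) (T i) (hT i)

end Pool.Agent.Helper3.CD
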