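import Mathlib
import Pool.Agent.Helper3.CD.Base
import Pool.Agent.Helper3.CD.Meas
import Pool.Agent.Helper3.CD.Indep
import Pool.Agent.Helper3.CD.First

/-!
# CD frame B, piece B6: two different points

PROOF. In one cell: the event of two present marks with different indices `j < j'` in `T` has
probability at most `∑_{j < j'} P(N > j') ν(T)^2 = E[N (N - 1) / 2] ν(T)^2 = r^2 / 2 ν(T)^2`
(`cell_two_le`; two different points of the same cell have different indices). Let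
`a i = r i * ν i (T i)`. The event is contained in the union over `i` of the events of one cell and
over the pairs `i ≠ i'` (unordered, or ordered: then the bound is still `∑_{i ≠ i'} a i a i' +
∑ a i ^ 2`) of `{one point in T in cell i} ∩ {one point in T in cell i'}`, which has
probability `≤ a i * a i'` (`indep_sets` with `A = {i}`, `B = {i'}`, and `cell_exists_le`). The sum
over all pairs `(i, i')` of `a i * a i'` is `(∑' i, a i)^2`.
-/

set_option autoImplicit false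

open MeasureTheory ProbabilityTheory
open scoped NNReal ENNReal

namespace Pool.Agent.Helper3.CD

variable {ι E : Type*} [MeasurableSpace E]

private theorem S2_pois (r : ℝ≥0) :
    ∑' n : ℕ, ((n * (n - 1) : ℕ) : ℝ≥0∞) * poissonMeasure r {n} = (r : ℝ≥0∞) ^ 2 := by
  have h0 : ∀ m : ℕ, (((m + 2) * (m + 2 - 1) : ℕ) : ℝ≥0∞) * poissonMeasure r {m + 2} =
      (r : ℝ≥0∞) ^ 2 * poissonMeasure r {m} := by
    intro m
    rw [poissonMeasure_singleton, poissonMeasure_singleton]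
    have h1 : (((m + 2) * (m + 2 - 1) : ℕ) : ℝ≥0∞) =
        ENNReal.ofReal (((m : ℝ) + 2) * ((m : ℝ) + 1)) := by
      have h2 : ((m : ℝ) + 2) * ((m : ℝ) + 1) = (((m + 2) * (m + 2 - 1) : ℕ) : ℝ) := by
        have h3 : m + 2 - 1 = m + 1 := rfl
        rw [h3]
        push_cast
        ring
      rw [h2, ENNReal.ofReal_natCast]
    have h4 : ((r : ℝ≥0∞)) = ENNReal.ofReal (r : ℝ) := by
      rw [ENNReal.ofReal_coe_nnreal]
    rw [h1, h4, ← ENNReal.ofReal_pow (by positivity), ← ENNReal.ofReal_mul (by positivity),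
      ← ENNReal.ofReal_mul (by positivity)]
    congr 1
    have h5 : ((m + 2).factorial : ℝ) = ((m : ℝ) + 2) * (((m : ℝ) + 1) * (m.factorial : ℝ)) := by
      rw [Nat.factorial_succ, Nat.factorial_succ]
      push_cast
      ring
    rw [h5]
    have h6 : (m.factorial : ℝ) ≠ 0 := by positivity
    have h7 : (m : ℝ) + 2 ≠ 0 := by positivity
    have h8 : (m : ℝ) + 1 ≠ 0 := by positivity
    field_simp
    ring
  have h9 : ∑' n : ℕ, poissonMeasure r {n} = 1 := by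
    have h10 : ∑' n : ℕ, poissonMeasure r {n} = ∫⁻ _ : ℕ, 1 ∂(poissonMeasure r) := by
      rw [lintegral_countable']
      exact tsum_congr fun n => (one_mul _).symm
    rw [h10, lintegral_one, measure_univ]
  rw [tsum_eq_zero_add' ENNReal.summable, tsum_eq_zero_add' ENNReal.summable]
  have h11 : ∑' n : ℕ, (((n + 1 + 1) * (n + 1 + 1 - 1) : ℕ) : ℝ≥0∞) *
      poissonMeasure r {n + 1 + 1} = (r : ℝ≥0∞) ^ 2 := by
    rw [tsum_congr h0, ENNReal.tsum_mul_left, h9, mul_one]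
  rw [h11]
  simp

private theorem S2_tail (r : ℝ≥0) :
    ∑' j : ℕ, ((j : ℕ) : ℝ≥0∞) * poissonMeasure r (Set.Ioi j) ≤ (r : ℝ≥0∞) ^ 2 := by
  have h1 : ∀ j : ℕ, ((j : ℕ) : ℝ≥0∞) * poissonMeasure r (Set.Ioi j) =
      ∑' n : ℕ, (if j < n then (j : ℝ≥0∞) else 0) * poissonMeasure r {n} := by
    intro j
    rw [← lintegral_countable', ← setLIntegral_const, ← lintegral_indicator measurableSet_Ioi]
    refine lintegral_congr fun n => ?_
    by_cases h : j < n
    · rw [Set.indicator_of_mem (Set.mem_Ioi.2 h), if_pos h]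
    · rw [Set.indicator_of_notMem (fun h' => h (Set.mem_Ioi.1 h')), if_neg h]
  rw [tsum_congr h1, ENNReal.tsum_comm, ← S2_pois r]
  refine ENNReal.tsum_le_tsum fun n => ?_
  rw [ENNReal.tsum_mul_right]
  refine mul_le_mul_left ?_ _
  have h2 : ∑' j : ℕ, (if j < n then (j : ℝ≥0∞) else 0) =
      ∑ j ∈ Finset.range n, (j : ℝ≥0∞) := by
    rw [tsum_eq_sum (s := Finset.range n)]
    · exact Finset.sum_congr rfl fun j hj => if_pos (Finset.mem_range.1 hj)
    · intro j hj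
      exact if_neg fun h => hj (Finset.mem_range.2 h)
  rw [h2]
  calc ∑ j ∈ Finset.range n, (j : ℝ≥0∞) ≤ ∑ j ∈ Finset.range n, ((n - 1 : ℕ) : ℝ≥0∞) := by
        refine Finset.sum_le_sum fun j hj => ?_
        have := Finset.mem_range.1 hj
        exact_mod_cast (by omega : j ≤ n - 1)
    _ = ((n * (n - 1) : ℕ) : ℝ≥0∞) := by
        rw [Finset.sum_const, Finset.card_range, nsmul_eq_mul]
        push_cast
        rfl

theorem cell_two_le (r : ℝ≥0) (ν : Measure E) [IsProbabilityMeasure ν] (T : Set E)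
    (hT : MeasurableSet T) :
    cellLaw r ν {c | ∃ j j' : ℕ, j < j' ∧ j' < c.1 ∧ c.2 j ∈ T ∧ c.2 j' ∈ T} ≤
      ((r : ℝ≥0∞) * ν T) ^ 2 := by
  have h1 : {c : Cell E | ∃ j j' : ℕ, j < j' ∧ j' < c.1 ∧ c.2 j ∈ T ∧ c.2 j' ∈ T} ⊆
      ⋃ j' : ℕ, ⋃ j ∈ Finset.range j', (Set.Ioi j' : Set ℕ) ×ˢ
        (Set.pi (({j, j'} : Finset ℕ) : Set ℕ) fun _ => T) := by
    rintro c ⟨j, j', hj, hj', h, h'⟩
    refine Set.mem_iUnion.2 ⟨j', Set.mem_iUnion₂.2 ⟨j, Finset.mem_range.2 hj, hj', ?_⟩⟩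
    intro i hi
    rw [Finset.mem_coe, Finset.mem_insert, Finset.mem_singleton] at hi
    rcases hi with rfl | rfl
    · exact h
    · exact h'
  have h2 : ∀ j' : ℕ, cellLaw r ν (⋃ j ∈ Finset.range j', (Set.Ioi j' : Set ℕ) ×ˢ
        (Set.pi (({j, j'} : Finset ℕ) : Set ℕ) fun _ => T)) ≤
      ((j' : ℝ≥0∞) * poissonMeasure r (Set.Ioi j')) * ν T ^ 2 := by
    intro j'
    refine (measure_biUnion_finset_le _ _).trans ?_
    have h3 : ∀ j ∈ Finset.range j', cellLaw r ν ((Set.Ioi j' : Set ℕ) ×ˢ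
        (Set.pi (({j, j'} : Finset ℕ) : Set ℕ) fun _ => T)) =
        poissonMeasure r (Set.Ioi j') * ν T ^ 2 := by
      intro j hj
      have hne : j ≠ j' := (Finset.mem_range.1 hj).ne
      rw [cellLaw, Measure.prod_prod, Measure.infinitePi_pi _ (fun _ _ => hT),
        Finset.prod_pair hne, sq]
    rw [Finset.sum_congr rfl h3, Finset.sum_const, Finset.card_range, nsmul_eq_mul, mul_assoc]
  calc cellLaw r ν {c | ∃ j j' : ℕ, j < j' ∧ j' < c.1 ∧ c.2 j ∈ T ∧ c.2 j' ∈ T}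
      ≤ ∑' j' : ℕ, ((j' : ℝ≥0∞) * poissonMeasure r (Set.Ioi j')) * ν T ^ 2 :=
        (measure_mono h1).trans ((measure_iUnion_le _).trans (ENNReal.tsum_le_tsum h2))
    _ = (∑' j' : ℕ, (j' : ℝ≥0∞) * poissonMeasure r (Set.Ioi j')) * ν T ^ 2 :=
        ENNReal.tsum_mul_right
    _ ≤ (r : ℝ≥0∞) ^ 2 * ν T ^ 2 := mul_le_mul_left (S2_tail r) _
    _ = ((r : ℝ≥0∞) * ν T) ^ 2 := (mul_pow _ _ _).symm

private theorem S2_meas (T : Set E) (hT : MeasurableSet T) :
    MeasurableSet {c : Cell E | ∃ e ∈ pts c, e ∈ T} := by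
  have h1 : {c : Cell E | ∃ e ∈ pts c, e ∈ T} =
      ⋃ j : ℕ, ({c : Cell E | j < c.1} ∩ {c : Cell E | c.2 j ∈ T}) := by
    ext c
    simp only [Set.mem_ofPred_eq, Set.mem_iUnion, Set.mem_inter_iff, pts]
    constructor
    · rintro ⟨e, ⟨j, hj, rfl⟩, he⟩
      exact ⟨j, hj, he⟩
    · rintro ⟨j, hj, he⟩
      exact ⟨_, ⟨j, hj, rfl⟩, he⟩
  rw [h1]
  refine MeasurableSet.iUnion fun j => MeasurableSet.inter ?_ ?_
  · exact measurable_fst (measurableSet_Ioi (a := j))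
  · exact ((measurable_pi_apply j).comp measurable_snd) hT

theorem prob_two_le [Countable ι] (r : ι → ℝ≥0) (ν : ι → Measure E)
    [∀ i, IsProbabilityMeasure (ν i)] (T : ι → Set E) (hT : ∀ i, MeasurableSet (T i)) :
    soup r ν {w | ∃ p ∈ Sp w, ∃ q ∈ Sp w, p ≠ q ∧ p.2 ∈ T p.1 ∧ q.2 ∈ T q.1} ≤
      (∑' i, (r i : ℝ≥0∞) * ν i (T i)) ^ 2 := by
  classical
  set Q : ι → Set (Cell E) := fun i =>
    {c | ∃ j j' : ℕ, j < j' ∧ j' < c.1 ∧ c.2 j ∈ T i ∧ c.2 j' ∈ T i} with hQ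
  set S : ι → Set (Cfg ι E) := fun i =>
    (fun w : Cfg ι E => w i) ⁻¹' {c : Cell E | ∃ e ∈ pts c, e ∈ T i} with hS
  set B : ι → ι → Set (Cfg ι E) := fun i i' =>
    if i = i' then (fun w : Cfg ι E => w i) ⁻¹' (Q i) else S i ∩ S i' with hB
  have hmap : ∀ i, ∀ V : Set (Cell E), soup r ν ((fun w : Cfg ι E => w i) ⁻¹' V) ≤
      cellLaw (r i) (ν i) V := by
    intro i V
    have h1 : (soup r ν).map (fun w : Cfg ι E => w i) = cellLaw (r i) (ν i) :=
      Measure.infinitePi_map_eval (fun i => cellLaw (r i) (ν i)) i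
    rw [← h1]
    exact Measure.le_map_apply
      (f := fun w : Cfg ι E => w i) (measurable_pi_apply i).aemeasurable V
  have hSm : ∀ i, MeasurableSet (S i) := fun i => (measurable_pi_apply i) (S2_meas (T i) (hT i))
  have hSD : ∀ i, DepOn {i} (S i) := by
    intro i w w' h
    have h1 : w i = w' i := h i rfl
    simp only [hS, Set.mem_preimage, h1]
  have hSle : ∀ i, soup r ν (S i) ≤ (r i : ℝ≥0∞) * ν i (T i) := fun i =>
    (hmap i _).trans (cell_exists_le (r i) (ν i) (T i) (hT i))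
  have hBle : ∀ i i', soup r ν (B i i') ≤
      ((r i : ℝ≥0∞) * ν i (T i)) * ((r i' : ℝ≥0∞) * ν i' (T i')) := by
    intro i i'
    simp only [hB]
    by_cases h : i = i'
    · subst h
      rw [if_pos rfl, ← sq]
      exact (hmap i _).trans (cell_two_le (r i) (ν i) (T i) (hT i))
    · rw [if_neg h, indep_sets r ν {i} {i'} (Set.disjoint_singleton.2 h) _ _ (hSm i) (hSm i')
        (hSD i) (hSD i')]
      exact mul_le_mul' (hSle i) (hSle i')
  have hsub : {w : Cfg ι E | ∃ p ∈ Sp w, ∃ q ∈ Sp w, p ≠ q ∧ p.2 ∈ T p.1 ∧ q.2 ∈ T q.1} ⊆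
      ⋃ i, ⋃ i', B i i' := by
    rintro w ⟨⟨i, e⟩, ⟨j, hj, he⟩, ⟨i', e'⟩, ⟨j', hj', he'⟩, hne, hTe, hTe'⟩
    simp only at hj hj' he he' hTe hTe'
    refine Set.mem_iUnion.2 ⟨i, Set.mem_iUnion.2 ⟨i', ?_⟩⟩
    simp only [hB]
    by_cases h : i = i'
    · subst h
      rw [if_pos rfl]
      have hjj : j ≠ j' := by
        rintro rfl
        exact hne (by rw [← he, ← he'])
      rcases lt_or_gt_of_ne hjj with h1 | h1
      · exact ⟨j, j', h1, hj', by rw [he]; exact hTe, by rw [he']; exact hTe'⟩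
      · exact ⟨j', j, h1, hj, by rw [he']; exact hTe', by rw [he]; exact hTe⟩
    · rw [if_neg h]
      exact ⟨⟨e, ⟨j, hj, he⟩, hTe⟩, ⟨e', ⟨j', hj', he'⟩, hTe'⟩⟩
  calc soup r ν {w | ∃ p ∈ Sp w, ∃ q ∈ Sp w, p ≠ q ∧ p.2 ∈ T p.1 ∧ q.2 ∈ T q.1}
      ≤ ∑' i, ∑' i', ((r i : ℝ≥0∞) * ν i (T i)) * ((r i' : ℝ≥0∞) * ν i' (T i')) :=
        (measure_mono hsub).trans ((measure_iUnion_le _).trans
          (ENNReal.tsum_le_tsum fun i => (measure_iUnion_le _).trans
            (ENNReal.tsum_le_tsum fun i' => hBle i i')))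
    _ = (∑' i, (r i : ℝ≥0∞) * ν i (T i)) ^ 2 := by
        rw [sq, ← ENNReal.tsum_mul_right]
        exact tsum_congr fun i => ENNReal.tsum_mul_left

end Pool.Agent.Helper3.CD
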