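import Mathlib
import Pool.Agent.Helper3.CD.Base
import Pool.Agent.Helper3.CD.Indep

/-!
# CD frame B, piece B7: first order expansion

`F` is a function of the set of present points in the finitely many cells of `A`, `F ∅ = 1`,
`0 ≤ F ≤ M`. Let `R = ∑ i ∈ A, r i` and `D i = ∫ (1 - F {(i, e)}) dν i ≤ 1`.

PROOF. Split the integral according to the numbers of points `N i = (w i).1`, `i ∈ A`:
* all `N i = 0`: probability `∏ exp (- r i) = exp (- R)`, `F = 1` there;
* `N i = 1` for one `i ∈ A` and `N j = 0` for the other ones: `F = F {(i, (w i).2 0)}`, the integral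
  is `r i * exp (- R) * ∫ F {(i, e)} dν i` (`lintegral_prod_dep`, or `Measure.pi` after
  `infinitePi_map_restrict`; in cell `i` the number and the mark of index `0` are independent, the
  mark has law `ν i`);
* otherwise: probability `1 - exp (- R) (1 + R) ≤ R ^ 2`, `F ≤ M`.
So the integral is at most `exp (- R) (1 + R - ∑ r i * D i) + M (1 - exp (- R) (1 + R))
= 1 - ∑ r i * D i + (1 - exp (- R)) ∑ r i * D i + (M - 1) (1 - exp (- R) (1 + R))
≤ 1 - ∑ r i * D i + R ^ 2 + M R ^ 2` because `1 - exp (- R) ≤ R`, `∑ r i * D i ≤ R` and `1 ≤ M`.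
(Measurability of `e ↦ F {(i, e)}`: compose with the configuration which has the point `e` in cell
`i` and nothing else; this is `hF` composed with a measurable map.)
-/

set_option autoImplicit false

open MeasureTheory ProbabilityTheory
open scoped NNReal ENNReal

namespace Pool.Agent.Helper3.CD

variable {ι E : Type*} [MeasurableSpace E]

/-- the integral of a product of functions of different cells -/
private theorem Expand_prod (A : Finset ι) (r : ι → ℝ≥0) (ν : ι → Measure E)
    [∀ i, IsProbabilityMeasure (ν i)] (g : ι → Cell E → ℝ) (hg : ∀ i, Measurable (g i)) :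
    ∫ w, ∏ j ∈ A, g j (w j) ∂(soup r ν) = ∏ j ∈ A, ∫ c, g j c ∂(cellLaw (r j) (ν j)) := by
  have h1 : ∀ w : Cfg ι E, ∏ j ∈ A, g j (w j) =
      (fun y : (i : A) → Cell E => ∏ j : A, g j (y j)) (A.restrict w) := by
    intro w
    rw [← Finset.prod_coe_sort]
    rfl
  have h2 : ∫ w : Cfg ι E, (fun y : (i : A) → Cell E => ∏ j : A, g j (y j)) (A.restrict w)
      ∂(Measure.infinitePi fun i => cellLaw (r i) (ν i)) =
      ∫ y : (i : A) → Cell E, ∏ j : A, g j (y j)
        ∂(Measure.pi fun i : A => cellLaw (r i) (ν i)) := by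
    refine integral_restrict_infinitePi (μ := fun i => cellLaw (r i) (ν i)) (s := A)
      (f := fun y : (i : A) → Cell E => ∏ j : A, g j (y j)) ?_
    apply Measurable.aestronglyMeasurable
    exact Finset.measurable_fun_prod _ fun j _ => (hg j).comp (measurable_pi_apply j)
  calc ∫ w, ∏ j ∈ A, g j (w j) ∂(soup r ν)
      = ∫ w : Cfg ι E, (fun y : (i : A) → Cell E => ∏ j : A, g j (y j)) (A.restrict w)
          ∂(Measure.infinitePi fun i => cellLaw (r i) (ν i)) :=
        integral_congr_ae (ae_of_all _ h1)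
    _ = ∫ y : (i : A) → Cell E, ∏ j : A, g j (y j)
          ∂(Measure.pi fun i : A => cellLaw (r i) (ν i)) := h2
    _ = ∏ j : A, ∫ c, g j c ∂(cellLaw (r j) (ν j)) :=
        integral_fintype_prod_eq_prod (fun j : A => g j)
    _ = ∏ j ∈ A, ∫ c, g j c ∂(cellLaw (r j) (ν j)) :=
        Finset.prod_coe_sort A fun j => ∫ c, g j c ∂(cellLaw (r j) (ν j))

private theorem Expand_zero (r : ℝ≥0) (ν : Measure E) [IsProbabilityMeasure ν] :
    ∫ c : Cell E, (if c.1 = 0 then (1 : ℝ) else 0) ∂(cellLaw r ν) = Real.exp (-r) := by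
  have h1 : ∀ c : Cell E, (if c.1 = 0 then (1 : ℝ) else 0) =
      (Set.indicator {(0 : ℕ)} (fun _ => (1 : ℝ)) c.1) * (fun _ : ℕ → E => (1 : ℝ)) c.2 := by
    intro c
    by_cases h : c.1 = 0 <;> simp [Set.indicator, h]
  simp only [h1]
  unfold cellLaw
  rw [integral_prod_mul (Set.indicator {(0 : ℕ)} (fun _ => (1 : ℝ)))
    (fun _ : ℕ → E => (1 : ℝ)), integral_indicator_const _ (MeasurableSet.singleton 0),
    poissonMeasure_real_singleton]
  simp

private theorem Expand_one (r : ℝ≥0) (ν : Measure E) [IsProbabilityMeasure ν] (h : E → ℝ)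
    (hh : Measurable h) :
    ∫ c : Cell E, (if c.1 = 1 then h (c.2 0) else 0) ∂(cellLaw r ν) =
      r * Real.exp (-r) * ∫ e, h e ∂ν := by
  have h1 : ∀ c : Cell E, (if c.1 = 1 then h (c.2 0) else 0) =
      (Set.indicator {(1 : ℕ)} (fun _ => (1 : ℝ)) c.1) * (fun m : ℕ → E => h (m 0)) c.2 := by
    intro c
    by_cases h : c.1 = 1 <;> simp [Set.indicator, h]
  simp only [h1]
  unfold cellLaw
  rw [integral_prod_mul (Set.indicator {(1 : ℕ)} (fun _ => (1 : ℝ)))
    (fun m : ℕ → E => h (m 0)), integral_indicator_const _ (MeasurableSet.singleton 1),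
    poissonMeasure_real_singleton]
  have h2 : ∫ m : ℕ → E, h (m 0) ∂(Measure.infinitePi fun _ : ℕ => ν) = ∫ e, h e ∂ν := by
    have h3 := integral_map (μ := Measure.infinitePi fun _ : ℕ => ν)
      (φ := fun m : ℕ → E => m 0) (measurable_pi_apply 0).aemeasurable (f := h)
      hh.aestronglyMeasurable
    rw [← h3]
    have h4 := (Measure.infinitePi_map_eval (fun _ : ℕ => ν) 0)
    have h5 : Measure.map (fun m : ℕ → E => m 0) (Measure.infinitePi fun _ : ℕ => ν) = ν := h4
    rw [h5]
  rw [h2, smul_eq_mul, mul_one, pow_one, Nat.factorial_one, Nat.cast_one, div_one]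
  ring

/-- the factor of cell `j` in the term of cell `i` -/
private noncomputable def Expand_g (h : ι → E → ℝ) (i j : ι) (c : Cell E) : ℝ := by
  classical exact if j = i then (if c.1 = 1 then h i (c.2 0) else 0) else
    (if c.1 = 0 then (1 : ℝ) else 0)

private theorem Expand_ite_meas (n : ℕ) (f : Cell E → ℝ) (hf : Measurable f) :
    Measurable fun c : Cell E => if c.1 = n then f c else 0 := by
  refine Measurable.ite ?_ hf measurable_const
  exact measurable_fst (MeasurableSet.singleton n)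

private theorem Expand_g_meas (h : ι → E → ℝ) (hh : ∀ i, Measurable (h i)) (i j : ι) :
    Measurable (Expand_g h i j) := by
  classical
  unfold Expand_g
  by_cases hij : j = i
  · simp only [if_pos hij]
    exact Expand_ite_meas 1 _ ((hh i).comp ((measurable_pi_apply 0).comp measurable_snd))
  · simp only [if_neg hij]
    exact Expand_ite_meas 0 _ measurable_const

private theorem Expand_z_meas : Measurable fun c : Cell E => if c.1 = 0 then (1 : ℝ) else 0 :=
  Expand_ite_meas 0 _ measurable_const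

private theorem Expand_Z (A : Finset ι) (r : ι → ℝ≥0) (ν : ι → Measure E)
    [∀ i, IsProbabilityMeasure (ν i)] :
    ∫ w : Cfg ι E, ∏ j ∈ A, (if (w j).1 = 0 then (1 : ℝ) else 0) ∂(soup r ν) =
      Real.exp (-∑ i ∈ A, (r i : ℝ)) := by
  have h1 := Expand_prod A r ν (fun _ c => if c.1 = 0 then (1 : ℝ) else 0)
    fun _ => Expand_z_meas
  rw [h1]
  simp only [Expand_zero]
  rw [← Real.exp_sum, Finset.sum_neg_distrib]

private theorem Expand_O (A : Finset ι) (r : ι → ℝ≥0) (ν : ι → Measure E)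
    [∀ i, IsProbabilityMeasure (ν i)] (h : ι → E → ℝ) (hh : ∀ i, Measurable (h i)) (i : ι)
    (hi : i ∈ A) :
    ∫ w : Cfg ι E, ∏ j ∈ A, Expand_g h i j (w j) ∂(soup r ν) =
      r i * Real.exp (-∑ i ∈ A, (r i : ℝ)) * ∫ e, h i e ∂(ν i) := by
  classical
  rw [Expand_prod A r ν (Expand_g h i) (Expand_g_meas h hh i), ← Finset.mul_prod_erase A _ hi]
  have h1 : ∫ c, Expand_g h i i c ∂(cellLaw (r i) (ν i)) =
      r i * Real.exp (-r i) * ∫ e, h i e ∂(ν i) := by
    rw [← Expand_one (r i) (ν i) (h i) (hh i)]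
    refine integral_congr_ae (ae_of_all _ fun c => ?_)
    simp only [Expand_g, if_true]
  have h2 : ∏ j ∈ A.erase i, ∫ c, Expand_g h i j c ∂(cellLaw (r j) (ν j)) =
      Real.exp (-∑ j ∈ A.erase i, (r j : ℝ)) := by
    rw [← Finset.sum_neg_distrib, Real.exp_sum]
    refine Finset.prod_congr rfl fun j hj => ?_
    rw [← Expand_zero (r j) (ν j)]
    refine integral_congr_ae (ae_of_all _ fun c => ?_)
    simp only [Expand_g, if_neg (Finset.ne_of_mem_erase hj)]
  rw [h1, h2]
  have h3 : -∑ j ∈ A, (r j : ℝ) = -(r i : ℝ) + -∑ j ∈ A.erase i, (r j : ℝ) := by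
    rw [← Finset.add_sum_erase A (fun j => (r j : ℝ)) hi]
    ring
  rw [h3, Real.exp_add]
  ring

private theorem Expand_single_meas (A : Finset ι) (F : Set (ι × E) → ℝ)
    (hF : Measurable fun w : Cfg ι E => F (Sp w ∩ {p | p.1 ∈ A})) (i : ι) (hi : i ∈ A) :
    Measurable fun e : E => F {(i, e)} := by
  classical
  let φ : E → Cfg ι E := fun e j => (if j = i then 1 else 0, fun _ => e)
  have hφ : Measurable φ := by
    refine measurable_pi_lambda _ fun j => ?_
    exact measurable_const.prodMk (measurable_pi_lambda _ fun _ => measurable_id)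
  have h1 : (fun e : E => F {(i, e)}) =
      (fun w : Cfg ι E => F (Sp w ∩ {p | p.1 ∈ A})) ∘ φ := by
    funext e
    change F {(i, e)} = F (Sp (φ e) ∩ {p | p.1 ∈ A})
    congr 1
    ext ⟨j, e'⟩
    simp only [Set.mem_singleton_iff, Set.mem_inter_iff, mem_Sp, pts, Set.mem_ofPred_eq, φ,
      Prod.mk.injEq]
    by_cases hj : j = i
    · subst hj
      simp only [if_true, true_and]
      constructor
      · rintro rfl
        exact ⟨⟨0, by norm_num, rfl⟩, hi⟩
      · rintro ⟨⟨n, hn, h⟩, _⟩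
        exact h.symm
    · simp only [if_neg hj]
      constructor
      · rintro ⟨h, _⟩
        exact absurd h hj
      · rintro ⟨⟨n, hn, _⟩, _⟩
        exact absurd hn (Nat.not_lt_zero n)
  rw [h1]
  exact hF.comp hφ

/-- the pointwise bound -/
private theorem Expand_bound (A : Finset ι) (M : ℝ) (F : Set (ι × E) → ℝ)
    (hF0 : F ∅ = 1) (hFM : ∀ s, F s ≤ M) (w : Cfg ι E) :
    F (Sp w ∩ {p | p.1 ∈ A}) ≤
      M + (1 - M) * ∏ j ∈ A, (if (w j).1 = 0 then (1 : ℝ) else 0) +
        ∑ i ∈ A, ∏ j ∈ A, Expand_g (fun i e => F {(i, e)} - M) i j (w j) := by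
  classical
  have hz : ∀ i ∈ A, ¬ ((w i).1 = 1 ∧ ∀ j ∈ A, j ≠ i → (w j).1 = 0) →
      ∏ j ∈ A, Expand_g (fun i e => F {(i, e)} - M) i j (w j) = 0 := by
    intro i hi h
    by_cases h1 : (w i).1 = 1
    · have h2 : ∃ j ∈ A, j ≠ i ∧ (w j).1 ≠ 0 := by
        by_contra hcon
        push Not at hcon
        exact h ⟨h1, hcon⟩
      obtain ⟨j, hj, hji, hj0⟩ := h2
      apply Finset.prod_eq_zero hj
      simp only [Expand_g, if_neg hji, if_neg hj0]
    · apply Finset.prod_eq_zero hi
      simp only [Expand_g, if_true, if_neg h1]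
  by_cases h0 : ∀ j ∈ A, (w j).1 = 0
  · have h1 : ∏ j ∈ A, (if (w j).1 = 0 then (1 : ℝ) else 0) = 1 :=
      Finset.prod_eq_one fun j hj => by rw [if_pos (h0 j hj)]
    have h2 : ∑ i ∈ A, ∏ j ∈ A, Expand_g (fun i e => F {(i, e)} - M) i j (w j) = 0 := by
      refine Finset.sum_eq_zero fun i hi => hz i hi ?_
      rintro ⟨h3, _⟩
      rw [h0 i hi] at h3
      exact zero_ne_one h3
    have h3 : Sp w ∩ {p | p.1 ∈ A} = ∅ := by
      rw [Set.eq_empty_iff_forall_notMem]
      rintro ⟨j, e⟩ ⟨⟨n, hn, _⟩, hj⟩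
      change n < (w j).1 at hn
      rw [h0 j hj] at hn
      exact Nat.not_lt_zero n hn
    rw [h1, h2, h3, hF0]
    linarith
  · have hne : ∃ i ∈ A, (w i).1 ≠ 0 := by
      by_contra hcon
      push Not at hcon
      exact h0 hcon
    have h1 : ∏ j ∈ A, (if (w j).1 = 0 then (1 : ℝ) else 0) = 0 := by
      obtain ⟨i, hi, hi0⟩ := hne
      exact Finset.prod_eq_zero hi (by rw [if_neg hi0])
    by_cases h2 : ∃ i ∈ A, (w i).1 = 1 ∧ ∀ j ∈ A, j ≠ i → (w j).1 = 0
    · obtain ⟨i, hi, hi1, hj0⟩ := h2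
      have h3 : ∑ i ∈ A, ∏ j ∈ A, Expand_g (fun i e => F {(i, e)} - M) i j (w j) =
          F {(i, (w i).2 0)} - M := by
        rw [Finset.sum_eq_single_of_mem i hi]
        · rw [← Finset.mul_prod_erase A _ hi]
          have h4 : ∏ j ∈ A.erase i, Expand_g (fun i e => F {(i, e)} - M) i j (w j) = 1 := by
            refine Finset.prod_eq_one fun j hj => ?_
            simp only [Expand_g, if_neg (Finset.ne_of_mem_erase hj),
              if_pos (hj0 j (Finset.mem_of_mem_erase hj) (Finset.ne_of_mem_erase hj))]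
          rw [h4, mul_one]
          simp only [Expand_g, if_true, if_pos hi1]
        · intro k hk hki
          apply hz k hk
          rintro ⟨h5, _⟩
          rw [hj0 k hk hki] at h5
          exact zero_ne_one h5
      have h4 : Sp w ∩ {p | p.1 ∈ A} = {(i, (w i).2 0)} := by
        ext ⟨j, e⟩
        constructor
        · rintro ⟨⟨n, hn, he⟩, hj⟩
          change n < (w j).1 at hn
          change (w j).2 n = e at he
          change j ∈ A at hj
          by_cases hji : j = i
          · subst hji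
            rw [hi1] at hn
            have hn0 : n = 0 := by omega
            rw [Set.mem_singleton_iff, ← he, hn0]
          · rw [hj0 j hj hji] at hn
            exact absurd hn (Nat.not_lt_zero n)
        · intro h
          rw [Set.mem_singleton_iff, Prod.mk.injEq] at h
          obtain ⟨rfl, rfl⟩ := h
          exact ⟨⟨0, by change 0 < (w j).1; rw [hi1]; norm_num, rfl⟩, hi⟩
      rw [h1, h3, h4]
      linarith
    · have h3 : ∑ i ∈ A, ∏ j ∈ A, Expand_g (fun i e => F {(i, e)} - M) i j (w j) = 0 := by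
        refine Finset.sum_eq_zero fun i hi => hz i hi ?_
        intro h4
        exact h2 ⟨i, hi, h4⟩
      rw [h1, h3]
      linarith [hFM (Sp w ∩ {p | p.1 ∈ A})]

private theorem Expand_prod_int (A : Finset ι) (r : ι → ℝ≥0) (ν : ι → Measure E)
    [∀ i, IsProbabilityMeasure (ν i)] (g : ι → Cell E → ℝ) (hg : ∀ i, Measurable (g i))
    (K : ℝ) (hK : ∀ i c, |g i c| ≤ K) :
    Integrable (fun w : Cfg ι E => ∏ j ∈ A, g j (w j)) (soup r ν) := by
  refine Integrable.of_bound (Measurable.aestronglyMeasurable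
    (Finset.measurable_fun_prod _ fun j _ => (hg j).comp (measurable_pi_apply j)))
    (K ^ A.card) (ae_of_all _ fun w => ?_)
  rw [Real.norm_eq_abs, Finset.abs_prod]
  calc ∏ j ∈ A, |g j (w j)| ≤ ∏ _j ∈ A, K :=
        Finset.prod_le_prod (fun j _ => abs_nonneg _) fun j _ => hK j (w j)
    _ = K ^ A.card := Finset.prod_const K

theorem expansion (A : Finset ι) (r : ι → ℝ≥0) (ν : ι → Measure E)
    [∀ i, IsProbabilityMeasure (ν i)] (M : ℝ) (F : Set (ι × E) → ℝ)
    (hF : Measurable fun w : Cfg ι E => F (Sp w ∩ {p | p.1 ∈ A}))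
    (hF0 : F ∅ = 1) (hFn : ∀ s, 0 ≤ F s) (hFM : ∀ s, F s ≤ M) :
    ∫ w, F (Sp w ∩ {p | p.1 ∈ A}) ∂(soup r ν) ≤
      1 - ∑ i ∈ A, (r i : ℝ) * ∫ e, (1 - F {(i, e)}) ∂(ν i) +
        (1 + M) * (∑ i ∈ A, (r i : ℝ)) ^ 2 := by
  classical
  have hM : 1 ≤ M := by
    rw [← hF0]
    exact hFM ∅
  -- replace the function outside `A` to have measurability everywhere
  let h : ι → E → ℝ := fun i e => if i ∈ A then F {(i, e)} - M else 0
  have hh : ∀ i, Measurable (h i) := by
    intro i
    by_cases hi : i ∈ A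
    · simp only [h, if_pos hi]
      exact (Expand_single_meas A F hF i hi).sub measurable_const
    · simp only [h, if_neg hi]
      exact measurable_const
  have hhb : ∀ i e, |h i e| ≤ M := by
    intro i e
    by_cases hi : i ∈ A
    · simp only [h, if_pos hi]
      rw [abs_le]
      constructor
      · linarith [hFn {(i, e)}]
      · linarith [hFM {(i, e)}]
    · simp only [h, if_neg hi, abs_zero]
      linarith
  have hgb : ∀ i j c, |Expand_g h i j c| ≤ M := by
    intro i j c
    unfold Expand_g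
    split_ifs
    · exact hhb i _
    · rw [abs_zero]; linarith
    · rw [abs_one]; exact hM
    · rw [abs_zero]; linarith
  have hZint : Integrable (fun w : Cfg ι E => ∏ j ∈ A, (if (w j).1 = 0 then (1 : ℝ) else 0))
      (soup r ν) :=
    Expand_prod_int A r ν (fun _ c => if c.1 = 0 then (1 : ℝ) else 0)
      (fun _ => Expand_z_meas) 1 (fun _ c => by
        split_ifs
        · rw [abs_one]
        · rw [abs_zero]; exact zero_le_one)
  have hOint : ∀ i, Integrable (fun w : Cfg ι E => ∏ j ∈ A, Expand_g h i j (w j))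
      (soup r ν) := fun i =>
    Expand_prod_int A r ν (Expand_g h i) (Expand_g_meas h hh i) M (hgb i)
  have hcongr : ∀ w : Cfg ι E,
      ∑ i ∈ A, ∏ j ∈ A, Expand_g (fun i e => F {(i, e)} - M) i j (w j) =
        ∑ i ∈ A, ∏ j ∈ A, Expand_g h i j (w j) := by
    intro w
    refine Finset.sum_congr rfl fun i hi => Finset.prod_congr rfl fun j _ => ?_
    simp only [Expand_g, h, if_pos hi]
  have hGint : Integrable (fun w : Cfg ι E => F (Sp w ∩ {p | p.1 ∈ A})) (soup r ν) := by
    refine Integrable.of_bound hF.aestronglyMeasurable M (ae_of_all _ fun w => ?_)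
    rw [Real.norm_eq_abs, abs_of_nonneg (hFn _)]
    exact hFM _
  have hsum : Integrable (fun w : Cfg ι E => ∑ i ∈ A, ∏ j ∈ A, Expand_g h i j (w j))
      (soup r ν) := integrable_finsetSum _ fun i _ => hOint i
  have hZ2 : Integrable (fun w : Cfg ι E =>
      (1 - M) * ∏ j ∈ A, (if (w j).1 = 0 then (1 : ℝ) else 0)) (soup r ν) :=
    hZint.const_mul _
  have hMint : Integrable (fun _ : Cfg ι E => M) (soup r ν) := integrable_const M
  have hle : ∫ w, F (Sp w ∩ {p | p.1 ∈ A}) ∂(soup r ν) ≤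
      ∫ w : Cfg ι E, (M + (1 - M) * ∏ j ∈ A, (if (w j).1 = 0 then (1 : ℝ) else 0) +
        ∑ i ∈ A, ∏ j ∈ A, Expand_g h i j (w j)) ∂(soup r ν) := by
    refine integral_mono hGint ((hMint.add hZ2).add hsum) fun w => ?_
    have h1 := Expand_bound A M F hF0 hFM w
    rw [hcongr w] at h1
    exact h1
  set R : ℝ := ∑ i ∈ A, (r i : ℝ) with hR
  have hRn : 0 ≤ R := Finset.sum_nonneg fun i _ => (r i).coe_nonneg
  have hval : ∫ w : Cfg ι E, (M + (1 - M) * ∏ j ∈ A, (if (w j).1 = 0 then (1 : ℝ) else 0) +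
        ∑ i ∈ A, ∏ j ∈ A, Expand_g h i j (w j)) ∂(soup r ν) =
      M + (1 - M) * Real.exp (-R) + ∑ i ∈ A, (r i : ℝ) * Real.exp (-R) * ∫ e, h i e ∂(ν i) := by
    have e1 : ∫ w : Cfg ι E, (M + (1 - M) * ∏ j ∈ A, (if (w j).1 = 0 then (1 : ℝ) else 0) +
        ∑ i ∈ A, ∏ j ∈ A, Expand_g h i j (w j)) ∂(soup r ν) =
        ∫ w : Cfg ι E, (M + (1 - M) * ∏ j ∈ A, (if (w j).1 = 0 then (1 : ℝ) else 0))
          ∂(soup r ν) + ∫ w : Cfg ι E, ∑ i ∈ A, ∏ j ∈ A, Expand_g h i j (w j) ∂(soup r ν) :=
      integral_add (hMint.add hZ2) hsum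
    have e2 : ∫ w : Cfg ι E, (M + (1 - M) * ∏ j ∈ A, (if (w j).1 = 0 then (1 : ℝ) else 0))
          ∂(soup r ν) = ∫ _ : Cfg ι E, M ∂(soup r ν) +
          ∫ w : Cfg ι E, (1 - M) * ∏ j ∈ A, (if (w j).1 = 0 then (1 : ℝ) else 0)
            ∂(soup r ν) := integral_add hMint hZ2
    rw [e1, e2, integral_const_mul, Expand_Z, integral_finsetSum _ fun i _ => hOint i]
    rw [integral_const, measureReal_def, measure_univ, ENNReal.toReal_one, one_smul]
    congr 1
    exact Finset.sum_congr rfl fun i hi => Expand_O A r ν h hh i hi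
  have hD : ∀ i ∈ A, ∫ e, h i e ∂(ν i) = (1 - M) - ∫ e, (1 - F {(i, e)}) ∂(ν i) := by
    intro i hi
    have hm := Expand_single_meas A F hF i hi
    have hi1 : Integrable (fun e => 1 - F {(i, e)}) (ν i) := by
      refine Integrable.of_bound (measurable_const.sub hm).aestronglyMeasurable (1 + M)
        (ae_of_all _ fun e => ?_)
      rw [Real.norm_eq_abs, abs_le]
      constructor
      · linarith [hFM {(i, e)}]
      · linarith [hFn {(i, e)}]
    have e1 : ∫ e, h i e ∂(ν i) = ∫ e, ((1 - M) - (1 - F {(i, e)})) ∂(ν i) := by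
      refine integral_congr_ae (ae_of_all _ fun e => ?_)
      simp only [h, if_pos hi]
      ring
    rw [e1, integral_sub (integrable_const _) hi1, integral_const, measureReal_def,
      measure_univ, ENNReal.toReal_one, one_smul]
  have hDle : ∀ i ∈ A, ∫ e, (1 - F {(i, e)}) ∂(ν i) ≤ 1 := by
    intro i hi
    have hm := Expand_single_meas A F hF i hi
    have hi1 : Integrable (fun e => 1 - F {(i, e)}) (ν i) := by
      refine Integrable.of_bound (measurable_const.sub hm).aestronglyMeasurable (1 + M)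
        (ae_of_all _ fun e => ?_)
      rw [Real.norm_eq_abs, abs_le]
      constructor
      · linarith [hFM {(i, e)}]
      · linarith [hFn {(i, e)}]
    have e1 : ∫ e, (1 - F {(i, e)}) ∂(ν i) ≤ ∫ _ : E, (1 : ℝ) ∂(ν i) :=
      integral_mono hi1 (integrable_const _) fun e => by
        change 1 - F {(i, e)} ≤ 1
        linarith [hFn {(i, e)}]
    rw [integral_const, measureReal_def, measure_univ, ENNReal.toReal_one, one_smul] at e1
    exact e1
  set D : ℝ := ∑ i ∈ A, (r i : ℝ) * ∫ e, (1 - F {(i, e)}) ∂(ν i) with hDdef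
  have hDR : D ≤ R := by
    refine Finset.sum_le_sum fun i hi => ?_
    have := mul_le_mul_of_nonneg_left (hDle i hi) (r i).coe_nonneg
    linarith
  have hS : ∑ i ∈ A, (r i : ℝ) * Real.exp (-R) * ∫ e, h i e ∂(ν i) =
      Real.exp (-R) * ((1 - M) * R - D) := by
    rw [hDdef, hR, Finset.mul_sum, ← Finset.sum_sub_distrib, Finset.mul_sum]
    refine Finset.sum_congr rfl fun i hi => ?_
    rw [hD i hi]
    ring
  rw [hval, hS] at hle
  have hexp1 : 1 - R ≤ Real.exp (-R) := by linarith [Real.add_one_le_exp (-R)]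
  have hexp2 : Real.exp (-R) ≤ 1 := Real.exp_le_one_iff.2 (by linarith)
  have k1 : (1 - Real.exp (-R)) * D ≤ R ^ 2 := by
    have k2 : (1 - Real.exp (-R)) * D ≤ (1 - Real.exp (-R)) * R :=
      mul_le_mul_of_nonneg_left hDR (by linarith)
    have k3 : (1 - Real.exp (-R)) * R ≤ R * R :=
      mul_le_mul_of_nonneg_right (by linarith) hRn
    nlinarith
  have k4 : 1 - Real.exp (-R) * (1 + R) ≤ R ^ 2 := by
    have k5 : (1 - R) * (1 + R) ≤ Real.exp (-R) * (1 + R) :=
      mul_le_mul_of_nonneg_right hexp1 (by linarith)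
    nlinarith
  have k6 : (M - 1) * (1 - Real.exp (-R) * (1 + R)) ≤ (M - 1) * R ^ 2 :=
    mul_le_mul_of_nonneg_left k4 (by linarith)
  nlinarith [hle, k1, k6, sq_nonneg R]

end Pool.Agent.Helper3.CD
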