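import Mathlib
import Pool.Agent.Helper16.CD.Stmt

/-!
# CD transfer: the carpet under a homeomorphism which keeps bounded sets
-/

set_option autoImplicit false

open Set

namespace Pool.Agent.Helper3.CD

open Pool.Agent.Helper16.CD

variable {Q Q' : Type*} [PseudoMetricSpace Q] [PseudoMetricSpace Q']

theorem fillIn_image (φ : Q ≃ₜ Q')
    (hφ : ∀ s : Set Q, Bornology.IsBounded (φ '' s) ↔ Bornology.IsBounded s) (A : Set Q) :
    fillIn (φ '' A) = φ '' fillIn A := by
  ext z
  obtain ⟨x, rfl⟩ := φ.surjective z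
  rw [φ.injective.mem_set_image]
  simp only [fillIn, mem_ofPred_eq]
  have h1 : (φ '' A)ᶜ = φ '' Aᶜ := (φ.toEquiv.image_compl A).symm
  rw [h1]
  by_cases hx : x ∈ Aᶜ
  · rw [← φ.image_connectedComponentIn hx, hφ]
  · have h2 : φ x ∉ φ '' Aᶜ := by
      rw [φ.injective.mem_set_image]
      exact hx
    rw [connectedComponentIn_eq_empty hx, connectedComponentIn_eq_empty h2]
    simp

theorem linked_image (φ : Q ≃ₜ Q') (S : Set (Set Q)) (K K' : Set Q) :
    Linked ((fun L => φ '' L) '' S) (φ '' K) (φ '' K') ↔ Linked S K K' := by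
  constructor
  · intro h
    have key : ∀ L : Set Q', Linked ((fun L => φ '' L) '' S) (φ '' K) L →
        Linked S K (φ ⁻¹' L) := by
      intro L hL
      induction hL with
      | refl =>
        rw [φ.preimage_image]
        exact Relation.ReflTransGen.refl
      | tail _ h2 ih =>
        obtain ⟨⟨A, hA, rfl⟩, ⟨B, hB, rfl⟩, h3⟩ := h2
        simp only [φ.preimage_image] at ih ⊢
        refine ih.tail ⟨hA, hB, ?_⟩
        simp only at h3
        rw [← image_inter φ.injective] at h3
        exact h3.of_image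
    have h1 := key _ h
    rwa [φ.preimage_image] at h1
  · intro h
    induction h with
    | refl => exact Relation.ReflTransGen.refl
    | tail _ h2 ih =>
      refine ih.tail ⟨mem_image_of_mem _ h2.1, mem_image_of_mem _ h2.2.1, ?_⟩
      rw [← image_inter φ.injective]
      exact h2.2.2.image _

theorem cluster_image (φ : Q ≃ₜ Q') (S : Set (Set Q)) (K : Set Q) :
    cluster ((fun L => φ '' L) '' S) (φ '' K) = φ '' cluster S K := by
  ext z
  simp only [cluster, mem_sUnion, mem_ofPred_eq, mem_image]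
  constructor
  · rintro ⟨L, ⟨⟨K', hK', rfl⟩, h⟩, hz⟩
    obtain ⟨x, hx, rfl⟩ := hz
    exact ⟨x, ⟨K', ⟨hK', (linked_image φ S K K').1 h⟩, hx⟩, rfl⟩
  · rintro ⟨x, ⟨K', ⟨hK', h⟩, hx⟩, rfl⟩
    exact ⟨φ '' K', ⟨⟨K', hK', rfl⟩, (linked_image φ S K K').2 h⟩, mem_image_of_mem _ hx⟩

theorem carpet_image (φ : Q ≃ₜ Q')
    (hφ : ∀ s : Set Q, Bornology.IsBounded (φ '' s) ↔ Bornology.IsBounded s)
    (D : Set Q) (S : Set (Set Q)) :
    carpet (φ '' D) ((fun L => φ '' L) '' S) = φ '' carpet D S := by
  ext z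
  obtain ⟨x, rfl⟩ := φ.surjective z
  rw [φ.injective.mem_set_image]
  simp only [carpet, mem_ofPred_eq, φ.injective.mem_set_image, forall_mem_image]
  refine and_congr Iff.rfl (forall₂_congr fun K _ => not_congr ?_)
  rw [cluster_image, ← φ.image_closure, fillIn_image φ hφ, ← φ.image_interior,
    φ.injective.mem_set_image]

/-! ### the plane -/

/-- the identification of `ℂ` with the plane -/
noncomputable def toP : ℂ ≃ₜ Plane := Complex.equivRealProdCLM.toHomeomorph

@[simp] lemma toP_apply (z : ℂ) : toP z = (z.re, z.im) := rfl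

lemma dist_toP_le (z w : ℂ) : dist (toP z) (toP w) ≤ dist z w := by
  rw [Prod.dist_eq]
  refine max_le ?_ ?_
  · rw [Real.dist_eq, Complex.dist_eq]
    exact Complex.abs_re_le_norm (z - w)
  · rw [Real.dist_eq, Complex.dist_eq]
    exact Complex.abs_im_le_norm (z - w)

lemma dist_le_toP (z w : ℂ) : dist z w ≤ 2 * dist (toP z) (toP w) := by
  have h1 : dist z.re w.re ≤ dist (toP z) (toP w) := le_max_left _ _
  have h2 : dist z.im w.im ≤ dist (toP z) (toP w) := le_max_right _ _
  rw [Complex.dist_eq]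
  refine (Complex.norm_le_abs_re_add_abs_im (z - w)).trans ?_
  rw [Real.dist_eq] at h1 h2
  rw [Complex.sub_re, Complex.sub_im]
  linarith

lemma bounded_toP (s : Set ℂ) : Bornology.IsBounded (toP '' s) ↔ Bornology.IsBounded s := by
  constructor
  · intro h
    have h1 : AntilipschitzWith 2 (toP : ℂ → Plane) :=
      AntilipschitzWith.of_le_mul_dist fun z w => by simpa using dist_le_toP z w
    have h2 := h1.isBounded_preimage h
    exact h2.subset (subset_preimage_image _ _)
  · intro h
    have h1 : LipschitzWith 1 (toP : ℂ → Plane) :=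
      LipschitzWith.of_dist_le_mul fun z w => by simpa using dist_toP_le z w
    exact h1.isBounded_image h

theorem dimH_toP (s : Set ℂ) : dimH (toP '' s) = dimH s :=
  Complex.equivRealProdCLM.dimH_image s

lemma normSq' (x : ℂ) : ‖x‖ ^ 2 = x.re ^ 2 + x.im ^ 2 := by
  rw [← Complex.normSq_eq_norm_sq, Complex.normSq_apply]
  ring

lemma toP_closedBall : toP '' (Metric.closedBall 0 1) = cD := by
  ext z
  obtain ⟨x, rfl⟩ := toP.surjective z
  rw [toP.injective.mem_set_image, Metric.mem_closedBall, dist_zero_right]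
  simp only [cD, toP_apply, mem_ofPred_eq]
  rw [← normSq' x]
  exact ⟨fun h => by nlinarith [norm_nonneg x], fun h => by nlinarith [norm_nonneg x]⟩

lemma toP_ball_subset (s : Set ℂ) : toP '' s ⊆ oD ↔ s ⊆ Metric.ball 0 1 := by
  constructor
  · intro h x hx
    have h1 := h (mem_image_of_mem _ hx)
    simp only [oD, toP_apply, mem_ofPred_eq] at h1
    rw [← normSq' x] at h1
    rw [Metric.mem_ball, dist_zero_right]
    nlinarith [norm_nonneg x]
  · rintro h _ ⟨x, hx, rfl⟩
    have h1 := h hx
    rw [Metric.mem_ball, dist_zero_right] at h1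
    simp only [oD, toP_apply, mem_ofPred_eq]
    rw [← normSq' x]
    nlinarith [norm_nonneg x]

end Pool.Agent.Helper3.CD
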