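import Mathlib
import Pool.Agent.Helper3.CD.Base

/-!
# CD frame B: the probability that finitely many cells are empty
-/

set_option autoImplicit false

open MeasureTheory ProbabilityTheory
open scoped NNReal ENNReal

namespace Pool.Agent.Helper3.CD

variable {ι E : Type*} [MeasurableSpace E]

lemma cellLaw_zero (r : ℝ≥0) (ν : Measure E) [IsProbabilityMeasure ν] :
    cellLaw r ν {c | c.1 = 0} = ENNReal.ofReal (Real.exp (-r)) := by
  have e1 : {c : Cell E | c.1 = 0} = ({0} : Set ℕ) ×ˢ (Set.univ : Set (ℕ → E)) := by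
    ext c
    simp
  rw [cellLaw, e1, Measure.prod_prod, measure_univ, mul_one, poissonMeasure_singleton]
  simp

theorem prob_empty (r : ι → ℝ≥0) (ν : ι → Measure E) [∀ i, IsProbabilityMeasure (ν i)]
    (A : Finset ι) :
    soup r ν {w | ∀ i ∈ A, (w i).1 = 0} = ENNReal.ofReal (Real.exp (-∑ i ∈ A, (r i : ℝ))) := by
  have e1 : {w : Cfg ι E | ∀ i ∈ A, (w i).1 = 0} =
      Set.pi (A : Set ι) fun _ => {c : Cell E | c.1 = 0} := by
    ext w
    simp [Set.mem_pi]
  have hm : MeasurableSet {c : Cell E | c.1 = 0} := measurable_fst (measurableSet_singleton 0)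
  rw [soup, e1, Measure.infinitePi_pi _ (fun _ _ => hm)]
  simp only [cellLaw_zero]
  rw [← ENNReal.ofReal_prod_of_nonneg (fun i _ => (Real.exp_pos _).le), ← Real.exp_sum,
    Finset.sum_neg_distrib]

theorem prob_empty_pos (r : ι → ℝ≥0) (ν : ι → Measure E) [∀ i, IsProbabilityMeasure (ν i)]
    (A : Finset ι) : 0 < soup r ν {w | ∀ i ∈ A, (w i).1 = 0} := by
  rw [prob_empty]
  exact ENNReal.ofReal_pos.2 (Real.exp_pos _)

end Pool.Agent.Helper3.CD
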