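import Mathlib
import Pool.Agent.Helper3.CD.Base
import Pool.Agent.Helper3.CD.Shift

/-!
# CD frame B: change of the marks
-/

set_option autoImplicit false

open MeasureTheory ProbabilityTheory
open scoped NNReal ENNReal

namespace Pool.Agent.Helper3.CD

variable {ι E E' : Type*}

/-- apply `T i` to the marks of the cell `i` -/
def mapMarks (T : ι → E → E') (w : Cfg ι E) : Cfg ι E' := fun i => ((w i).1, fun j => T i ((w i).2 j))

theorem mem_Sp_mapMarks (T : ι → E → E') (w : Cfg ι E) (p : ι × E') :
    p ∈ Sp (mapMarks T w) ↔ ∃ e, (p.1, e) ∈ Sp w ∧ T p.1 e = p.2 := by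
  constructor
  · rintro ⟨j, hj, he⟩
    exact ⟨(w p.1).2 j, ⟨j, hj, rfl⟩, he⟩
  · rintro ⟨e, ⟨j, hj, he⟩, hT⟩
    refine ⟨j, hj, ?_⟩
    show T p.1 ((w p.1).2 j) = p.2
    simp only at he
    rw [he, hT]

variable [MeasurableSpace E] [MeasurableSpace E']

theorem measurable_mapMarks (T : ι → E → E') (hT : ∀ i, Measurable (T i)) :
    Measurable (mapMarks T : Cfg ι E → Cfg ι E') := by
  refine measurable_pi_lambda _ fun i => ?_
  have h1 : Measurable fun w : Cfg ι E => (w i).1 := measurable_fst.comp (measurable_pi_apply i)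
  have h2 : Measurable fun w : Cfg ι E => fun j => T i ((w i).2 j) :=
    measurable_pi_lambda _ fun j => (hT i).comp ((measurable_pi_apply j).comp
      (measurable_snd.comp (measurable_pi_apply i)))
  exact h1.prodMk h2

theorem cellLaw_map (r : ℝ≥0) (ν : Measure E) [IsProbabilityMeasure ν] (T : E → E')
    (hT : Measurable T) :
    (cellLaw r ν).map (fun c => (c.1, fun j => T (c.2 j))) = cellLaw r (ν.map T) := by
  have h1 : (Measure.infinitePi fun _ : ℕ => ν).map (fun x j => T (x j)) =
      Measure.infinitePi fun _ : ℕ => ν.map T :=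
    Measure.infinitePi_map_pi (μ := fun _ : ℕ => ν) (f := fun _ => T) fun _ => hT
  have h2 : Measurable fun (x : ℕ → E) (j : ℕ) => T (x j) :=
    measurable_pi_lambda _ fun j => hT.comp (measurable_pi_apply j)
  have h3 := Measure.map_prod_map (poissonMeasure r) (Measure.infinitePi fun _ : ℕ => ν)
    (measurable_id) h2
  rw [h1, Measure.map_id] at h3
  unfold cellLaw
  rw [h3]
  rfl

/-- the law of the configuration with the marks changed -/
theorem soup_map_marks (r : ι → ℝ≥0) (ν : ι → Measure E) [∀ i, IsProbabilityMeasure (ν i)]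
    (T : ι → E → E') (hT : ∀ i, Measurable (T i)) :
    (soup r ν).map (mapMarks T) = soup r (fun i => (ν i).map (T i)) := by
  have h1 : ∀ i, Measurable fun c : Cell E => ((c.1, fun j => T i (c.2 j)) : Cell E') := by
    intro i
    exact measurable_fst.prodMk (measurable_pi_lambda _ fun j => (hT i).comp
      ((measurable_pi_apply j).comp measurable_snd))
  have h2 := Measure.infinitePi_map_pi (μ := fun i => cellLaw (r i) (ν i))
    (f := fun i c => ((c.1, fun j => T i (c.2 j)) : Cell E')) h1
  simp only [cellLaw_map _ _ _ (hT _)] at h2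
  exact h2

theorem soup_preimage_marks (r : ι → ℝ≥0) (ν : ι → Measure E) [∀ i, IsProbabilityMeasure (ν i)]
    (T : ι → E → E') (hT : ∀ i, Measurable (T i)) (S : Set (Cfg ι E')) (hS : MeasurableSet S) :
    soup r (fun i => (ν i).map (T i)) S = soup r ν {w | mapMarks T w ∈ S} := by
  rw [← soup_map_marks r ν T hT, Measure.map_apply (measurable_mapMarks T hT) hS]
  rfl

end Pool.Agent.Helper3.CD
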