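import Mathlib
import Pool.Agent.Helper16.CD.Stmt

/-!
# CD transfer: the masses of the parts and the conditional laws

one-dimensional facts
-/

set_option autoImplicit false

open MeasureTheory ProbabilityTheory Set
open scoped NNReal ENNReal unitInterval

namespace Pool.Agent.Helper3.CD

open Pool.Agent.Helper16.CD

/-- the law of the duration -/
noncomputable def tauM : Measure ℝ := (volume.restrict (Ioi (0 : ℝ))).withDensity
    fun t => ENNReal.ofReal (1 / (2 * Real.pi * t ^ 2))

lemma measurable_dens : Measurable fun t : ℝ => ENNReal.ofReal (1 / (2 * Real.pi * t ^ 2)) := by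
  fun_prop

lemma dur_pos (x : I) : 0 < dur x := by
  have h1 := x.2.2
  have : 0 < 1 - 3 / 4 * (x : ℝ) := by nlinarith [x.2.1]
  unfold dur
  positivity

lemma measurable_dur : Measurable dur := by
  unfold dur
  fun_prop

/-- image of the uniform law under the duration map -/
theorem map_dur (a : ℝ) (ha : 0 < a) :
    (volume : Measure I).map (fun x => a * dur x) =
      ENNReal.ofReal (8 * Real.pi * a / 3) • tauM.restrict (Ico a (4 * a)) := by
  have hpi := Real.pi_pos
  have hm : Measurable fun x : I => a * dur x := measurable_dur.const_mul a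
  ext B hB
  rw [Measure.map_apply hm hB, Measure.smul_apply, Measure.restrict_apply hB, tauM,
    withDensity_apply _ (hB.inter measurableSet_Ico),
    Measure.restrict_restrict (hB.inter measurableSet_Ico)]
  set f : ℝ → ℝ := fun x => a * (1 / (1 - 3 / 4 * x)) with hf
  have e1 : B ∩ Ico a (4 * a) ∩ Ioi 0 = B ∩ Ico a (4 * a) := by
    apply Set.inter_eq_left.2
    rintro x ⟨_, hx⟩
    exact lt_of_lt_of_le ha hx.1
  have e2 : B ∩ Ico a (4 * a) = f '' (Ico 0 1 ∩ f ⁻¹' B) := by
    ext t
    constructor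
    · rintro ⟨htB, h1, h2⟩
      have ht : 0 < t := lt_of_lt_of_le ha h1
      have e3 : f (4 / 3 * (1 - a / t)) = t := by
        simp only [hf]
        have : 1 - 3 / 4 * (4 / 3 * (1 - a / t)) = a / t := by ring
        rw [this]
        field_simp
      refine ⟨4 / 3 * (1 - a / t), ⟨⟨?_, ?_⟩, ?_⟩, e3⟩
      · have : a / t ≤ 1 := (div_le_one ht).2 h1
        linarith
      · have : 1 / 4 < a / t := by
          rw [div_lt_div_iff₀ (by norm_num) ht]
          linarith
        linarith
      · show f _ ∈ B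
        rw [e3]
        exact htB
    · rintro ⟨x, ⟨⟨h1, h2⟩, h3⟩, rfl⟩
      refine ⟨h3, ?_, ?_⟩
      · simp only [hf]
        have : 1 ≤ 1 / (1 - 3 / 4 * x) := by
          rw [le_div_iff₀ (by linarith)]
          linarith
        nlinarith
      · simp only [hf]
        have : 1 / (1 - 3 / 4 * x) < 4 := by
          rw [div_lt_iff₀ (by linarith)]
          linarith
        nlinarith
  rw [e1, e2]
  have hd : ∀ x ∈ Ico (0 : ℝ) 1 ∩ f ⁻¹' B, HasDerivWithinAt f
      (a * (3 / 4) / (1 - 3 / 4 * x) ^ 2) (Ico (0 : ℝ) 1 ∩ f ⁻¹' B) x := by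
    rintro x ⟨⟨h1, h2⟩, _⟩
    have h3 : (1 - 3 / 4 * x) ≠ 0 := by
      have : 0 < 1 - 3 / 4 * x := by linarith
      exact this.ne'
    have h4 : HasDerivAt (fun x : ℝ => 1 - 3 / 4 * x) (-(3 / 4)) x := by
      simpa using ((hasDerivAt_id x).const_mul (3 / 4 : ℝ)).const_sub 1
    have h5 := (h4.inv h3).const_mul a
    have h6 : f = fun x : ℝ => a * ((fun x : ℝ => 1 - 3 / 4 * x)⁻¹) x := by
      funext y
      simp [hf]
    have h7 : HasDerivAt f (a * (3 / 4) / (1 - 3 / 4 * x) ^ 2) x := by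
      rw [h6]
      refine h5.congr_deriv ?_
      field_simp
    exact h7.hasDerivWithinAt
  have hfm : Measurable f := by
    rw [hf]
    fun_prop
  have hs : MeasurableSet (Ico (0 : ℝ) 1 ∩ f ⁻¹' B) := measurableSet_Ico.inter (hfm hB)
  have hinj : InjOn f (Ico (0 : ℝ) 1 ∩ f ⁻¹' B) := by
    rintro x ⟨⟨h1, h2⟩, _⟩ y ⟨⟨h3, h4⟩, _⟩ h
    simp only [hf] at h
    have h5 := mul_left_cancel₀ ha.ne' h
    have h6 : (1 - 3 / 4 * x) = (1 - 3 / 4 * y) := by
      rw [one_div, one_div] at h5
      exact inv_injective h5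
    linarith
  rw [lintegral_image_eq_lintegral_abs_deriv_mul hs hd hinj]
  have e4 : ∀ x ∈ Ico (0 : ℝ) 1 ∩ f ⁻¹' B,
      ENNReal.ofReal |a * (3 / 4) / (1 - 3 / 4 * x) ^ 2| *
        ENNReal.ofReal (1 / (2 * Real.pi * f x ^ 2)) = ENNReal.ofReal (3 / (8 * Real.pi * a)) := by
    rintro x ⟨⟨h1, h2⟩, _⟩
    have h3 : 0 < 1 - 3 / 4 * x := by linarith
    rw [← ENNReal.ofReal_mul (abs_nonneg _), abs_of_pos (by positivity)]
    congr 1
    have h4 : f x = a / (1 - 3 / 4 * x) := by
      simp only [hf]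
      ring
    rw [h4]
    have h5 := h3.ne'
    have h6 := hpi.ne'
    generalize 1 - 3 / 4 * x = D at *
    field_simp
    norm_num
  rw [setLIntegral_congr_fun hs e4, setLIntegral_const, smul_eq_mul, ← mul_assoc,
    ← ENNReal.ofReal_mul (by positivity)]
  have e5 : 8 * Real.pi * a / 3 * (3 / (8 * Real.pi * a)) = 1 := by
    field_simp
  rw [e5, ENNReal.ofReal_one, one_mul]
  have e6 : (volume : Measure I) ((fun x => a * dur x) ⁻¹' B) =
      volume (Subtype.val '' ((fun x : I => a * dur x) ⁻¹' B)) := by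
    rw [volume_image_subtype_coe measurableSet_Icc]
  rw [e6]
  have e7 : Subtype.val '' ((fun x : I => a * dur x) ⁻¹' B) = Icc (0 : ℝ) 1 ∩ f ⁻¹' B := by
    ext x
    simp only [mem_image, mem_preimage, Subtype.exists, exists_and_right, exists_eq_right,
      mem_inter_iff]
    constructor
    · rintro ⟨hx, h⟩
      exact ⟨hx, h⟩
    · rintro ⟨hx, h⟩
      exact ⟨hx, h⟩
  rw [e7]
  refine measure_congr ?_
  exact (Ico_ae_eq_Icc (μ := volume) (a := (0 : ℝ)) (b := 1)).symm.inter (ae_eq_refl _)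

end Pool.Agent.Helper3.CD
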