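import Mathlib
import Pool.Agent.Helper16.CD.Stmt
import Pool.Agent.Helper3.CD.T1

/-!
# CD transfer: the masses of the parts and the conditional laws
-/

set_option autoImplicit false

open MeasureTheory ProbabilityTheory Set
open scoped NNReal ENNReal unitInterval

namespace Pool.Agent.Helper3.CD

open Pool.Agent.Helper16.CD

/-- image of the uniform law under an affine map -/
theorem map_affine (s b : ℝ) (hs : 0 < s) :
    (volume : Measure I).map (fun u : I => s * (b + (u : ℝ))) =
      ENNReal.ofReal s⁻¹ • (volume.restrict (Ico (s * b) (s * (b + 1)))) := by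
  have hm : Measurable fun u : I => s * (b + u) := by fun_prop
  ext B hB
  rw [Measure.map_apply hm hB, Measure.smul_apply, Measure.restrict_apply hB]
  set f : ℝ → ℝ := fun x => s * (b + x) with hf
  have e2 : B ∩ Ico (s * b) (s * (b + 1)) = f '' (Ico 0 1 ∩ f ⁻¹' B) := by
    ext t
    constructor
    · rintro ⟨htB, h1, h2⟩
      have e3 : f (t / s - b) = t := by
        simp only [hf]
        field_simp
        ring
      refine ⟨t / s - b, ⟨⟨?_, ?_⟩, ?_⟩, e3⟩
      · rw [sub_nonneg, le_div_iff₀ hs]
        linarith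
      · rw [sub_lt_iff_lt_add, div_lt_iff₀ hs]
        linarith
      · show f _ ∈ B
        rw [e3]
        exact htB
    · rintro ⟨x, ⟨⟨h1, h2⟩, h3⟩, rfl⟩
      refine ⟨h3, ?_, ?_⟩
      · simp only [hf]
        nlinarith
      · simp only [hf]
        nlinarith
  have hfm : Measurable f := by
    rw [hf]
    fun_prop
  have hS : MeasurableSet (Ico (0 : ℝ) 1 ∩ f ⁻¹' B) := measurableSet_Ico.inter (hfm hB)
  have hd : ∀ x ∈ Ico (0 : ℝ) 1 ∩ f ⁻¹' B, HasDerivWithinAt f
      s (Ico (0 : ℝ) 1 ∩ f ⁻¹' B) x := by
    intro x _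
    have h1 : HasDerivAt f s x := by
      have h2 := ((hasDerivAt_id x).const_add b).const_mul s
      simpa using h2
    exact h1.hasDerivWithinAt
  have hinj : InjOn f (Ico (0 : ℝ) 1 ∩ f ⁻¹' B) := by
    intro x _ y _ h
    simp only [hf] at h
    have h5 := mul_left_cancel₀ hs.ne' h
    linarith
  have e3 := lintegral_image_eq_lintegral_abs_deriv_mul hS hd hinj (fun _ => 1)
  rw [setLIntegral_one, ← e2, setLIntegral_const] at e3
  rw [e3, abs_of_pos hs, mul_one, smul_eq_mul, ← mul_assoc, ← ENNReal.ofReal_mul (by positivity),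
    inv_mul_cancel₀ hs.ne', ENNReal.ofReal_one, one_mul]
  have e6 : (volume : Measure I) ((fun x : I => s * (b + (x : ℝ))) ⁻¹' B) =
      volume (Subtype.val '' ((fun x : I => s * (b + x)) ⁻¹' B)) := by
    rw [volume_image_subtype_coe measurableSet_Icc]
  rw [e6]
  have e7 : Subtype.val '' ((fun x : I => s * (b + x)) ⁻¹' B) = Icc (0 : ℝ) 1 ∩ f ⁻¹' B := by
    ext x
    simp only [mem_image, mem_preimage, Subtype.exists, exists_and_right, exists_eq_right,
      mem_inter_iff]
    constructor
    · rintro ⟨hx, h⟩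
      exact ⟨hx, h⟩
    · rintro ⟨hx, h⟩
      exact ⟨hx, h⟩
  rw [e7]
  refine measure_congr ?_
  exact (Ico_ae_eq_Icc (μ := volume) (a := (0 : ℝ)) (b := 1)).symm.inter (ae_eq_refl _)

/-- the root of a standard mark placed in the square `i` -/
noncomputable def rootC (i : Idx) (u : I × I) : ℂ :=
  ⟨side i * (i.2.1 + u.1), side i * (i.2.2 + u.2)⟩

lemma side_pos (i : Idx) : 0 < side i := by
  unfold side
  positivity

lemma measurable_rootC (i : Idx) : Measurable (rootC i) := by
  have h : rootC i = fun u : I × I => Complex.measurableEquivRealProd.symm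
      (side i * (i.2.1 + u.1), side i * (i.2.2 + u.2)) := by
    funext u
    apply Complex.ext <;> rfl
  rw [h]
  exact Complex.measurableEquivRealProd.symm.measurable.comp (by fun_prop)

theorem map_rootC (i : Idx) :
    ((volume : Measure I).prod (volume : Measure I)).map (rootC i) =
      ENNReal.ofReal ((side i)⁻¹ ^ 2) • (volume.restrict (sqC i)) := by
  have hs := side_pos i
  have h1 : Measurable fun u : I => side i * ((i.2.1 : ℝ) + u) := by fun_prop
  have h2 : Measurable fun u : I => side i * ((i.2.2 : ℝ) + u) := by fun_prop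
  have h3 := Measure.map_prod_map (volume : Measure I) (volume : Measure I) h1 h2
  rw [map_affine _ _ hs, map_affine _ _ hs, Measure.prod_smul_left, Measure.prod_smul_right,
    Measure.prod_restrict, smul_smul, ← ENNReal.ofReal_mul (by positivity)] at h3
  have h4 : rootC i = Complex.measurableEquivRealProd.symm ∘
      Prod.map (fun u : I => side i * ((i.2.1 : ℝ) + u)) (fun u : I => side i * ((i.2.2 : ℝ) + u)) := by
    funext u
    apply Complex.ext <;> rfl
  rw [h4, ← Measure.map_map Complex.measurableEquivRealProd.symm.measurable (h1.prodMap h2), ← h3,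
    Measure.map_smul]
  congr 1
  · rw [sq]
  · have h5 := (Complex.volume_preserving_equiv_real_prod.symm).restrict_preimage_emb
      Complex.measurableEquivRealProd.symm.measurableEmbedding (sqC i)
    have h6 : Complex.measurableEquivRealProd.symm ⁻¹' sqC i =
        Ico (side i * (i.2.1 : ℝ)) (side i * (i.2.1 + 1)) ×ˢ
        Ico (side i * (i.2.2 : ℝ)) (side i * (i.2.2 + 1)) := by
      ext p
      constructor
      · rintro ⟨a1, a2, a3, a4⟩
        exact ⟨⟨a1, a2⟩, ⟨a3, a4⟩⟩
      · rintro ⟨⟨a1, a2⟩, ⟨a3, a4⟩⟩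
        exact ⟨a1, a2, a3, a4⟩
    rw [h6] at h5
    exact h5.map_eq

end Pool.Agent.Helper3.CD
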