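import Mathlib
import Pool.Agent.Helper16.CD.Stmt
import Pool.Agent.Helper3.CD.T2

/-!
# CD transfer: the masses of the parts and the conditional laws
-/

set_option autoImplicit false

open MeasureTheory ProbabilityTheory Set
open scoped NNReal ENNReal unitInterval

namespace Pool.Agent.Helper3.CD

open Pool.Agent.Helper16.CD

variable {Ω : Type} [MeasurableSpace Ω]

/-- a standard mark placed in the square `i` -/
noncomputable def placeC (i : Idx) (e : Mark Ω) : ℂ × ℝ × Ω :=
  (rootC i (e.1.1, e.1.2.1), (side i) ^ 2 * dur e.1.2.2, e.2)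

lemma side_sq (i : Idx) : (side i) ^ 2 = (1 / 4 : ℝ) ^ i.1 := by
  unfold side
  rw [← pow_mul, mul_comm, pow_mul]
  norm_num

theorem measurable_placeC (i : Idx) : Measurable (placeC i : Mark Ω → ℂ × ℝ × Ω) := by
  unfold placeC
  refine ((measurable_rootC i).comp (by fun_prop)).prodMk (Measurable.prodMk ?_ measurable_snd)
  exact (measurable_dur.comp (by fun_prop)).const_mul _

instance : SFinite tauM := by unfold tauM; infer_instance

theorem tauM_Ico (a : ℝ) (ha : 0 < a) :
    tauM (Ico a (4 * a)) = ENNReal.ofReal (3 / (8 * Real.pi * a)) := by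
  have hpi := Real.pi_pos
  have h := congrArg (fun m : Measure ℝ => m univ) (map_dur a ha)
  rw [Measure.map_apply (measurable_dur.const_mul a) MeasurableSet.univ, preimage_univ,
    measure_univ, Measure.smul_apply, Measure.restrict_apply_univ, smul_eq_mul] at h
  have h1 : ENNReal.ofReal (3 / (8 * Real.pi * a)) * ENNReal.ofReal (8 * Real.pi * a / 3) = 1 := by
    rw [← ENNReal.ofReal_mul (by positivity)]
    have : 3 / (8 * Real.pi * a) * (8 * Real.pi * a / 3) = 1 := by field_simp
    rw [this, ENNReal.ofReal_one]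
  calc tauM (Ico a (4 * a)) = 1 * tauM (Ico a (4 * a)) := (one_mul _).symm
    _ = ENNReal.ofReal (3 / (8 * Real.pi * a)) * (ENNReal.ofReal (8 * Real.pi * a / 3) *
          tauM (Ico a (4 * a))) := by rw [← h1, mul_assoc]
    _ = _ := by rw [← h, mul_one]

theorem tauM_Ici (a : ℝ) (ha : 0 < a) :
    tauM (Ici a) = ENNReal.ofReal (1 / (2 * Real.pi * a)) := by
  have hpi := Real.pi_pos
  rw [tauM, withDensity_apply _ measurableSet_Ici, Measure.restrict_restrict measurableSet_Ici]
  have e1 : Ici a ∩ Ioi 0 = Ici a := by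
    apply Set.inter_eq_left.2
    intro x hx
    exact lt_of_lt_of_le ha hx
  rw [e1, setLIntegral_congr (Ioi_ae_eq_Ici (μ := volume) (a := a)).symm]
  have e2 : ∀ t ∈ Ioi a, ENNReal.ofReal (1 / (2 * Real.pi * t ^ 2)) =
      ENNReal.ofReal (1 / (2 * Real.pi) * t ^ (-2 : ℝ)) := by
    intro t ht
    have ht0 : 0 < t := lt_trans ha ht
    congr 1
    rw [Real.rpow_neg ht0.le]
    norm_num
    ring
  rw [setLIntegral_congr_fun measurableSet_Ioi e2]
  have hi : IntegrableOn (fun t : ℝ => 1 / (2 * Real.pi) * t ^ (-2 : ℝ)) (Ioi a) :=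
    (integrableOn_Ioi_rpow_of_lt (by norm_num) ha).const_mul _
  rw [← ofReal_integral_eq_lintegral_ofReal hi]
  · congr 1
    rw [integral_const_mul, integral_Ioi_rpow_of_lt (by norm_num) ha]
    have : (-2 : ℝ) + 1 = -1 := by norm_num
    rw [this, Real.rpow_neg_one]
    field_simp
  · refine (ae_restrict_iff' measurableSet_Ioi).2 (Filter.Eventually.of_forall fun t ht => ?_)
    have ht0 : 0 < t := lt_trans ha ht
    positivity

theorem volume_sqC (i : Idx) : volume (sqC i) = ENNReal.ofReal ((side i) ^ 2) := by
  have hs := side_pos i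
  have h := congrArg (fun m : Measure ℂ => m univ) (map_rootC i)
  rw [Measure.map_apply (measurable_rootC i) MeasurableSet.univ, preimage_univ,
    measure_univ, Measure.smul_apply, Measure.restrict_apply_univ, smul_eq_mul] at h
  have h1 : ENNReal.ofReal ((side i) ^ 2) * ENNReal.ofReal ((side i)⁻¹ ^ 2) = 1 := by
    rw [← ENNReal.ofReal_mul (by positivity)]
    have : (side i) ^ 2 * ((side i)⁻¹ ^ 2) = 1 := by field_simp
    rw [this, ENNReal.ofReal_one]
  calc volume (sqC i) = 1 * volume (sqC i) := (one_mul _).symm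
    _ = ENNReal.ofReal ((side i) ^ 2) * (ENNReal.ofReal ((side i)⁻¹ ^ 2) * volume (sqC i)) := by
        rw [← h1, mul_assoc]
    _ = _ := by rw [← h, mul_one]

variable (P : Measure Ω) [IsProbabilityMeasure P]

theorem lam_inl (i : Idx) : lam P (part Ω (Sum.inl i)) = ENNReal.ofReal (3 / (8 * Real.pi)) := by
  have hs := side_pos i
  have hpi := Real.pi_pos
  show ((volume : Measure ℂ).prod (tauM.prod P)) (sqC i ×ˢ
    (Ico ((1 / 4 : ℝ) ^ i.1) (4 * (1 / 4 : ℝ) ^ i.1) ×ˢ univ)) = _
  rw [Measure.prod_prod, Measure.prod_prod, measure_univ, mul_one, volume_sqC,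
    tauM_Ico _ (by positivity), side_sq, ← ENNReal.ofReal_mul (by positivity)]
  congr 1
  field_simp

theorem lam_inr (v : ℤ × ℤ) :
    lam P (part Ω (Sum.inr v)) = ENNReal.ofReal (1 / (8 * Real.pi)) := by
  have hpi := Real.pi_pos
  show ((volume : Measure ℂ).prod (tauM.prod P)) (sqC (0, v) ×ˢ (Ici (4 : ℝ) ×ˢ univ)) = _
  rw [Measure.prod_prod, Measure.prod_prod, measure_univ, mul_one, volume_sqC,
    tauM_Ici _ (by positivity), side_sq, ← ENNReal.ofReal_mul (by positivity)]
  congr 1
  simp only [pow_zero, one_mul]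
  ring_nf

theorem cond_inl (i : Idx) :
    (lam P)[|part Ω (Sum.inl i)] = ((volume : Measure (I × I × I)).prod P).map (placeC i) := by
  have hs := side_pos i
  have hpi := Real.pi_pos
  have ha : (0 : ℝ) < (side i) ^ 2 := by positivity
  -- the map on the rearranged coordinates
  have h1 := Measure.map_prod_map (volume : Measure I) P (measurable_dur.const_mul ((side i) ^ 2))
    measurable_id
  rw [Measure.map_id, map_dur _ ha, Measure.prod_smul_left] at h1
  have h2 := Measure.map_prod_map ((volume : Measure I).prod (volume : Measure I))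
    ((volume : Measure I).prod P) (measurable_rootC i)
    ((measurable_dur.const_mul ((side i) ^ 2)).prodMap measurable_id)
  rw [← h1, map_rootC, Measure.prod_smul_left, Measure.prod_smul_right, smul_smul,
    ← ENNReal.ofReal_mul (by positivity)] at h2
  -- rearrangement of the coordinates
  set g : Mark Ω → (I × I) × (I × Ω) := fun e => ((e.1.1, e.1.2.1), (e.1.2.2, e.2)) with hg
  have hgm : Measurable g := by
    rw [hg]
    fun_prop
  have h3 : ((volume : Measure (I × I × I)).prod P).map g =
      ((volume : Measure I).prod (volume : Measure I)).prod ((volume : Measure I).prod P) := by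
    have a1 := measurePreserving_prodAssoc (volume : Measure I)
      ((volume : Measure I).prod (volume : Measure I)) P
    have a2 := (MeasurePreserving.id (volume : Measure I)).prod
      (measurePreserving_prodAssoc (volume : Measure I) (volume : Measure I) P)
    have a3 := (measurePreserving_prodAssoc (volume : Measure I) (volume : Measure I)
      ((volume : Measure I).prod P)).symm
    exact ((a3.comp a2).comp a1).map_eq
  have h4 : (placeC i : Mark Ω → ℂ × ℝ × Ω) = (Prod.map (rootC i)
      (Prod.map (fun x => (side i) ^ 2 * dur x) id)) ∘ g := by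
    funext e
    rfl
  rw [h4, ← Measure.map_map ((measurable_rootC i).prodMap
    ((measurable_dur.const_mul ((side i) ^ 2)).prodMap measurable_id)) hgm, h3, ← h2]
  rw [ProbabilityTheory.cond, lam_inl]
  have h5 : part Ω (Sum.inl i) = sqC i ×ˢ
    (Ico ((side i) ^ 2) (4 * (side i) ^ 2) ×ˢ (univ : Set Ω)) := by
    rw [side_sq]
    rfl
  have h6 : (lam P).restrict (part Ω (Sum.inl i)) = (volume.restrict (sqC i)).prod
      ((tauM.restrict (Ico ((side i) ^ 2) (4 * (side i) ^ 2))).prod P) := by
    rw [h5]
    show ((volume : Measure ℂ).prod (tauM.prod P)).restrict _ = _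
    rw [← Measure.prod_restrict, ← Measure.prod_restrict, Measure.restrict_univ]
  rw [h6, ← ENNReal.ofReal_inv_of_pos (by positivity)]
  congr 2
  field_simp

end Pool.Agent.Helper3.CD
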