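import Mathlib
import Pool.Agent.Helper16.CD.Stmt
import Pool.Agent.Helper3.CD.T3
import Pool.Agent.Helper3.CD.Marks
import Pool.Agent.Helper3.CD.Indep
import Pool.Agent.Helper3.CD.Empty
import Pool.Agent.Helper3.CD.First

/-!
# CD transfer: the event for the loop soup on the partition
-/

set_option autoImplicit false

open MeasureTheory ProbabilityTheory Set
open scoped NNReal ENNReal unitInterval

namespace Pool.Agent.Helper3.CD

open Pool.Agent.Helper16.CD

variable {Ω : Type} [MeasurableSpace Ω]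

/-- left inverse of `placeC i` -/
noncomputable def unplace (i : Idx) (p : ℂ × ℝ × Ω) : Mark Ω :=
  ((projIcc 0 1 zero_le_one (p.1.re / side i - i.2.1),
    projIcc 0 1 zero_le_one (p.1.im / side i - i.2.2),
    projIcc 0 1 zero_le_one (4 / 3 * (1 - (side i) ^ 2 / p.2.1))), p.2.2)

omit [MeasurableSpace Ω] in
lemma unplace_place (i : Idx) (e : Mark Ω) : unplace i (placeC i e) = e := by
  have hs := side_pos i
  obtain ⟨⟨u, v, x⟩, ω⟩ := e
  have h1 : (side i * (i.2.1 + (u : ℝ))) / side i - i.2.1 = u := by field_simp; ring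
  have h2 : (side i * (i.2.2 + (v : ℝ))) / side i - i.2.2 = v := by field_simp; ring
  have h3 : 4 / 3 * (1 - (side i) ^ 2 / ((side i) ^ 2 * dur x)) = x := by
    have h4 : 0 < 1 - 3 / 4 * (x : ℝ) := by nlinarith [x.2.1, x.2.2]
    unfold dur
    field_simp
    ring
  have h5 : ∀ (a : ℝ) (y : I), a = y → projIcc 0 1 zero_le_one a = y := by
    rintro a y rfl
    exact projIcc_val _ _
  simp only [unplace, placeC, rootC, Prod.mk.injEq, and_true]
  exact ⟨h5 _ _ h1, h5 _ _ h2, h5 _ _ h3⟩

omit [MeasurableSpace Ω] in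
lemma place_unplace (i : Idx) (p : ℂ × ℝ × Ω) (hp : p ∈ part Ω (Sum.inl i)) :
    placeC i (unplace i p) = p := by
  have hs := side_pos i
  obtain ⟨z, t, ω⟩ := p
  obtain ⟨⟨a1, a2, a3, a4⟩, ⟨b1, b2⟩, _⟩ := hp
  simp only at a1 a2 a3 a4 b1 b2
  rw [← side_sq] at b1 b2
  have ha : 0 < (side i) ^ 2 := by positivity
  have ht : 0 < t := lt_of_lt_of_le ha b1
  have h1 : z.re / side i - i.2.1 ∈ Icc (0 : ℝ) 1 := by
    constructor
    · rw [sub_nonneg, le_div_iff₀ hs]
      linarith
    · rw [sub_le_iff_le_add, div_le_iff₀ hs]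
      linarith
  have h2 : z.im / side i - i.2.2 ∈ Icc (0 : ℝ) 1 := by
    constructor
    · rw [sub_nonneg, le_div_iff₀ hs]
      linarith
    · rw [sub_le_iff_le_add, div_le_iff₀ hs]
      linarith
  have h3 : 4 / 3 * (1 - (side i) ^ 2 / t) ∈ Icc (0 : ℝ) 1 := by
    constructor
    · have : (side i) ^ 2 / t ≤ 1 := (div_le_one ht).2 b1
      linarith
    · have : 1 / 4 < (side i) ^ 2 / t := by
        rw [div_lt_div_iff₀ (by norm_num) ht]
        linarith
      linarith
  simp only [placeC, unplace, rootC, dur, projIcc_of_mem _ h1, projIcc_of_mem _ h2,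
    projIcc_of_mem _ h3, Prod.mk.injEq, and_true]
  refine ⟨?_, ?_⟩
  · apply Complex.ext
    · show side i * (i.2.1 + (z.re / side i - i.2.1)) = z.re
      field_simp
      ring
    · show side i * (i.2.2 + (z.im / side i - i.2.2)) = z.im
      field_simp
      ring
  · have : 1 - 3 / 4 * (4 / 3 * (1 - (side i) ^ 2 / t)) = (side i) ^ 2 / t := by ring
    rw [this]
    field_simp

lemma measurable_unplace (i : Idx) : Measurable (unplace i : ℂ × ℝ × Ω → Mark Ω) := by
  have h : Measurable (projIcc (0 : ℝ) 1 zero_le_one) := continuous_projIcc.measurable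
  unfold unplace
  refine Measurable.prodMk (Measurable.prodMk (h.comp ?_) (Measurable.prodMk (h.comp ?_)
    (h.comp ?_))) (by fun_prop)
  · exact ((Complex.measurable_re.comp measurable_fst).div_const _).sub_const _
  · exact ((Complex.measurable_im.comp measurable_fst).div_const _).sub_const _
  · exact ((measurable_const.div (measurable_fst.comp measurable_snd)).const_sub _).const_mul _

lemma measurableSet_sqC (i : Idx) : MeasurableSet (sqC i) := by
  have h1 := Complex.measurable_re
  have h2 := Complex.measurable_im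
  exact (measurableSet_le measurable_const h1).inter ((measurableSet_lt h1 measurable_const).inter
    ((measurableSet_le measurable_const h2).inter (measurableSet_lt h2 measurable_const)))

lemma measurableSet_part (i : Idx ⊕ (ℤ × ℤ)) : MeasurableSet (part Ω i) := by
  rcases i with i | v
  · exact (measurableSet_sqC i).prod (measurableSet_Ico.prod MeasurableSet.univ)
  · exact (measurableSet_sqC _).prod (measurableSet_Ici.prod MeasurableSet.univ)

variable (P : Measure Ω) [IsProbabilityMeasure P]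

lemma lam_part_ne_zero (i : Idx ⊕ (ℤ × ℤ)) : lam P (part Ω i) ≠ 0 := by
  have hpi := Real.pi_pos
  rcases i with i | v
  · rw [lam_inl]
    exact (ENNReal.ofReal_pos.2 (by positivity)).ne'
  · rw [lam_inr]
    exact (ENNReal.ofReal_pos.2 (by positivity)).ne'

lemma lam_part_ne_top (i : Idx ⊕ (ℤ × ℤ)) : lam P (part Ω i) ≠ ∞ := by
  rcases i with i | v
  · rw [lam_inl]
    exact ENNReal.ofReal_ne_top
  · rw [lam_inr]
    exact ENNReal.ofReal_ne_top

instance (i : Idx ⊕ (ℤ × ℤ)) : IsProbabilityMeasure ((lam P)[|part Ω i]) :=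
  cond_isProbabilityMeasure_of_finite (lam_part_ne_zero P i) (lam_part_ne_top P i)

instance (c : ℝ≥0) : IsProbabilityMeasure (loopSoup c P) := by
  unfold loopSoup
  infer_instance

/-- almost surely all present points are in their parts -/
theorem loopSoup_part (c : ℝ≥0) :
    loopSoup c P {w | ∃ p ∈ Sp w, p.2 ∈ (part Ω p.1)ᶜ} = 0 := by
  refine le_antisymm ((prob_exists_le _ _ (fun i => (part Ω i)ᶜ)
    (fun i => (measurableSet_part i).compl)).trans ?_) (by simp)
  have h : ∀ i, (lam P)[|part Ω i] (part Ω i)ᶜ = 0 := by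
    intro i
    rw [cond_apply (measurableSet_part i)]
    simp
  simp [h]

/-- the law of the standard part -/
theorem loopSoup_inl (c : ℝ≥0) (A : Set (Conf (Mark Ω))) (hA : MeasurableSet A) :
    loopSoup c P {w | mapMarks unplace (fun i => w (Sum.inl i)) ∈ A} =
      law (c * (ENNReal.ofReal (3 / (8 * Real.pi))).toNNReal)
        ((volume : Measure (I × I × I)).prod P) A := by
  have h1 := map_comp_inj (E := ℂ × ℝ × Ω) (fun i => c * (lam P (part Ω i)).toNNReal)
    (fun i => (lam P)[|part Ω i]) (Sum.inl : Idx → Idx ⊕ (ℤ × ℤ)) Sum.inl_injective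
  have h2 : MeasurableSet {w : Cfg Idx (ℂ × ℝ × Ω) | mapMarks unplace w ∈ A} :=
    (measurable_mapMarks unplace measurable_unplace) hA
  have h3 : loopSoup c P {w | mapMarks unplace (fun i => w (Sum.inl i)) ∈ A} =
      (loopSoup c P).map (fun w (i : Idx) => w (Sum.inl i)) {w | mapMarks unplace w ∈ A} := by
    rw [Measure.map_apply (by fun_prop) h2]
    rfl
  have h4 : (loopSoup c P).map (fun w (i : Idx) => w (Sum.inl i)) =
      soup (fun _ : Idx => c * (ENNReal.ofReal (3 / (8 * Real.pi))).toNNReal)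
        (fun i => ((volume : Measure (I × I × I)).prod P).map (placeC i)) := by
    unfold loopSoup
    rw [h1]
    congr 1
    · funext i
      rw [lam_inl]
    · funext i
      rw [cond_inl]
  rw [h3, h4, ← soup_map_marks _ _ _ (fun i => measurable_placeC i),
    Measure.map_apply (measurable_mapMarks _ (fun i => measurable_placeC i)) h2]
  congr 1
  ext w
  have h5 : mapMarks unplace (mapMarks (fun i => placeC i) w) = w := by
    funext i
    simp only [mapMarks, unplace_place]
  show mapMarks unplace (mapMarks (fun i => placeC i) w) ∈ A ↔ w ∈ A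
  rw [h5]

/-- the cells of the long loops near the disc -/
def nearC : Finset (Idx ⊕ (ℤ × ℤ)) :=
  {Sum.inr (0, 0), Sum.inr (0, -1), Sum.inr (-1, 0), Sum.inr (-1, -1)}

/-- the event for the loop soup on the partition -/
theorem exists_event (c : ℝ≥0) (A : Set (Conf (Mark Ω))) (hA : MeasurableSet A)
    (hpos : 0 < law (c * (ENNReal.ofReal (3 / (8 * Real.pi))).toNNReal)
        ((volume : Measure (I × I × I)).prod P) A) :
    ∃ A' : Set (Cfg (Idx ⊕ (ℤ × ℤ)) (ℂ × ℝ × Ω)), MeasurableSet A' ∧ 0 < loopSoup c P A' ∧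
      ∀ w ∈ A', mapMarks unplace (fun i => w (Sum.inl i)) ∈ A ∧
        (∀ p ∈ Sp w, p.2 ∈ part Ω p.1) ∧ ∀ i ∈ nearC, (w i).1 = 0 := by
  set S : Set (Cfg (Idx ⊕ (ℤ × ℤ)) (ℂ × ℝ × Ω)) :=
    {w | mapMarks unplace (fun i => w (Sum.inl i)) ∈ A} with hS
  set T : Set (Cfg (Idx ⊕ (ℤ × ℤ)) (ℂ × ℝ × Ω)) := {w | ∀ i ∈ nearC, (w i).1 = 0} with hT
  set B : Set (Cfg (Idx ⊕ (ℤ × ℤ)) (ℂ × ℝ × Ω)) := {w | ∃ p ∈ Sp w, p.2 ∈ (part Ω p.1)ᶜ} with hB
  have hSm : MeasurableSet S := by
    have h1 : Measurable fun (w : Cfg (Idx ⊕ (ℤ × ℤ)) (ℂ × ℝ × Ω)) (i : Idx) => w (Sum.inl i) := by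
      fun_prop
    exact ((measurable_mapMarks unplace measurable_unplace).comp h1) hA
  have hTm : MeasurableSet T := by
    have h1 : T = ⋂ i ∈ nearC, {w : Cfg (Idx ⊕ (ℤ × ℤ)) (ℂ × ℝ × Ω) | (w i).1 = 0} := by
      ext w
      simp [hT]
    rw [h1]
    refine Finset.measurableSet_biInter _ fun i _ => ?_
    exact (measurable_fst.comp (measurable_pi_apply i)) (measurableSet_singleton 0)
  have hBm : MeasurableSet B :=
    measurableSet_exists (fun i => (part Ω i)ᶜ) fun i => (measurableSet_part i).compl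
  refine ⟨(S ∩ T) \ B, (hSm.inter hTm).diff hBm, ?_, ?_⟩
  · rw [measure_sdiff_null (loopSoup_part P c)]
    have h1 : loopSoup c P (S ∩ T) = loopSoup c P S * loopSoup c P T := by
      refine indep_sets _ _ (range Sum.inl) (range Sum.inr) ?_ S T hSm hTm ?_ ?_
      · rw [Set.disjoint_left]
        rintro _ ⟨a, rfl⟩ ⟨b, h⟩
        exact absurd h (by simp)
      · intro w w' h
        have h2 : (fun i : Idx => w (Sum.inl i)) = fun i => w' (Sum.inl i) := by
          funext i
          exact h _ (mem_range_self i)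
        show mapMarks unplace (fun i => w (Sum.inl i)) ∈ A ↔
          mapMarks unplace (fun i => w' (Sum.inl i)) ∈ A
        rw [h2]
      · intro w w' h
        have h2 : ∀ i ∈ nearC, w i = w' i := by
          intro i hi
          refine h i ?_
          simp only [nearC, Finset.mem_insert, Finset.mem_singleton] at hi
          rcases hi with rfl | rfl | rfl | rfl <;> exact mem_range_self _
        show (∀ i ∈ nearC, (w i).1 = 0) ↔ ∀ i ∈ nearC, (w' i).1 = 0
        exact forall₂_congr fun i hi => by rw [h2 i hi]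
    rw [h1, loopSoup_inl P c A hA]
    refine ENNReal.mul_pos hpos.ne' ?_
    exact (prob_empty_pos _ _ nearC).ne'
  · rintro w ⟨⟨h1, h2⟩, h3⟩
    refine ⟨h1, fun p hp => ?_, h2⟩
    by_contra h4
    exact h3 ⟨p, hp, h4⟩

end Pool.Agent.Helper3.CD
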