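import Mathlib
import Pool.Agent.Helper16.CD.Stmt
import Pool.Agent.Helper3.CD.T4
import Pool.Agent.Helper3.CD.T5

/-!
# CD transfer: the final statement from the statement for the abstract soup
-/

set_option autoImplicit false

open MeasureTheory ProbabilityTheory Set
open scoped NNReal ENNReal unitInterval

namespace Pool.Agent.Helper3.CD

open Pool.Agent.Helper16.CD

/-- the statement for the abstract soup -/
def LawStmt : Prop :=
  ∀ (E : Type) [MeasurableSpace E] (ν : Measure E) (sh : E → Set Plane), IsShape ν sh →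
    ∃ r₀ : ℝ≥0, 0 < r₀ ∧ ∀ r : ℝ≥0, 0 < r → r < r₀ →
      ∃ A : Set (Conf E), MeasurableSet A ∧ 0 < law r ν A ∧
        ∀ w ∈ A, ∃ (Y : Type) (_ : MetricSpace Y) (f : Xs sh w → Y),
          IsQS f ∧ dimH (univ : Set Y) < dimH (Xs sh w)

/-- the standard Brownian shapes -/
def BrownShape : Prop :=
  ∀ (Ω : Type) [MeasurableSpace Ω] (P : Measure Ω) [IsProbabilityMeasure P]
    (B₁ B₂ : ℝ≥0 → Ω → ℝ), IsPlanarBM P B₁ B₂ →
    IsShape ((volume : Measure (I × I × I)).prod P) (shapeB B₁ B₂)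

/-- quasisymmetric maps after the identification of `ℂ` with the plane -/
theorem isQS_toP {Y : Type} [MetricSpace Y] (s : Set ℂ) (s' : Set Plane) (hs : toP '' s = s')
    (f : s' → Y) (hf : IsQS f) : ∃ g : s → Y, IsQS g := by
  subst hs
  obtain ⟨h1, η, h2⟩ := hf
  refine ⟨f ∘ (toP.image s), h1.comp (toP.image s).isHomeomorph,
    (Homeomorph.mulLeft₀ (2 : ℝ≥0) two_ne_zero).trans η, fun x a b t h => ?_⟩
  show nndist (f (toP.image s x)) (f (toP.image s a)) ≤ η (2 * t) * _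
  refine h2 _ _ _ _ ?_
  have h3 : nndist (toP.image s x) (toP.image s a) ≤ nndist x a := dist_toP_le x a
  have h4 : nndist x b ≤ 2 * nndist (toP.image s x) (toP.image s b) := dist_le_toP x b
  calc nndist (toP.image s x) (toP.image s a) ≤ nndist x a := h3
    _ ≤ t * nndist x b := h
    _ ≤ t * (2 * nndist (toP.image s x) (toP.image s b)) := mul_le_mul_right h4 _
    _ = 2 * t * nndist (toP.image s x) (toP.image s b) := by ring

variable {Ω : Type} [MeasurableSpace Ω]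

omit [MeasurableSpace Ω] in
theorem toP_brownLoop (B₁ B₂ : ℝ≥0 → Ω → ℝ) (i : Idx) (e : Mark Ω) :
    toP '' brownLoop B₁ B₂ (placeC i e) = Helper16.CD.lp (shapeB B₁ B₂) (i, e) := by
  have hs := side_pos i
  have h1 : √((side i) ^ 2 * dur e.1.2.2) = side i * √(dur e.1.2.2) := by
    rw [Real.sqrt_mul (by positivity), Real.sqrt_sq hs.le]
  unfold brownLoop Helper16.CD.lp shapeB
  rw [← range_comp, ← range_comp]
  congr 1
  funext s
  simp only [Function.comp, toP_apply, placeC, pos, rootC, h1]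
  refine Prod.ext ?_ ?_
  · simp
    ring
  · simp
    ring

omit [MeasurableSpace Ω] in
theorem root_mem_brownLoop (B₁ B₂ : ℝ≥0 → Ω → ℝ) (q : ℂ × ℝ × Ω) :
    q.1 ∈ brownLoop B₁ B₂ q := by
  refine ⟨0, ?_⟩
  have h : ∀ B : ℝ≥0 → Ω → ℝ, bridge B q.2.2 0 = 0 := by
    intro B
    simp [bridge]
  simp only [h]
  have : (⟨0, 0⟩ : ℂ) = 0 := rfl
  rw [this, mul_zero, add_zero]

omit [MeasurableSpace Ω] in
theorem image_loopsC (B₁ B₂ : ℝ≥0 → Ω → ℝ) (w : Cfg (Idx ⊕ (ℤ × ℤ)) (ℂ × ℝ × Ω))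
    (h2 : ∀ p ∈ Sp w, p.2 ∈ part Ω p.1) (h3 : ∀ i ∈ nearC, (w i).1 = 0) :
    (fun L => toP '' L) '' (loopsC B₁ B₂ w) =
      loopsIn (shapeB B₁ B₂) (mapMarks unplace (fun i => w (Sum.inl i))) := by
  ext L
  constructor
  · rintro ⟨K, ⟨⟨i, q⟩, hp, rfl, hK⟩, rfl⟩
    rcases i with i | v
    · have h4 := place_unplace i q (h2 _ hp)
      refine ⟨(i, unplace i q), ?_, ?_, ?_⟩
      · rw [mem_Sp_mapMarks]
        exact ⟨q, hp, rfl⟩
      · show toP '' brownLoop B₁ B₂ q = _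
        rw [← toP_brownLoop, h4]
      · exact (toP_ball_subset _).2 hK
    · exfalso
      obtain ⟨⟨a1, a2, a3, a4⟩, _⟩ := h2 _ hp
      have h5 := hK (root_mem_brownLoop B₁ B₂ q)
      rw [Metric.mem_ball, dist_zero_right] at h5
      have h6 := (Complex.abs_re_le_norm q.1).trans_lt h5
      have h7 := (Complex.abs_im_le_norm q.1).trans_lt h5
      rw [abs_lt] at h6 h7
      have h8 : side (0, v) = 1 := by simp [side]
      simp only [h8, one_mul] at a1 a2 a3 a4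
      have b1 : (v.1 : ℝ) < 1 := by linarith
      have b2 : (-2 : ℝ) < v.1 := by linarith
      have b3 : (v.2 : ℝ) < 1 := by linarith
      have b4 : (-2 : ℝ) < v.2 := by linarith
      have c1 : v.1 < 1 := by exact_mod_cast b1
      have c2 : -2 < v.1 := by exact_mod_cast b2
      have c3 : v.2 < 1 := by exact_mod_cast b3
      have c4 : -2 < v.2 := by exact_mod_cast b4
      have h9 : Sum.inr v ∈ nearC := by
        obtain ⟨v1, v2⟩ := v
        simp only at c1 c2 c3 c4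
        simp only [nearC, Finset.mem_insert, Finset.mem_singleton, Sum.inr.injEq, Prod.mk.injEq]
        omega
      obtain ⟨j, hj, _⟩ := hp
      rw [h3 _ h9] at hj
      exact absurd hj (Nat.not_lt_zero _)
  · rintro ⟨⟨i, e⟩, hp, rfl, hK⟩
    rw [mem_Sp_mapMarks] at hp
    obtain ⟨q, hq, he⟩ := hp
    simp only at he
    subst he
    have h4 := place_unplace i q (h2 (Sum.inl i, q) hq)
    have h5 := toP_brownLoop B₁ B₂ i (unplace i q)
    rw [h4] at h5
    refine ⟨brownLoop B₁ B₂ q, ⟨(Sum.inl i, q), hq, rfl, ?_⟩, h5⟩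
    rw [← toP_ball_subset, h5]
    exact hK

omit [MeasurableSpace Ω] in
theorem image_carpetC (B₁ B₂ : ℝ≥0 → Ω → ℝ) (w : Cfg (Idx ⊕ (ℤ × ℤ)) (ℂ × ℝ × Ω))
    (h2 : ∀ p ∈ Sp w, p.2 ∈ part Ω p.1) (h3 : ∀ i ∈ nearC, (w i).1 = 0) :
    toP '' (carpetC B₁ B₂ w) =
      Xs (shapeB B₁ B₂) (mapMarks unplace (fun i => w (Sum.inl i))) := by
  unfold carpetC Xs
  rw [← carpet_image toP bounded_toP, toP_closedBall, image_loopsC B₁ B₂ w h2 h3]

/-- the final statement from the statement for the abstract soup -/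
theorem final_of_law (hL : LawStmt) (hS : BrownShape) : Final := by
  intro Ω _ P _ B₁ B₂ hB
  obtain ⟨r₀, hr₀, h⟩ := hL _ _ _ (hS Ω P B₁ B₂ hB)
  have hk : (0 : ℝ≥0) < (ENNReal.ofReal (3 / (8 * Real.pi))).toNNReal := by
    rw [ENNReal.toNNReal_pos_iff]
    exact ⟨ENNReal.ofReal_pos.2 (by have := Real.pi_pos; positivity), ENNReal.ofReal_lt_top⟩
  set k : ℝ≥0 := (ENNReal.ofReal (3 / (8 * Real.pi))).toNNReal with hkd
  refine ⟨r₀ / k, by positivity, fun c hc hc' => ?_⟩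
  obtain ⟨A, hA, hpos, hw⟩ := h (c * k) (by positivity) ((lt_div_iff₀ hk).1 hc')
  obtain ⟨A', hA', hpos', hw'⟩ := exists_event P c A hA hpos
  refine ⟨A', hA', hpos', fun w hwA => ?_⟩
  obtain ⟨h1, h2, h3⟩ := hw' w hwA
  obtain ⟨Y, mY, f, hf, hd⟩ := hw _ h1
  have h4 := image_carpetC B₁ B₂ w h2 h3
  obtain ⟨g, hg⟩ := isQS_toP _ _ h4 f hf
  refine ⟨Y, mY, g, hg, ?_⟩
  rw [← dimH_toP, h4]
  exact hd

end Pool.Agent.Helper3.CD
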