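import Mathlib

/-!
# CD-S1: the increments over a grid are near prescribed values with positive probability

PROOF. `hB.hasIndepIncrements.nat` with the monotone sequence `t j = j / n`: the increments
`B ((j+1)/n) - B (j/n)` are `iIndepFun`; `iIndepFun.meas_biInter` (or
`iIndepFun_iff_measure_inter_preimage_eq_mul`) over `Finset.range m`: the probability is the product
of the `P {|B ((j+1)/n) - B (j/n) - a j| < δ}`; each is positive because the increment has law
`gaussianReal 0 (1/n)` (`hB.hasLaw_sub`), and `volume ≪ gaussianReal 0 v` for `v ≠ 0`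
(`gaussianReal_absolutelyContinuous'`), the open interval `Ioo (a j - δ) (a j + δ)` has positive
volume.
-/

set_option autoImplicit false

open MeasureTheory ProbabilityTheory Set
open scoped NNReal ENNReal

namespace Pool.Agent.Helper3.CD

variable {Ω : Type} [MeasurableSpace Ω] {P : Measure Ω} {B : ℝ≥0 → Ω → ℝ}

private theorem gauss_pos (v : ℝ≥0) (hv : v ≠ 0) (c δ : ℝ) (hδ : 0 < δ) :
    0 < gaussianReal 0 v (Ioo (c - δ) (c + δ)) := by
  rw [pos_iff_ne_zero]
  intro h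
  have h1 := gaussianReal_absolutelyContinuous' 0 hv h
  rw [Real.volume_Ioo, ENNReal.ofReal_eq_zero] at h1
  linarith

theorem grid_pos (hB : IsPreBrownianReal B P) (n : ℕ) (hn : 0 < n) (m : ℕ) (a : ℕ → ℝ) (δ : ℝ)
    (hδ : 0 < δ) :
    0 < P {ω | ∀ j < m, |B (((j + 1 : ℕ) : ℝ≥0) / n) ω - B ((j : ℝ≥0) / n) ω - a j| < δ} := by
  have hn' : (n : ℝ≥0) ≠ 0 := by
    exact_mod_cast hn.ne'
  have hmono : Monotone (fun j : ℕ => (j : ℝ≥0) / n) := by
    intro i j hij
    have : (i : ℝ≥0) ≤ j := by exact_mod_cast hij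
    exact div_le_div_of_nonneg_right this zero_le
  have hind := hB.hasIndepIncrements.nat hmono
  have hset : {ω | ∀ j < m, |B (((j + 1 : ℕ) : ℝ≥0) / n) ω - B ((j : ℝ≥0) / n) ω - a j| < δ} =
      ⋂ j ∈ Finset.range m, (fun ω => B (((j + 1 : ℕ) : ℝ≥0) / n) ω - B ((j : ℝ≥0) / n) ω) ⁻¹'
        Ioo (a j - δ) (a j + δ) := by
    ext ω
    simp only [mem_ofPred_eq, mem_iInter, Finset.mem_range, mem_preimage, mem_Ioo]
    refine forall₂_congr fun j _ => ?_
    rw [abs_lt]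
    constructor
    · rintro ⟨h1, h2⟩
      exact ⟨by linarith, by linarith⟩
    · rintro ⟨h1, h2⟩
      exact ⟨by linarith, by linarith⟩
  rw [hset, hind.meas_biInter (S := Finset.range m) (s := fun j =>
    (fun ω => B (((j + 1 : ℕ) : ℝ≥0) / n) ω - B ((j : ℝ≥0) / n) ω) ⁻¹' Ioo (a j - δ) (a j + δ))
    (fun j _ => ⟨Ioo (a j - δ) (a j + δ), measurableSet_Ioo, rfl⟩)]
  rw [pos_iff_ne_zero, Finset.prod_ne_zero_iff]
  intro j _
  have hl := hB.hasLaw_sub (((j + 1 : ℕ) : ℝ≥0) / n) ((j : ℝ≥0) / n)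
  have hne : nndist (((j + 1 : ℕ) : ℝ≥0) / n : ℝ≥0).1 ((j : ℝ≥0) / n : ℝ≥0).1 ≠ 0 := by
    rw [Ne, nndist_eq_zero]
    intro h
    have h2 : (((j + 1 : ℕ) : ℝ≥0) / n : ℝ≥0) = ((j : ℝ≥0) / n : ℝ≥0) := NNReal.eq h
    rw [div_left_inj' hn'] at h2
    have h3 : j + 1 = j := by exact_mod_cast h2
    omega
  have hpos := gauss_pos _ hne (a j) δ hδ
  rw [← hl.map_eq, Measure.map_apply_of_aemeasurable hl.aemeasurable measurableSet_Ioo] at hpos
  exact hpos.ne'

end Pool.Agent.Helper3.CD
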