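import Mathlib

/-!
# CD-S2: the residual of the piecewise linear interpolation is independent of the grid values

`gi n t = ⌊n t⌋₊`, `lamb n t = n t - ⌊n t⌋₊`.

PROOF. As in the proof of `IsPreBrownianReal.indepFun_shift` (Mathlib/Probability/BrownianMotion/Basic):
`IsGaussianProcess.indepFun_of_covariance_eq_zero`; the joint process is Gaussian by
`IsGaussianProcess.of_isGaussianProcess` (each variable is a linear function of at most three values
of `B`). Covariance: with `i = gi n t`, `l = lamb n t`, so `t = (i + l) / n`: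
`min t (j/n) - (1 - l) min (i/n) (j/n) - l min ((i+1)/n) (j/n) = 0`, in the case `j ≤ i` because all
minima are `j/n`, in the case `i + 1 ≤ j` because they are `t`, `i/n`, `(i+1)/n`.
`memLp_two` from `hasGaussianLaw_eval`.
-/

set_option autoImplicit false

open MeasureTheory ProbabilityTheory Set
open scoped NNReal ENNReal

namespace Pool.Agent.Helper3.CD

variable {Ω : Type} [MeasurableSpace Ω] {P : Measure Ω} {B : ℝ≥0 → Ω → ℝ}

/-- grid index below `t` -/
noncomputable def gi (n : ℕ) (t : ℝ≥0) : ℕ := ⌊(n : ℝ≥0) * t⌋₊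

/-- interpolation parameter -/
noncomputable def lamb (n : ℕ) (t : ℝ≥0) : ℝ := (n : ℝ) * t - gi n t

/-- `B` minus its piecewise linear interpolation with grid `j / n` -/
noncomputable def resid (B : ℝ≥0 → Ω → ℝ) (n : ℕ) (t : ℝ≥0) (ω : Ω) : ℝ :=
  B t ω - ((1 - lamb n t) * B ((gi n t : ℝ≥0) / n) ω +
    lamb n t * B (((gi n t + 1 : ℕ) : ℝ≥0) / n) ω)

lemma lamb_nonneg (n : ℕ) (t : ℝ≥0) : 0 ≤ lamb n t := by
  have h : ((⌊(n : ℝ≥0) * t⌋₊ : ℝ≥0)) ≤ (n : ℝ≥0) * t := Nat.floor_le (by positivity)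
  have h' : ((⌊(n : ℝ≥0) * t⌋₊ : ℝ≥0) : ℝ) ≤ ((n : ℝ≥0) * t : ℝ≥0) := by exact_mod_cast h
  unfold lamb gi
  push_cast at h'
  linarith

lemma lamb_le_one (n : ℕ) (t : ℝ≥0) : lamb n t ≤ 1 := by
  have h : (n : ℝ≥0) * t < (⌊(n : ℝ≥0) * t⌋₊ : ℝ≥0) + 1 := Nat.lt_floor_add_one _
  have h' : (((n : ℝ≥0) * t : ℝ≥0) : ℝ) < ((⌊(n : ℝ≥0) * t⌋₊ : ℝ≥0) + 1 : ℝ≥0) := by
    exact_mod_cast h
  unfold lamb gi
  push_cast at h'
  linarith

theorem resid_indep (hB : IsPreBrownianReal B P) (n : ℕ) (hn : 0 < n) :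
    IndepFun (fun ω (t : ℝ≥0) => resid B n t ω) (fun ω (j : ℕ) => B ((j : ℝ≥0) / n) ω) P := by
  classical
  have mX t := hB.aemeasurable t
  have hP : IsProbabilityMeasure P := hB.isGaussianProcess.isProbabilityMeasure
  have hL t : MemLp (B t) 2 P := (hB.isGaussianProcess.hasGaussianLaw_eval t).memLp_two
  have hn0 : (0 : ℝ) < n := by exact_mod_cast hn
  have hn1 : (0 : ℝ≥0) < n := by exact_mod_cast hn
  apply IsGaussianProcess.indepFun_of_covariance_eq_zero
  · apply hB.isGaussianProcess.of_isGaussianProcess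
    rintro (t | j)
    · exact ⟨{t, (gi n t : ℝ≥0) / n, ((gi n t + 1 : ℕ) : ℝ≥0) / n},
        { toFun x := x ⟨t, by simp⟩ - ((1 - lamb n t) * x ⟨(gi n t : ℝ≥0) / n, by simp⟩ +
            lamb n t * x ⟨((gi n t + 1 : ℕ) : ℝ≥0) / n, by simp⟩)
          map_add' x y := by
            simp only [Pi.add_apply]
            ring
          map_smul' c x := by
            simp only [Pi.smul_apply, smul_eq_mul, RingHom.id_apply]
            ring }, fun ω => rfl⟩
    · exact ⟨{(j : ℝ≥0) / n},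
        { toFun x := x ⟨(j : ℝ≥0) / n, by simp⟩
          map_add' x y := by simp
          map_smul' c x := by simp }, fun ω => rfl⟩
  · intro t
    unfold resid
    fun_prop
  · intro j
    exact mX _
  · intro t j
    have e : resid B n t = fun ω => B t ω -
        ((1 - lamb n t) * B ((gi n t : ℝ≥0) / n) ω +
          lamb n t * B (((gi n t + 1 : ℕ) : ℝ≥0) / n) ω) := rfl
    have h1 : MemLp (fun ω => (1 - lamb n t) * B ((gi n t : ℝ≥0) / n) ω) 2 P :=
      (hL _).const_mul _
    have h2 : MemLp (fun ω => lamb n t * B (((gi n t + 1 : ℕ) : ℝ≥0) / n) ω) 2 P :=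
      (hL _).const_mul _
    have h3 : MemLp (fun ω => (1 - lamb n t) * B ((gi n t : ℝ≥0) / n) ω +
        lamb n t * B (((gi n t + 1 : ℕ) : ℝ≥0) / n) ω) 2 P := h1.add h2
    rw [e, covariance_fun_sub_left (hL t) h3 (hL _),
      show (fun ω => (1 - lamb n t) * B ((gi n t : ℝ≥0) / n) ω +
        lamb n t * B (((gi n t + 1 : ℕ) : ℝ≥0) / n) ω) =
        (fun ω => (1 - lamb n t) * B ((gi n t : ℝ≥0) / n) ω) +
        (fun ω => lamb n t * B (((gi n t + 1 : ℕ) : ℝ≥0) / n) ω) from rfl,
      covariance_add_left h1 h2 (hL _), covariance_const_mul_left, covariance_const_mul_left,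
      hB.covariance_eval, hB.covariance_eval, hB.covariance_eval]
    have hlow : ((gi n t : ℝ≥0)) ≤ (n : ℝ≥0) * t := Nat.floor_le (by positivity)
    have hup : (n : ℝ≥0) * t ≤ ((gi n t + 1 : ℕ) : ℝ≥0) := by
      push_cast
      exact (Nat.lt_floor_add_one _).le
    have hat : (gi n t : ℝ≥0) / n ≤ t := by
      rw [div_le_iff₀ hn1, mul_comm]
      exact hlow
    have htb : t ≤ ((gi n t + 1 : ℕ) : ℝ≥0) / n := by
      rw [le_div_iff₀ hn1, mul_comm]
      exact hup
    rcases Nat.lt_or_ge (gi n t) j with hj | hj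
    · have hbc : ((gi n t + 1 : ℕ) : ℝ≥0) / n ≤ (j : ℝ≥0) / n := by
        gcongr
        exact hj
      rw [min_eq_left (htb.trans hbc), min_eq_left ((hat.trans htb).trans hbc), min_eq_left hbc]
      unfold lamb
      push_cast
      field_simp
      ring
    · have hca : (j : ℝ≥0) / n ≤ (gi n t : ℝ≥0) / n := by
        gcongr
      rw [min_eq_right (hca.trans hat), min_eq_right hca, min_eq_right ((hca.trans hat).trans htb)]
      ring

end Pool.Agent.Helper3.CD
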