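import Mathlib
import Pool.Agent.Helper3.CD.S2

/-!
# CD-S3: the residual is small with positive probability

PROOF. `F k ε` = the set of `ω` such that `|B s ω - B t ω| ≤ ε` for all rational `s, t ≤ 2` with
`|s - t| ≤ 1 / (k + 1)`: it is measurable (countable intersection, use `ratN`), increasing in
`k`, and `⋃ k, F k ε = univ` by uniform continuity of the path on the compact set `[0, 2]`
(`IsCompact.uniformContinuousOn_of_continuous`). So `P (F k ε) → 1`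
(`tendsto_measure_iUnion_atTop`), hence `P (F k ε) > 0` for all large `k` (`P` is a probability
measure: `hB.isGaussianProcess.isProbabilityMeasure`). For `n ≥ k + 1` and `t ≤ 1`, on `F k ε` (the
bound extends to all `s, t` by continuity): `resid B n t ω = (1 - l) (B t - B (i/n)) + l (B t - B ((i+1)/n))`,
`|t - i/n| ≤ 1/n`, `|t - (i+1)/n| ≤ 1/n`, `(i+1)/n ≤ 2`.
-/

set_option autoImplicit false

open MeasureTheory ProbabilityTheory Set
open scoped NNReal ENNReal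

namespace Pool.Agent.Helper3.CD

variable {Ω : Type} [MeasurableSpace Ω] {P : Measure Ω} {B : ℝ≥0 → Ω → ℝ}

omit [MeasurableSpace Ω] in
private theorem S3_mono (ε : ℝ) : Monotone fun k : ℕ => {ω : Ω | ∀ s t : ℝ≥0, s ≤ 2 → t ≤ 2 →
    dist s t ≤ 1 / ((k : ℝ) + 1) → |B s ω - B t ω| ≤ ε} := by
  intro k l hkl ω hω s t hs ht hst
  refine hω s t hs ht (hst.trans ?_)
  have h1 : (k : ℝ) ≤ l := by exact_mod_cast hkl
  exact div_le_div_of_nonneg_left zero_le_one (by positivity) (by linarith)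

omit [MeasurableSpace Ω] in
private theorem S3_cover (hc : ∀ ω, Continuous fun t => B t ω) {ε : ℝ} (hε : 0 < ε) :
    (⋃ k : ℕ, {ω : Ω | ∀ s t : ℝ≥0, s ≤ 2 → t ≤ 2 →
      dist s t ≤ 1 / ((k : ℝ) + 1) → |B s ω - B t ω| ≤ ε}) = univ := by
  rw [Set.eq_univ_iff_forall]
  intro ω
  have h1 : UniformContinuousOn (fun t : ℝ≥0 => B t ω) (Icc 0 2) :=
    isCompact_Icc.uniformContinuousOn_of_continuous (hc ω).continuousOn
  rw [Metric.uniformContinuousOn_iff] at h1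
  obtain ⟨δ, hδ, h⟩ := h1 ε hε
  obtain ⟨k, hk⟩ := exists_nat_one_div_lt hδ
  refine mem_iUnion.2 ⟨k, fun s t hs ht hst => ?_⟩
  have h2 := h s ⟨zero_le, hs⟩ t ⟨zero_le, ht⟩ (hst.trans_lt hk)
  rw [Real.dist_eq] at h2
  exact h2.le

private theorem S3_grid {n : ℕ} (hn : 0 < n) (t : ℝ≥0) :
    (gi n t : ℝ) / n ≤ t ∧ (t : ℝ) < ((gi n t : ℝ) + 1) / n := by
  have hn' : (0 : ℝ) < n := by exact_mod_cast hn
  have h : ((⌊(n : ℝ≥0) * t⌋₊ : ℝ≥0)) ≤ (n : ℝ≥0) * t := Nat.floor_le (by positivity)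
  have h' : ((⌊(n : ℝ≥0) * t⌋₊ : ℝ≥0) : ℝ) ≤ ((n : ℝ≥0) * t : ℝ≥0) := by exact_mod_cast h
  have g : (n : ℝ≥0) * t < (⌊(n : ℝ≥0) * t⌋₊ : ℝ≥0) + 1 := Nat.lt_floor_add_one _
  have g' : (((n : ℝ≥0) * t : ℝ≥0) : ℝ) < ((⌊(n : ℝ≥0) * t⌋₊ : ℝ≥0) + 1 : ℝ≥0) := by
    exact_mod_cast g
  push_cast at h' g'
  unfold gi
  rw [div_le_iff₀ hn', lt_div_iff₀ hn']
  exact ⟨by linarith, by linarith⟩

theorem resid_small (hB : IsPreBrownianReal B P) (hm : ∀ t, Measurable (B t))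
    (hc : ∀ ω, Continuous fun t => B t ω) (ε : ℝ) (hε : 0 < ε) :
    ∃ n₀ : ℕ, ∀ n : ℕ, n₀ ≤ n → 0 < n → 0 < P {ω | ∀ t : ℝ≥0, t ≤ 1 → |resid B n t ω| ≤ ε} := by
  have hP : IsProbabilityMeasure P := hB.isGaussianProcess.isProbabilityMeasure
  have hlim := tendsto_measure_iUnion_atTop (μ := P) (S3_mono (B := B) ε)
  rw [S3_cover hc hε, measure_univ] at hlim
  obtain ⟨k, hk⟩ := (hlim.eventually (lt_mem_nhds zero_lt_one)).exists
  refine ⟨k + 1, fun n hn hn0 => lt_of_lt_of_le hk (measure_mono ?_)⟩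
  intro ω hω t ht
  have hn' : (0 : ℝ) < n := by exact_mod_cast hn0
  obtain ⟨h1, h2⟩ := S3_grid hn0 t
  have ht' : (t : ℝ) ≤ 1 := by exact_mod_cast ht
  have hk1 : (1 : ℝ) / n ≤ 1 / ((k : ℝ) + 1) := by
    have h3 : (k : ℝ) + 1 ≤ n := by exact_mod_cast hn
    exact div_le_div_of_nonneg_left zero_le_one (by positivity) h3
  have hn1 : (1 : ℝ) / n ≤ 1 := by
    rw [div_le_one hn']
    exact_mod_cast hn0
  have hadd : ((gi n t : ℝ) + 1) / n = (gi n t : ℝ) / n + 1 / n := add_div _ _ _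
  have c1 : (((gi n t : ℝ≥0) / n : ℝ≥0) : ℝ) = (gi n t : ℝ) / n := by push_cast; rfl
  have c2 : (((((gi n t + 1 : ℕ) : ℝ≥0) / n : ℝ≥0)) : ℝ) = ((gi n t : ℝ) + 1) / n := by
    push_cast; rfl
  have a1 : (gi n t : ℝ≥0) / n ≤ 2 := by
    rw [← NNReal.coe_le_coe, c1]
    push_cast
    linarith
  have a2 : ((gi n t + 1 : ℕ) : ℝ≥0) / n ≤ 2 := by
    rw [← NNReal.coe_le_coe, c2]
    push_cast
    linarith
  have at2 : t ≤ 2 := by
    rw [← NNReal.coe_le_coe]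
    push_cast
    linarith
  have b1 := hω t ((gi n t : ℝ≥0) / n) at2 a1 (by
    rw [NNReal.dist_eq, c1, abs_le]
    constructor
    · have : (0 : ℝ) ≤ 1 / ((k : ℝ) + 1) := by positivity
      linarith
    · linarith)
  have b2 := hω t (((gi n t + 1 : ℕ) : ℝ≥0) / n) at2 a2 (by
    rw [NNReal.dist_eq, c2, abs_le]
    constructor
    · linarith
    · have : (0 : ℝ) ≤ 1 / ((k : ℝ) + 1) := by positivity
      linarith)
  have l0 := lamb_nonneg n t
  have l1 := lamb_le_one n t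
  have e : resid B n t ω = (1 - lamb n t) * (B t ω - B ((gi n t : ℝ≥0) / n) ω) +
      lamb n t * (B t ω - B (((gi n t + 1 : ℕ) : ℝ≥0) / n) ω) := by
    unfold resid
    ring
  rw [e]
  rw [abs_le] at b1 b2 ⊢
  have l2 : 0 ≤ 1 - lamb n t := by linarith
  constructor
  · nlinarith [mul_le_mul_of_nonneg_left b1.1 l2, mul_le_mul_of_nonneg_left b2.1 l0]
  · nlinarith [mul_le_mul_of_nonneg_left b1.2 l2, mul_le_mul_of_nonneg_left b2.2 l0]

end Pool.Agent.Helper3.CD
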