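import Mathlib
import Pool.Agent.Helper3.CD.S1
import Pool.Agent.Helper3.CD.S2
import Pool.Agent.Helper3.CD.S3

/-!
# CD-S4: support theorem in dimension one

`ratN` is a countable dense set of times; `tube f ε` is a measurable set of paths.

PROOFS. `measurableSet_tube`: countable intersection. `tube_all`: density of `ratN ∩ [0, 1]` in
`[0, 1]` and continuity (for `t < 1` take times of `ratN` tending to `t` from above below `1`; `1 ∈ ratN`).
`support_one`: take `n ≥ 1` with `|f s - f t| ≤ ε / 4` for `s, t ≤ 2`, `|s - t| ≤ 1/n` (uniform continuity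
on `[0, 2]`) and `P {∀ t ≤ 1, |resid B n t| ≤ ε / 4} > 0` (`resid_small`); `δ = ε / (4 (n + 1))`.
Let `G` be the event of `grid_pos` with `m = n + 1`, `a j = f ((j+1)/n) - f (j/n)`, and `R` the
event `∀ t ∈ ratN, t ≤ 1 → |resid B n t| ≤ ε / 4`. `G` is a measurable event of `(B (j/n))_j`, `R` of
the residual process, so `P (G ∩ R) = P G * P R > 0` (`resid_indep`,
`IndepFun.measure_inter_preimage_eq_mul`). On `G`: `|B (j/n) - B 0 - f (j/n)| ≤ j δ ≤ ε / 4` for
`j ≤ n + 1` (induction, `f 0 = 0`). On `G ∩ R`, for `t ∈ ratN`, `t ≤ 1`, `i = gi n t ≤ n`, `l = lamb n t`: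
`B t - B 0 - f t = (1-l) (B (i/n) - B 0 - f (i/n)) + l (B ((i+1)/n) - B 0 - f ((i+1)/n)) + resid
+ ((1-l) (f (i/n) - f t) + l (f ((i+1)/n) - f t))`, in absolute value at most `3 ε / 4`.
-/

set_option autoImplicit false

open MeasureTheory ProbabilityTheory Set
open scoped NNReal ENNReal

namespace Pool.Agent.Helper3.CD

/-- the rational times -/
def ratN : Set ℝ≥0 := range fun p : ℕ × ℕ => (p.1 : ℝ≥0) / (p.2 + 1 : ℕ)

lemma countable_ratN : ratN.Countable := countable_range _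

/-- paths which follow `f` up to `ε` at the rational times of `[0, 1]` -/
def tube (f : ℝ≥0 → ℝ) (ε : ℝ) : Set (ℝ≥0 → ℝ) :=
  {x | ∀ t ∈ ratN, t ≤ 1 → |x t - x 0 - f t| ≤ ε}

theorem measurableSet_tube (f : ℝ≥0 → ℝ) (ε : ℝ) : MeasurableSet (tube f ε) := by
  sorry

theorem tube_all (f : ℝ≥0 → ℝ) (hf : Continuous f) (ε : ℝ) (x : ℝ≥0 → ℝ) (hx : Continuous x)
    (h : x ∈ tube f ε) (t : ℝ≥0) (ht : t ≤ 1) : |x t - x 0 - f t| ≤ ε := by
  sorry

variable {Ω : Type} [MeasurableSpace Ω] {P : Measure Ω} {B : ℝ≥0 → Ω → ℝ}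

theorem support_one (hB : IsPreBrownianReal B P) (hm : ∀ t, Measurable (B t))
    (hc : ∀ ω, Continuous fun t => B t ω) (f : ℝ≥0 → ℝ) (hf : Continuous f) (hf0 : f 0 = 0)
    (ε : ℝ) (hε : 0 < ε) : 0 < P {ω | (fun t => B t ω) ∈ tube f ε} := by
  sorry

end Pool.Agent.Helper3.CD
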