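import Mathlib
import Pool.Agent.Helper16.CD.Stmt
import Pool.Agent.Helper3.CD.S4

/-!
# CD-S5: the standard loop follows a given closed curve with positive probability

PROOF. `curveB B₁ B₂ e s` is the point of the loop of the mark `e` at time `s`;
`shapeB B₁ B₂ e = range (curveB B₁ B₂ e)` by definition. Let `M` be a bound of `dist (c s) (c 0)`, `s : I`.
Let `f₁ s = (c s).1 - (c 0).1`, `f₂ s = (c s).2 - (c 0).2`, extended to `ℝ≥0` by
`t ↦ f (projIcc 0 1 t)`; `f₁ 0 = f₁ 1 = 0`. By independence of the two processes (`h.indep`,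
`IndepFun.measure_inter_preimage_eq_mul`, `measurableSet_tube`) and `support_one`, the set `T` of the `ω`
with both paths in `tube f₁ (ε / 16)`, `tube f₂ (ε / 16)` has positive measure; on `T`
(`tube_all`, `f 1 = 0`): `|bridge B₁ ω s - f₁ s| ≤ ε / 8` for all `s : I`, same for `B₂`.
Let `U` be the set of `(u, v, x)` with `|u - (c 0).1| < ε / 8`, `|v - (c 0).2| < ε / 8`, `x < η`
where `η > 0` is such that `√(dur x) ≤ 1 + min 1 (ε / (8 (M + 1)))` for `x < η` (`dur` is continuous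
with `dur 0 = 1`, `1 ≤ dur x ≤ 4`). `U` is open and nonempty in `I × I × I` (`(c 0)` has coordinates in
`(0, 1)`), so it has positive volume. `(vol.prod P) (U ×ˢ T) = vol U * P T > 0` (`Measure.prod_prod`)
and for `e ∈ U ×ˢ T`: first coordinate: `|u + √(dur x) β - (c s).1| ≤ |u - (c 0).1| + √(dur x) |β - f₁ s|
+ (√(dur x) - 1) |f₁ s| < ε / 8 + 2 ε / 8 + ε / 8 < ε`.
-/

set_option autoImplicit false

open MeasureTheory ProbabilityTheory Set
open scoped NNReal ENNReal unitInterval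

namespace Pool.Agent.Helper3.CD

open Pool.Agent.Helper16.CD

variable {Ω : Type} [MeasurableSpace Ω] {P : Measure Ω}

/-- the standard loop of the mark `e` -/
noncomputable def curveB {Ω : Type} (B₁ B₂ : ℝ≥0 → Ω → ℝ) (e : Mark Ω) (s : I) : Plane :=
  ((e.1.1 : ℝ) + √(dur e.1.2.2) * bridge B₁ e.2 s,
    (e.1.2.1 : ℝ) + √(dur e.1.2.2) * bridge B₂ e.2 s)

lemma shapeB_eq {Ω : Type} (B₁ B₂ : ℝ≥0 → Ω → ℝ) (e : Mark Ω) :
    shapeB B₁ B₂ e = range (curveB B₁ B₂ e) := rfl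

private lemma openPos_unit : Measure.IsOpenPosMeasure (volume : Measure I) := by
  refine ⟨fun U hU hne => ?_⟩
  rw [unitInterval.volume_apply]
  obtain ⟨W, hW, rfl⟩ := isOpen_induced_iff.1 hU
  obtain ⟨x, hx⟩ := hne
  have hx' : (x : ℝ) ∈ closure (Ioo (0 : ℝ) 1) := by
    rw [closure_Ioo zero_ne_one]
    exact x.2
  obtain ⟨y, hy1, hy2⟩ := mem_closure_iff.1 hx' W hW hx
  have h1 : 0 < volume (W ∩ Ioo (0 : ℝ) 1) :=
    (hW.inter isOpen_Ioo).measure_pos volume ⟨y, hy1, hy2⟩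
  have h2 : W ∩ Ioo (0 : ℝ) 1 ⊆ Subtype.val '' (Subtype.val ⁻¹' W : Set I) := by
    rintro z ⟨hz1, hz2⟩
    exact ⟨⟨z, hz2.1.le, hz2.2.le⟩, hz1, rfl⟩
  exact (h1.trans_le (measure_mono h2)).ne'

private lemma one_le_dur (x : I) : 1 ≤ dur x := by
  unfold dur
  have h1 := x.2.1
  have h2 := x.2.2
  rw [le_div_iff₀ (by linarith)]
  linarith

private lemma continuous_dur : Continuous dur := by
  unfold dur
  refine continuous_const.div (by fun_prop) fun x => ?_
  have h2 := x.2.2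
  have : 0 < 1 - 3 / 4 * (x : ℝ) := by linarith
  exact this.ne'

omit [MeasurableSpace Ω] in
private lemma bridge_near {B : ℝ≥0 → Ω → ℝ} {ω : Ω} (hB : Continuous fun t => B t ω)
    (g : I → ℝ) (hg : Continuous g) (hg1 : g 1 = 0) {δ : ℝ}
    (h : (fun t => B t ω) ∈ tube (fun t : ℝ≥0 => g (projIcc 0 1 zero_le_one (t : ℝ))) δ)
    (s : I) : |bridge B ω s - g s| ≤ 2 * δ := by
  have hf : Continuous fun t : ℝ≥0 => g (projIcc 0 1 zero_le_one (t : ℝ)) :=
    hg.comp (continuous_projIcc.comp NNReal.continuous_coe)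
  have e1 := tube_all _ hf δ _ hB h (Real.toNNReal s) (Real.toNNReal_le_one.2 s.2.2)
  have e2 := tube_all _ hf δ _ hB h 1 le_rfl
  have p1 : projIcc (0 : ℝ) 1 zero_le_one ((Real.toNNReal (s : ℝ) : ℝ≥0) : ℝ) = s := by
    rw [Real.coe_toNNReal _ s.2.1, projIcc_of_mem zero_le_one s.2]
  have p2 : projIcc (0 : ℝ) 1 zero_le_one (((1 : ℝ≥0)) : ℝ) = 1 := by
    rw [NNReal.coe_one, projIcc_right]
    rfl
  simp only [p1] at e1
  simp only [p2, hg1, sub_zero] at e2
  unfold bridge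
  have hs0 := s.2.1
  have hs1 := s.2.2
  have e3 : |(s : ℝ) * (B 1 ω - B 0 ω)| ≤ δ := by
    rw [abs_mul, abs_of_nonneg hs0]
    calc (s : ℝ) * |B 1 ω - B 0 ω| ≤ 1 * |B 1 ω - B 0 ω| :=
          mul_le_mul_of_nonneg_right hs1 (abs_nonneg _)
      _ ≤ δ := by rw [one_mul]; exact e2
  have e4 := abs_sub (B (Real.toNNReal s) ω - B 0 ω - g s) ((s : ℝ) * (B 1 ω - B 0 ω))
  calc |B (Real.toNNReal s) ω - B 0 ω - (s : ℝ) * (B 1 ω - B 0 ω) - g s|
      = |(B (Real.toNNReal s) ω - B 0 ω - g s) - (s : ℝ) * (B 1 ω - B 0 ω)| := by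
        congr 1; ring
    _ ≤ _ := e4
    _ ≤ 2 * δ := by linarith

private lemma coord_near {u r β a f M κ ε : ℝ} (hε : 0 < ε) (hM : 0 ≤ M)
    (hr1 : 1 ≤ r) (hr2 : r < 1 + κ) (hκ1 : κ ≤ 1) (hκ2 : κ ≤ ε / (8 * (M + 1)))
    (hu : |u - a| < ε / 8) (hβ : |β - f| ≤ 2 * (ε / 16)) (hf : |f| ≤ M) :
    |u + r * β - (a + f)| < ε := by
  have e : u + r * β - (a + f) = (u - a) + r * (β - f) + (r - 1) * f := by ring
  have h1 : |r * (β - f)| ≤ 2 * (ε / 8) := by
    rw [abs_mul, abs_of_pos (by linarith)]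
    calc r * |β - f| ≤ 2 * (2 * (ε / 16)) :=
          mul_le_mul (by linarith) hβ (abs_nonneg _) (by norm_num)
      _ = 2 * (ε / 8) := by ring
  have h2 : |(r - 1) * f| ≤ ε / 8 := by
    rw [abs_mul, abs_of_nonneg (by linarith)]
    calc (r - 1) * |f| ≤ (ε / (8 * (M + 1))) * M :=
          mul_le_mul (by linarith) hf (abs_nonneg _) (by positivity)
      _ = ε / 8 * (M / (M + 1)) := by field_simp
      _ ≤ ε / 8 * 1 := by
          refine mul_le_mul_of_nonneg_left ?_ (by positivity)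
          rw [div_le_one (by linarith)]
          linarith
      _ = ε / 8 := mul_one _
  rw [e]
  calc |(u - a) + r * (β - f) + (r - 1) * f|
      ≤ |(u - a) + r * (β - f)| + |(r - 1) * f| := abs_add_le _ _
    _ ≤ |u - a| + |r * (β - f)| + |(r - 1) * f| := by
        have := abs_add_le (u - a) (r * (β - f))
        linarith
    _ < ε := by linarith

theorem tube_marks [IsProbabilityMeasure P] {B₁ B₂ : ℝ≥0 → Ω → ℝ} (h : IsPlanarBM P B₁ B₂)
    (c : I → Plane) (hc : Continuous c) (h01 : c 0 = c 1)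
    (h1 : 0 < (c 0).1) (h2 : (c 0).1 < 1) (h3 : 0 < (c 0).2) (h4 : (c 0).2 < 1)
    (ε : ℝ) (hε : 0 < ε) :
    0 < ((volume : Measure (I × I × I)).prod P) {e | ∀ s : I, dist (curveB B₁ B₂ e s) (c s) < ε} := by
  have hpos1 : Measure.IsOpenPosMeasure (volume : Measure I) := openPos_unit
  have hpos2 : Measure.IsOpenPosMeasure ((volume : Measure I).prod (volume : Measure I)) :=
    Measure.prod.instIsOpenPosMeasure
  have hpos3 : Measure.IsOpenPosMeasure
      ((volume : Measure I).prod ((volume : Measure I).prod (volume : Measure I))) :=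
    Measure.prod.instIsOpenPosMeasure
  -- the two coordinate functions
  set g₁ : I → ℝ := fun s => (c s).1 - (c 0).1 with hg₁
  set g₂ : I → ℝ := fun s => (c s).2 - (c 0).2 with hg₂
  have hg₁c : Continuous g₁ := (continuous_fst.comp hc).sub continuous_const
  have hg₂c : Continuous g₂ := (continuous_snd.comp hc).sub continuous_const
  have hg₁0 : g₁ 0 = 0 := by simp [hg₁]
  have hg₂0 : g₂ 0 = 0 := by simp [hg₂]
  have hg₁1 : g₁ 1 = 0 := by simp [hg₁, ← h01]
  have hg₂1 : g₂ 1 = 0 := by simp [hg₂, ← h01]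
  obtain ⟨M₁, hM₁⟩ := isCompact_univ.exists_bound_of_continuousOn (hg₁c.continuousOn (s := univ))
  obtain ⟨M₂, hM₂⟩ := isCompact_univ.exists_bound_of_continuousOn (hg₂c.continuousOn (s := univ))
  set M : ℝ := max M₁ M₂ with hM
  have hb₁ : ∀ s, |g₁ s| ≤ M := fun s => (hM₁ s (mem_univ s)).trans (le_max_left _ _)
  have hb₂ : ∀ s, |g₂ s| ≤ M := fun s => (hM₂ s (mem_univ s)).trans (le_max_right _ _)
  have hM0 : 0 ≤ M := (abs_nonneg _).trans (hb₁ 0)
  -- the paths
  set f₁ : ℝ≥0 → ℝ := fun t => g₁ (projIcc 0 1 zero_le_one (t : ℝ)) with hf₁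
  set f₂ : ℝ≥0 → ℝ := fun t => g₂ (projIcc 0 1 zero_le_one (t : ℝ)) with hf₂
  have hf₁c : Continuous f₁ := hg₁c.comp (continuous_projIcc.comp NNReal.continuous_coe)
  have hf₂c : Continuous f₂ := hg₂c.comp (continuous_projIcc.comp NNReal.continuous_coe)
  have p0 : projIcc (0 : ℝ) 1 zero_le_one (((0 : ℝ≥0)) : ℝ) = 0 := by
    rw [NNReal.coe_zero, projIcc_left]
    rfl
  have hf₁0 : f₁ 0 = 0 := by simp only [hf₁, p0, hg₁0]
  have hf₂0 : f₂ 0 = 0 := by simp only [hf₂, p0, hg₂0]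
  set T : Set Ω := (fun ω t => B₁ t ω) ⁻¹' tube f₁ (ε / 16) ∩
    (fun ω t => B₂ t ω) ⁻¹' tube f₂ (ε / 16) with hT
  have hTpos : 0 < P T := by
    rw [hT, h.indep.measure_inter_preimage_eq_mul _ _ (measurableSet_tube _ _)
      (measurableSet_tube _ _)]
    refine ENNReal.mul_pos ?_ ?_
    · exact (support_one h.bm₁ h.meas₁ h.cont₁ f₁ hf₁c hf₁0 (ε / 16) (by positivity)).ne'
    · exact (support_one h.bm₂ h.meas₂ h.cont₂ f₂ hf₂c hf₂0 (ε / 16) (by positivity)).ne'
  -- the marks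
  set κ : ℝ := min 1 (ε / (8 * (M + 1))) with hκ
  have hκ0 : 0 < κ := lt_min one_pos (by positivity)
  set U : Set (I × I × I) := {q | |(q.1 : ℝ) - (c 0).1| < ε / 8 ∧
    |(q.2.1 : ℝ) - (c 0).2| < ε / 8 ∧ √(dur q.2.2) < 1 + κ} with hU
  have hUo : IsOpen U := by
    have a1 : IsOpen {q : I × I × I | |(q.1 : ℝ) - (c 0).1| < ε / 8} :=
      isOpen_lt (by fun_prop) continuous_const
    have a2 : IsOpen {q : I × I × I | |(q.2.1 : ℝ) - (c 0).2| < ε / 8} :=
      isOpen_lt (by fun_prop) continuous_const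
    have a3 : IsOpen {q : I × I × I | √(dur q.2.2) < 1 + κ} := by
      refine isOpen_lt ?_ continuous_const
      exact (continuous_dur.comp (continuous_snd.comp continuous_snd)).sqrt
    exact a1.inter (a2.inter a3)
  have hUne : U.Nonempty := by
    refine ⟨(⟨(c 0).1, h1.le, h2.le⟩, ⟨(c 0).2, h3.le, h4.le⟩, 0), ?_, ?_, ?_⟩
    · simp only [sub_self, abs_zero]; positivity
    · simp only [sub_self, abs_zero]; positivity
    · have : dur 0 = 1 := by unfold dur; simp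
      simp only [this, Real.sqrt_one]
      linarith
  have hUpos : 0 < (volume : Measure (I × I × I)) U := by
    rw [show (volume : Measure (I × I × I)) =
      (volume : Measure I).prod ((volume : Measure I).prod (volume : Measure I)) from rfl]
    exact hUo.measure_pos _ hUne
  have hsub : U ×ˢ T ⊆ {e : Mark Ω | ∀ s : I, dist (curveB B₁ B₂ e s) (c s) < ε} := by
    rintro ⟨⟨u, v, x⟩, ω⟩ ⟨⟨hu, hv, hx⟩, hω1, hω2⟩ s
    simp only at hu hv hx
    have hr1 : 1 ≤ √(dur x) := by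
      rw [Real.one_le_sqrt]
      exact one_le_dur x
    have b1 := bridge_near (h.cont₁ ω) g₁ hg₁c hg₁1 hω1 s
    have b2 := bridge_near (h.cont₂ ω) g₂ hg₂c hg₂1 hω2 s
    have d1 := coord_near hε hM0 hr1 hx (min_le_left _ _) (min_le_right _ _) hu b1 (hb₁ s)
    have d2 := coord_near hε hM0 hr1 hx (min_le_left _ _) (min_le_right _ _) hv b2 (hb₂ s)
    have e1 : (c 0).1 + g₁ s = (c s).1 := by simp [hg₁]
    have e2 : (c 0).2 + g₂ s = (c s).2 := by simp [hg₂]
    rw [e1] at d1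
    rw [e2] at d2
    rw [Prod.dist_eq, max_lt_iff, Real.dist_eq, Real.dist_eq]
    exact ⟨d1, d2⟩
  refine lt_of_lt_of_le ?_ (measure_mono hsub)
  rw [Measure.prod_prod]
  exact ENNReal.mul_pos hUpos.ne' hTpos.ne'

end Pool.Agent.Helper3.CD
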