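import Mathlib
import Pool.Agent.Helper16.CD.Defs

/-!
# CD-S6: the polygon around `Hset`

`vt k` are the vertices (in units of `1/64`), `poly` is the closed polygon through
`vt 0, ..., vt 13 = vt 0`, parametrised by `[0, 1]` (`s ∈ [k/13, (k+1)/13]` on the edge from `vt k` to
`vt (k+1)`), written as a sum of clamps: `cl k s = max 0 (min 1 (13 s - k))`.

PROOFS. `poly_edge`: for `k ≤ 13 s ≤ k + 1`: `cl j s = 1` for `j < k`, `cl k s = 13 s - k`, `cl j s = 0` for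
`j > k`; the sum telescopes (13 cases, `Finset.sum_range_succ`, `norm_num [vt]`).
`edge_near`, `edge_far`: `Hset` is the union of the five rectangles (`Hset_rect`, units `1/64`)
`[8,16]×[8,24]`, `[8,16]×[32,56]`, `[8,56]×[48,56]`, `[8,56]×[8,16]`, `[48,56]×[8,56]`; every edge is
horizontal or vertical, at sup distance exactly `1/64` of `Hset`.
-/

set_option autoImplicit false

open Set Metric

namespace Pool.Agent.Helper3.CD

open Pool.Agent.Helper16.CD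

/-- vertices of the polygon around `Hset` -/
noncomputable def vt : ℕ → Plane
  | 0 => (12 / 64, 7 / 64)
  | 1 => (57 / 64, 7 / 64)
  | 2 => (57 / 64, 57 / 64)
  | 3 => (7 / 64, 57 / 64)
  | 4 => (7 / 64, 31 / 64)
  | 5 => (17 / 64, 31 / 64)
  | 6 => (17 / 64, 47 / 64)
  | 7 => (47 / 64, 47 / 64)
  | 8 => (47 / 64, 17 / 64)
  | 9 => (17 / 64, 17 / 64)
  | 10 => (17 / 64, 25 / 64)
  | 11 => (7 / 64, 25 / 64)
  | 12 => (7 / 64, 7 / 64)
  | _ => (12 / 64, 7 / 64)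

/-- clamped time on the edge `k` -/
noncomputable def cl (k : ℕ) (s : ℝ) : ℝ := max 0 (min 1 (13 * s - k))

/-- the closed polygon -/
noncomputable def poly (s : ℝ) : Plane :=
  ((vt 0).1 + ∑ k ∈ Finset.range 13, cl k s * ((vt (k + 1)).1 - (vt k).1),
    (vt 0).2 + ∑ k ∈ Finset.range 13, cl k s * ((vt (k + 1)).2 - (vt k).2))

theorem continuous_poly : Continuous poly := by
  unfold poly cl
  fun_prop

private theorem S6_cl {s l : ℝ} {k : ℕ} (h0 : 0 ≤ l) (h1 : l ≤ 1) (h : 13 * s = (k : ℝ) + l)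
    (j : ℕ) : cl j s = if j < k then 1 else if j = k then l else 0 := by
  unfold cl
  split_ifs with hj hj'
  · have : (j : ℝ) + 1 ≤ k := by exact_mod_cast hj
    rw [min_eq_left (by linarith), max_eq_right (by norm_num)]
  · subst hj'
    have : 13 * s - (j : ℝ) = l := by linarith
    rw [this, min_eq_right h1, max_eq_right h0]
  · have : (k : ℝ) + 1 ≤ j := by
      have : k + 1 ≤ j := by omega
      exact_mod_cast this
    rw [min_eq_right (by linarith), max_eq_left (by linarith)]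

theorem poly_edge (s : ℝ) (h0 : 0 ≤ s) (h1 : s ≤ 1) :
    ∃ k : ℕ, k < 13 ∧ ∃ l : ℝ, 0 ≤ l ∧ l ≤ 1 ∧ 13 * s = (k : ℝ) + l ∧
      poly s = ((1 - l) * (vt k).1 + l * (vt (k + 1)).1, (1 - l) * (vt k).2 + l * (vt (k + 1)).2) := by
  obtain ⟨k, hk, l, hl0, hl1, hl⟩ : ∃ k : ℕ, k < 13 ∧ ∃ l : ℝ, 0 ≤ l ∧ l ≤ 1 ∧
      13 * s = (k : ℝ) + l := by
    rcases le_or_gt 12 (13 * s) with h | h
    · exact ⟨12, by norm_num, 13 * s - 12, by linarith, by linarith, by push_cast; ring⟩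
    · refine ⟨⌊13 * s⌋₊, ?_, 13 * s - ⌊13 * s⌋₊, ?_, ?_, by ring⟩
      · have := (Nat.floor_lt (by linarith : 0 ≤ 13 * s)).2 (by exact_mod_cast h : 13 * s < (12 : ℕ))
        omega
      · have := Nat.floor_le (by linarith : 0 ≤ 13 * s)
        linarith
      · have := Nat.lt_floor_add_one (13 * s)
        linarith
  refine ⟨k, hk, l, hl0, hl1, hl, ?_⟩
  unfold poly
  simp only [S6_cl hl0 hl1 hl]
  clear hl
  interval_cases k <;>
    simp only [Finset.sum_range_succ, Finset.sum_range_zero, vt, Prod.mk.injEq] <;>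
    norm_num <;> constructor <;> ring

private theorem S6_rect {z : Plane} (hz : z ∈ Hset) :
    (1 / 8 ≤ z.1 ∧ z.1 ≤ 1 / 4 ∧ 1 / 8 ≤ z.2 ∧ z.2 ≤ 3 / 8) ∨
    (1 / 8 ≤ z.1 ∧ z.1 ≤ 1 / 4 ∧ 1 / 2 ≤ z.2 ∧ z.2 ≤ 7 / 8) ∨
    (1 / 8 ≤ z.1 ∧ z.1 ≤ 7 / 8 ∧ 3 / 4 ≤ z.2 ∧ z.2 ≤ 7 / 8) ∨
    (1 / 8 ≤ z.1 ∧ z.1 ≤ 7 / 8 ∧ 1 / 8 ≤ z.2 ∧ z.2 ≤ 1 / 4) ∨
    (3 / 4 ≤ z.1 ∧ z.1 ≤ 7 / 8 ∧ 1 / 8 ≤ z.2 ∧ z.2 ≤ 7 / 8) := by
  obtain ⟨⟨a, b⟩, ⟨h1, h2, h3, h4, h5, h6⟩, g1, g2, g3, g4⟩ := hz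
  simp only at h1 h2 h3 h4 h5 g1 g2 g3 g4
  have h1' : (1 : ℝ) ≤ a := by exact_mod_cast h1
  have h2' : (a : ℝ) ≤ 6 := by exact_mod_cast h2
  have h3' : (1 : ℝ) ≤ b := by exact_mod_cast h3
  have h4' : (b : ℝ) ≤ 6 := by exact_mod_cast h4
  rcases h5 with rfl | rfl | rfl | rfl
  · have hb : b ≤ 2 ∨ 4 ≤ b := by
      have : b ≠ 3 := fun h => h6 (by rw [h])
      omega
    push_cast at g1 g2
    rcases hb with hb | hb
    · have hb' : (b : ℝ) ≤ 2 := by exact_mod_cast hb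
      left
      refine ⟨?_, ?_, ?_, ?_⟩ <;> linarith
    · have hb' : (4 : ℝ) ≤ b := by exact_mod_cast hb
      right; left
      refine ⟨?_, ?_, ?_, ?_⟩ <;> linarith
  · push_cast at g1 g2
    right; right; right; right
    refine ⟨?_, ?_, ?_, ?_⟩ <;> linarith
  · push_cast at g3 g4
    right; right; right; left
    refine ⟨?_, ?_, ?_, ?_⟩ <;> linarith
  · push_cast at g3 g4
    right; right; left
    refine ⟨?_, ?_, ?_, ?_⟩ <;> linarith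

private theorem S6_dig {x : ℝ} (h1 : 1 / 8 ≤ x) (h2 : x ≤ 7 / 8) :
    ∃ d : ℤ, 1 ≤ d ∧ d ≤ 6 ∧ (d : ℝ) / 8 ≤ x ∧ x ≤ (d + 1) / 8 := by
  rcases le_or_gt (3 / 4) x with h | h
  · exact ⟨6, by norm_num, by norm_num, by push_cast; linarith, by push_cast; linarith⟩
  · have g1 := Int.floor_le (8 * x)
    have g2 := Int.lt_floor_add_one (8 * x)
    refine ⟨⌊8 * x⌋, ?_, ?_, by linarith, by linarith⟩
    · rw [Int.le_floor]
      push_cast
      linarith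
    · have : ⌊8 * x⌋ < 6 := by
        rw [Int.floor_lt]
        push_cast
        linarith
      omega

private theorem S6_mem {z : Plane}
    (h : (1 / 8 ≤ z.1 ∧ z.1 ≤ 1 / 4 ∧ 1 / 8 ≤ z.2 ∧ z.2 ≤ 3 / 8) ∨
    (1 / 8 ≤ z.1 ∧ z.1 ≤ 1 / 4 ∧ 1 / 2 ≤ z.2 ∧ z.2 ≤ 7 / 8) ∨
    (1 / 8 ≤ z.1 ∧ z.1 ≤ 7 / 8 ∧ 3 / 4 ≤ z.2 ∧ z.2 ≤ 7 / 8) ∨
    (1 / 8 ≤ z.1 ∧ z.1 ≤ 7 / 8 ∧ 1 / 8 ≤ z.2 ∧ z.2 ≤ 1 / 4) ∨
    (3 / 4 ≤ z.1 ∧ z.1 ≤ 7 / 8 ∧ 1 / 8 ≤ z.2 ∧ z.2 ≤ 7 / 8)) : z ∈ Hset := by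
  rcases h with h | h | h | h | h
  · rcases le_or_gt z.2 (1 / 4) with h' | h'
    · refine ⟨(1, 1), ?_, ?_, ?_, ?_, ?_⟩
      · unfold isR; norm_num
      all_goals norm_num; linarith
    · refine ⟨(1, 2), ?_, ?_, ?_, ?_, ?_⟩
      · unfold isR; norm_num
      all_goals norm_num; linarith
  · rcases le_or_gt z.2 (5 / 8) with h' | h'
    · refine ⟨(1, 4), ?_, ?_, ?_, ?_, ?_⟩
      · unfold isR; norm_num
      all_goals norm_num; linarith
    · rcases le_or_gt z.2 (3 / 4) with h'' | h''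
      · refine ⟨(1, 5), ?_, ?_, ?_, ?_, ?_⟩
        · unfold isR; norm_num
        all_goals norm_num; linarith
      · refine ⟨(1, 6), ?_, ?_, ?_, ?_, ?_⟩
        · unfold isR; norm_num
        all_goals norm_num; linarith
  · obtain ⟨d, h1, h2, h3, h4⟩ := S6_dig h.1 h.2.1
    refine ⟨(d, 6), ⟨h1, h2, by norm_num, by norm_num, by norm_num, ?_⟩, h3, h4, ?_, ?_⟩
    · intro h5
      have := congrArg Prod.snd h5
      norm_num at this
    all_goals norm_num; linarith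
  · obtain ⟨d, h1, h2, h3, h4⟩ := S6_dig h.1 h.2.1
    refine ⟨(d, 1), ⟨h1, h2, by norm_num, by norm_num, by norm_num, ?_⟩, h3, h4, ?_, ?_⟩
    · intro h5
      have := congrArg Prod.snd h5
      norm_num at this
    all_goals norm_num; linarith
  · obtain ⟨d, h1, h2, h3, h4⟩ := S6_dig h.2.2.1 h.2.2.2
    refine ⟨(6, d), ⟨by norm_num, by norm_num, h1, h2, by norm_num, ?_⟩, ?_, ?_, h3, h4⟩
    · intro h5
      have := congrArg Prod.fst h5
      norm_num at this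
    all_goals norm_num; linarith

private theorem S6_near {a b c d : ℝ} (hab : a ≤ b) (hcd : c ≤ d)
    (h : ∀ z : Plane, a ≤ z.1 → z.1 ≤ b → c ≤ z.2 → z.2 ≤ d → z ∈ Hset) (p : Plane)
    (h1 : a - 1 / 64 ≤ p.1) (h2 : p.1 ≤ b + 1 / 64) (h3 : c - 1 / 64 ≤ p.2)
    (h4 : p.2 ≤ d + 1 / 64) : ∃ z ∈ Hset, dist p z ≤ 1 / 64 := by
  refine ⟨(max a (min b p.1), max c (min d p.2)), h _ (le_max_left _ _)
    (max_le hab (min_le_left _ _)) (le_max_left _ _) (max_le hcd (min_le_left _ _)), ?_⟩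
  have key : ∀ {a b x : ℝ}, a ≤ b → a - 1 / 64 ≤ x → x ≤ b + 1 / 64 →
      |x - max a (min b x)| ≤ 1 / 64 := by
    intro a b x hab h1 h2
    rcases le_total b x with h | h
    · rw [min_eq_left h, max_eq_right hab]
      exact abs_le.2 ⟨by linarith, by linarith⟩
    · rw [min_eq_right h]
      rcases le_total a x with h' | h'
      · rw [max_eq_right h', sub_self, abs_zero]
        norm_num
      · rw [max_eq_left h']
        exact abs_le.2 ⟨by linarith, by linarith⟩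
  rw [Prod.dist_eq, Real.dist_eq, Real.dist_eq]
  exact max_le (key hab h1 h2) (key hcd h3 h4)

private theorem S6_R1 (z : Plane) (h1 : (1 / 8 : ℝ) ≤ z.1) (h2 : z.1 ≤ 1 / 4) (h3 : 1 / 8 ≤ z.2)
    (h4 : z.2 ≤ 3 / 8) : z ∈ Hset := S6_mem (Or.inl ⟨h1, h2, h3, h4⟩)

private theorem S6_R2 (z : Plane) (h1 : (1 / 8 : ℝ) ≤ z.1) (h2 : z.1 ≤ 1 / 4) (h3 : 1 / 2 ≤ z.2)
    (h4 : z.2 ≤ 7 / 8) : z ∈ Hset := S6_mem (Or.inr (Or.inl ⟨h1, h2, h3, h4⟩))

private theorem S6_R3 (z : Plane) (h1 : (1 / 8 : ℝ) ≤ z.1) (h2 : z.1 ≤ 7 / 8) (h3 : 3 / 4 ≤ z.2)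
    (h4 : z.2 ≤ 7 / 8) : z ∈ Hset := S6_mem (Or.inr (Or.inr (Or.inl ⟨h1, h2, h3, h4⟩)))

private theorem S6_R4 (z : Plane) (h1 : (1 / 8 : ℝ) ≤ z.1) (h2 : z.1 ≤ 7 / 8) (h3 : 1 / 8 ≤ z.2)
    (h4 : z.2 ≤ 1 / 4) : z ∈ Hset := S6_mem (Or.inr (Or.inr (Or.inr (Or.inl ⟨h1, h2, h3, h4⟩))))

private theorem S6_R5 (z : Plane) (h1 : (3 / 4 : ℝ) ≤ z.1) (h2 : z.1 ≤ 7 / 8) (h3 : 1 / 8 ≤ z.2)
    (h4 : z.2 ≤ 7 / 8) : z ∈ Hset := S6_mem (Or.inr (Or.inr (Or.inr (Or.inr ⟨h1, h2, h3, h4⟩))))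

theorem edge_near (k : ℕ) (hk : k < 13) (l : ℝ) (h0 : 0 ≤ l) (h1 : l ≤ 1) :
    ∃ z ∈ Hset, dist (((1 - l) * (vt k).1 + l * (vt (k + 1)).1,
      (1 - l) * (vt k).2 + l * (vt (k + 1)).2) : Plane) z ≤ 1 / 64 := by
  interval_cases k
  · refine S6_near (by norm_num) (by norm_num) S6_R4 _ ?_ ?_ ?_ ?_ <;> simp only [vt] <;> linarith
  · refine S6_near (by norm_num) (by norm_num) S6_R5 _ ?_ ?_ ?_ ?_ <;> simp only [vt] <;> linarith
  · refine S6_near (by norm_num) (by norm_num) S6_R3 _ ?_ ?_ ?_ ?_ <;> simp only [vt] <;> linarith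
  · refine S6_near (by norm_num) (by norm_num) S6_R2 _ ?_ ?_ ?_ ?_ <;> simp only [vt] <;> linarith
  · refine S6_near (by norm_num) (by norm_num) S6_R2 _ ?_ ?_ ?_ ?_ <;> simp only [vt] <;> linarith
  · refine S6_near (by norm_num) (by norm_num) S6_R2 _ ?_ ?_ ?_ ?_ <;> simp only [vt] <;> linarith
  · refine S6_near (by norm_num) (by norm_num) S6_R3 _ ?_ ?_ ?_ ?_ <;> simp only [vt] <;> linarith
  · refine S6_near (by norm_num) (by norm_num) S6_R5 _ ?_ ?_ ?_ ?_ <;> simp only [vt] <;> linarith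
  · refine S6_near (by norm_num) (by norm_num) S6_R4 _ ?_ ?_ ?_ ?_ <;> simp only [vt] <;> linarith
  · refine S6_near (by norm_num) (by norm_num) S6_R1 _ ?_ ?_ ?_ ?_ <;> simp only [vt] <;> linarith
  · refine S6_near (by norm_num) (by norm_num) S6_R1 _ ?_ ?_ ?_ ?_ <;> simp only [vt] <;> linarith
  · refine S6_near (by norm_num) (by norm_num) S6_R1 _ ?_ ?_ ?_ ?_ <;> simp only [vt] <;> linarith
  · refine S6_near (by norm_num) (by norm_num) S6_R4 _ ?_ ?_ ?_ ?_ <;> simp only [vt] <;> linarith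

private theorem S6_far {p z : Plane} (h : 1 / 64 ≤ p.1 - z.1 ∨ 1 / 64 ≤ z.1 - p.1 ∨
    1 / 64 ≤ p.2 - z.2 ∨ 1 / 64 ≤ z.2 - p.2) : 1 / 64 ≤ dist p z := by
  rw [Prod.dist_eq, Real.dist_eq, Real.dist_eq]
  rcases h with h | h | h | h
  · exact le_max_of_le_left (h.trans (le_abs_self _))
  · refine le_max_of_le_left (h.trans ?_)
    rw [abs_sub_comm]
    exact le_abs_self _
  · exact le_max_of_le_right (h.trans (le_abs_self _))
  · refine le_max_of_le_right (h.trans ?_)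
    rw [abs_sub_comm]
    exact le_abs_self _

theorem edge_far (k : ℕ) (hk : k < 13) (l : ℝ) (h0 : 0 ≤ l) (h1 : l ≤ 1) (z : Plane)
    (hz : z ∈ Hset) :
    1 / 64 ≤ dist (((1 - l) * (vt k).1 + l * (vt (k + 1)).1,
      (1 - l) * (vt k).2 + l * (vt (k + 1)).2) : Plane) z := by
  refine S6_far ?_
  have h := S6_rect hz
  interval_cases k <;> simp only [vt] <;>
    rcases h with h | h | h | h | h <;> obtain ⟨g1, g2, g3, g4⟩ := h <;>
    first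
      | (left; linarith)
      | (right; left; linarith)
      | (right; right; left; linarith)
      | (right; right; right; linarith)

end Pool.Agent.Helper3.CD
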