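import Mathlib
import Pool.Agent.Helper16.CD.Defs
import Pool.Agent.Helper3.CD.S6

/-!
# CD-S7: position of a curve near the polygon

`h0 = (12/64, 12/64)`. PROOFS from `poly_edge`, `edge_near`, `edge_far` and the numerical values of the
vertices. `close_ray`: on the edge `0` at times `≥ 1/65` the abscissa of the polygon is at least
`12/64 + 45/64 * 1/5 = 21/64`; on the edge `12` at times `≤ 64/65` it is at most `7/64 + 5/64 * 4/5 = 11/64`;
on the edges `1, .., 8` and `11` either the abscissa differs from `12/64` by at least `5/64` or the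
ordinate is at least `17/64`; on the edges `9, 10` the ordinate ... at least `17/64` as well.
-/

set_option autoImplicit false

open Set Metric

namespace Pool.Agent.Helper3.CD

open Pool.Agent.Helper16.CD

private theorem S7_coord {a b : Plane} (hab : dist a b < 1 / 64) :
    (b.1 - 1 / 64 < a.1 ∧ a.1 < b.1 + 1 / 64) ∧ (b.2 - 1 / 64 < a.2 ∧ a.2 < b.2 + 1 / 64) := by
  rw [Prod.dist_eq, max_lt_iff, Real.dist_eq, Real.dist_eq, abs_lt, abs_lt] at hab
  obtain ⟨⟨h1, h2⟩, h3, h4⟩ := hab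
  exact ⟨⟨by linarith, by linarith⟩, by linarith, by linarith⟩

variable {γ : ℝ → Plane} (h : ∀ s : ℝ, 0 ≤ s → s ≤ 1 → dist (γ s) (poly s) < 1 / 64)

include h

theorem close_near : γ '' Icc 0 1 ⊆ thickening (1 / 32) Hset := by
  rintro _ ⟨s, ⟨h0, h1⟩, rfl⟩
  obtain ⟨k, hk, l, hl0, hl1, -, hp⟩ := poly_edge s h0 h1
  obtain ⟨z, hz, hd⟩ := edge_near k hk l hl0 hl1
  rw [← hp] at hd
  rw [mem_thickening_iff]
  refine ⟨z, hz, ?_⟩
  have h2 := h s h0 h1
  have h3 := dist_triangle (γ s) (poly s) z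
  linarith

theorem close_disj : Disjoint (γ '' Icc 0 1) Hset := by
  rw [Set.disjoint_left]
  rintro _ ⟨s, ⟨h0, h1⟩, rfl⟩ hz
  obtain ⟨k, hk, l, hl0, hl1, -, hp⟩ := poly_edge s h0 h1
  have hd := edge_far k hk l hl0 hl1 _ hz
  rw [← hp, dist_comm] at hd
  have h2 := h s h0 h1
  linarith

theorem close_ray (s : ℝ) (h0 : 1 / 65 ≤ s) (h1 : s ≤ 64 / 65) :
    ¬ ((γ s).1 = 12 / 64 ∧ (γ s).2 ≤ 12 / 64) := by
  rintro ⟨ha, hb⟩
  obtain ⟨k, hk, l, hl0, hl1, hs, hp⟩ := poly_edge s (by linarith) (by linarith)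
  obtain ⟨⟨h2, h3⟩, h4, h5⟩ := S7_coord (h s (by linarith) (by linarith))
  rw [hp] at h2 h3 h4 h5
  interval_cases k <;> simp only [vt] at h2 h3 h4 h5 <;> push_cast at hs <;> linarith

theorem close_low (s : ℝ) (h0 : 0 ≤ s) (h1 : s ≤ 1) (hs : s ≤ 1 / 65 ∨ 64 / 65 ≤ s) :
    (γ s).2 < 12 / 64 := by
  obtain ⟨k, hk, l, hl0, hl1, hs', hp⟩ := poly_edge s h0 h1
  obtain ⟨-, -, h5⟩ := S7_coord (h s h0 h1)
  rw [hp] at h5
  rcases hs with hs | hs
  · have hk0 : k = 0 := by
      have h2 : (k : ℝ) < 1 := by linarith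
      have h3 : k < 1 := by exact_mod_cast h2
      omega
    subst hk0
    simp only [vt] at h5
    linarith
  · have hk0 : k = 12 := by
      have h2 : (11 : ℝ) < k := by linarith
      have h3 : 11 < k := by exact_mod_cast h2
      omega
    subst hk0
    simp only [vt] at h5
    linarith

theorem close_right : 12 / 64 < (γ (1 / 65)).1 := by
  obtain ⟨k, hk, l, hl0, hl1, hs', hp⟩ := poly_edge (1 / 65) (by norm_num) (by norm_num)
  obtain ⟨⟨h2, -⟩, -⟩ := S7_coord (h (1 / 65) (by norm_num) (by norm_num))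
  rw [hp] at h2
  have hk0 : k = 0 := by
    have h2 : (k : ℝ) < 1 := by linarith
    have h3 : k < 1 := by exact_mod_cast h2
    omega
  subst hk0
  simp only [vt] at h2
  push_cast at hs'
  linarith

theorem close_left : (γ (64 / 65)).1 < 12 / 64 := by
  obtain ⟨k, hk, l, hl0, hl1, hs', hp⟩ := poly_edge (64 / 65) (by norm_num) (by norm_num)
  obtain ⟨⟨-, h2⟩, -⟩ := S7_coord (h (64 / 65) (by norm_num) (by norm_num))
  rw [hp] at h2
  have hk0 : k = 12 := by
    have h2 : (11 : ℝ) < k := by linarith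
    have h3 : 11 < k := by exact_mod_cast h2
    omega
  subst hk0
  simp only [vt] at h2
  push_cast at hs'
  linarith

end Pool.Agent.Helper3.CD
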