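import Mathlib
import Pool.Agent.Helper16.CD.Defs

/-!
# CD-S8: continuous logarithm outside the filled set

PROOF. `a ∉ K` (for `a ∈ K` the set `connectedComponentIn Kᶜ a` is empty, hence bounded, so `a ∈ fillIn K`).
Let `U = connectedComponentIn Kᶜ a`, an unbounded preconnected set in `Kᶜ`. Call `b ∈ Kᶜ` good if there is `g`
with `ContinuousOn g K` and `exp (g w) = w - b` on `K`. (1) If `b ∉ K` and `dist b b' < infDist b K` (take `r > 0`
with `ball b r ∩ K = ∅` if `K` is empty) then `b` is good iff `b'` is good: for `w ∈ K`,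
`(w - b') / (w - b) = 1 + (b - b') / (w - b)` is in the ball of radius `1` around `1`, hence in
`Complex.slitPlane`, so its logarithm is continuous; add or subtract it. (2) If `K ⊆ closedBall 0 R` and
`R < |b|` then `b` is good: `w - b = (-b) (1 - w / b)`, `g w = log (-b) + log (1 - w / b)`. Since `U` is
unbounded it contains such a `b`. By (1) the good points of `U` and the other points of `U` are
both open in `U`, so all points of `U` are good (`IsPreconnected.subset_left_of_subset_union` or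
`IsPreconnected.subset_clopen`-like arguments on the open sets of good and not good points of `Kᶜ`).
-/

set_option autoImplicit false

open Set Metric

namespace Pool.Agent.Helper3.CD

open Pool.Agent.Helper16.CD

private def S8_Good (K : Set ℂ) (b : ℂ) : Prop :=
  ∃ g : ℂ → ℂ, ContinuousOn g K ∧ ∀ w ∈ K, Complex.exp (g w) = w - b

private theorem S8_step (K : Set ℂ) {b b' : ℂ} {d : ℝ} (hd : 0 < d)
    (hK : ∀ w ∈ K, d ≤ dist w b) (hbb : dist b' b < d) : S8_Good K b ↔ S8_Good K b' := by
  have hne : ∀ w ∈ K, w - b ≠ 0 := by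
    intro w hw h
    have h1 := hK w hw
    rw [dist_eq_norm, h, norm_zero] at h1
    linarith
  have hslit : ∀ w ∈ K, (w - b') / (w - b) ∈ Complex.slitPlane := by
    intro w hw
    have h1 : (w - b') / (w - b) = 1 + (b - b') / (w - b) := by
      have := hne w hw
      field_simp
      ring
    rw [h1]
    apply Complex.mem_slitPlane_of_norm_lt_one
    have h2 := hK w hw
    rw [dist_eq_norm] at h2 hbb
    have h3 : 0 < ‖w - b‖ := by linarith
    rw [norm_div, div_lt_one h3, norm_sub_rev]
    linarith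
  have hne' : ∀ w ∈ K, (w - b') / (w - b) ≠ 0 := fun w hw => Complex.slitPlane_ne_zero (hslit w hw)
  have hcont : ContinuousOn (fun w : ℂ => Complex.log ((w - b') / (w - b))) K := by
    apply ContinuousOn.clog _ hslit
    exact (continuousOn_id.sub continuousOn_const).div (continuousOn_id.sub continuousOn_const) hne
  constructor
  · rintro ⟨g, hg, he⟩
    refine ⟨fun w => g w + Complex.log ((w - b') / (w - b)), hg.add hcont, fun w hw => ?_⟩
    have h1 := hne w hw
    rw [Complex.exp_add, he w hw, Complex.exp_log (hne' w hw)]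
    field_simp
  · rintro ⟨g, hg, he⟩
    refine ⟨fun w => g w - Complex.log ((w - b') / (w - b)), hg.sub hcont, fun w hw => ?_⟩
    have h1 := hne w hw
    have h2 := hne' w hw
    have h3 : w - b' ≠ 0 := by
      intro h
      rw [h, zero_div] at h2
      exact h2 rfl
    rw [Complex.exp_sub, he w hw, Complex.exp_log (hne' w hw)]
    field_simp

private theorem S8_far (K : Set ℂ) {b : ℂ} {R : ℝ} (hR : ∀ w ∈ K, ‖w‖ ≤ R) (hR0 : 0 ≤ R)
    (hb : R < ‖b‖) : S8_Good K b := by
  have hb0 : b ≠ 0 := by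
    intro h
    rw [h, norm_zero] at hb
    linarith
  have hslit : ∀ w ∈ K, 1 + -(w / b) ∈ Complex.slitPlane := by
    intro w hw
    apply Complex.mem_slitPlane_of_norm_lt_one
    rw [norm_neg, norm_div, div_lt_one (by linarith)]
    exact (hR w hw).trans_lt hb
  refine ⟨fun w => Complex.log (-b) + Complex.log (1 + -(w / b)), ?_, fun w hw => ?_⟩
  · refine continuousOn_const.add (ContinuousOn.clog ?_ hslit)
    exact continuousOn_const.add ((continuousOn_id.div_const b).neg)
  · rw [Complex.exp_add, Complex.exp_log (neg_ne_zero.2 hb0),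
      Complex.exp_log (Complex.slitPlane_ne_zero (hslit w hw))]
    field_simp
    ring

theorem log_of_not_fill (K : Set ℂ) (hK : IsCompact K) (a : ℂ) (ha : a ∉ fillIn K) :
    a ∉ K ∧ ∃ g : ℂ → ℂ, ContinuousOn g K ∧ ∀ w ∈ K, Complex.exp (g w) = w - a := by
  have haK : a ∉ K := by
    intro h
    apply ha
    show Bornology.IsBounded (connectedComponentIn Kᶜ a)
    rw [connectedComponentIn_eq_empty (show a ∉ Kᶜ from fun h' => h' h)]
    exact Bornology.isBounded_empty
  refine ⟨haK, ?_⟩
  have hloc : ∀ b ∈ Kᶜ, ∃ d, 0 < d ∧ (∀ w ∈ K, d ≤ dist w b) ∧ ball b d ⊆ Kᶜ := by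
    intro b hb
    obtain ⟨d, hd, hd'⟩ := Metric.isOpen_iff.1 hK.isClosed.isOpen_compl b hb
    refine ⟨d, hd, fun w hw => ?_, hd'⟩
    by_contra hcon
    push Not at hcon
    exact hd' (mem_ball.2 hcon) hw
  have hopenA : IsOpen {b | b ∈ Kᶜ ∧ S8_Good K b} := by
    rw [Metric.isOpen_iff]
    rintro b ⟨hb, hgb⟩
    obtain ⟨d, hd, h1, h2⟩ := hloc b hb
    refine ⟨d, hd, fun b' hb' => ⟨h2 hb', ?_⟩⟩
    exact (S8_step K hd h1 (mem_ball.1 hb')).1 hgb
  have hopenB : IsOpen {b | b ∈ Kᶜ ∧ ¬ S8_Good K b} := by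
    rw [Metric.isOpen_iff]
    rintro b ⟨hb, hgb⟩
    obtain ⟨d, hd, h1, h2⟩ := hloc b hb
    refine ⟨d, hd, fun b' hb' => ⟨h2 hb', fun h => hgb ?_⟩⟩
    exact (S8_step K hd h1 (mem_ball.1 hb')).2 h
  have hdisj : Disjoint {b | b ∈ Kᶜ ∧ S8_Good K b} {b | b ∈ Kᶜ ∧ ¬ S8_Good K b} := by
    rw [Set.disjoint_left]
    rintro b ⟨_, h1⟩ ⟨_, h2⟩
    exact h2 h1
  have hUK : connectedComponentIn Kᶜ a ⊆ Kᶜ := connectedComponentIn_subset _ _
  have hcover : connectedComponentIn Kᶜ a ⊆
      {b | b ∈ Kᶜ ∧ S8_Good K b} ∪ {b | b ∈ Kᶜ ∧ ¬ S8_Good K b} := by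
    intro b hb
    by_cases h : S8_Good K b
    · exact Or.inl ⟨hUK hb, h⟩
    · exact Or.inr ⟨hUK hb, h⟩
  have hne : (connectedComponentIn Kᶜ a ∩ {b | b ∈ Kᶜ ∧ S8_Good K b}).Nonempty := by
    obtain ⟨R, hR⟩ := hK.isBounded.exists_norm_le
    have hub : ¬ Bornology.IsBounded (connectedComponentIn Kᶜ a) := ha
    by_contra hcon
    apply hub
    rw [isBounded_iff_forall_norm_le]
    refine ⟨max R 0, fun b hb => ?_⟩
    by_contra hlt
    push Not at hlt
    apply hcon
    refine ⟨b, hb, hUK hb, S8_far K (R := max R 0) ?_ (le_max_right _ _) hlt⟩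
    intro w hw
    exact (hR w hw).trans (le_max_left _ _)
  have hsub := IsPreconnected.subset_left_of_subset_union hopenA hopenB hdisj hcover hne
    isPreconnected_connectedComponentIn
  exact (hsub (mem_connectedComponentIn haK)).2

end Pool.Agent.Helper3.CD
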