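import Mathlib

/-!
# CD-S9: a closed curve which crosses the ray once has no continuous logarithm

PROOF. Let `y s = -I * z s`, so `(y s).re = (z s).im`, `(y s).im = - (z s).re`. On `[δ, 1 - δ]`, `y s` is in
`Complex.slitPlane` (`h1`), so `g s - Complex.log (z s * (-I)) ` is continuous on this interval and takes
values in `π i / 2 + 2 π i ℤ` (`exp g = z`, `exp (log y) = y = -I z`); a continuous function on an
interval with values in a discrete set is constant (`IsPreconnected.constant_of_mapsTo` or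
`IsPreconnected.image` with `2πi n`; or: `(g s - log (y s) - I π / 2) / (2 π i)` is an integer valued
continuous function). So `(g (1-δ) - g δ).im = arg (y (1-δ)) - arg (y δ)`. At `δ`: `y.re < 0`, `y.im < 0`, so
`arg (y δ) < - π / 2` (`Complex.arg_of_re_neg_of_im_neg`, `Complex.arg_lt_neg_pi_div_two...`); at `1 - δ`:
`y.re < 0`, `y.im > 0`, so `arg > π / 2`. Hence `(g (1-δ) - g δ).im > π`.
On `[0, δ]` and on `[1 - δ, 1]`: `(-y s).re > 0`, so `g s - log (-y s)` is continuous with values in a
discrete set, constant on both intervals; the constants agree because `g 0 = g 1`, `z 0 = z 1`. Hence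
`(g (1-δ) - g δ).im = arg (-y (1-δ)) - arg (-y δ) < π` since both arguments are in `(-π/2, π/2)`
(`Complex.abs_arg_lt_pi_div_two_iff`). Contradiction.
-/

set_option autoImplicit false

open Set

namespace Pool.Agent.Helper3.CD

private theorem S9_int {a b : ℝ} (hab : a ≤ b) (h : ℝ → ℝ) (hc : ContinuousOn h (Icc a b))
    (hi : ∀ s ∈ Icc a b, ∃ n : ℤ, h s = n) : h a = h b := by
  obtain ⟨m, hm⟩ := hi a (left_mem_Icc.2 hab)
  obtain ⟨n, hn⟩ := hi b (right_mem_Icc.2 hab)
  rcases lt_trichotomy (h a) (h b) with hlt | heq | hlt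
  · exfalso
    have h1 : m < n := by
      rw [hm, hn] at hlt
      exact_mod_cast hlt
    have h2 : (m : ℝ) + 1 ≤ n := by exact_mod_cast h1
    obtain ⟨s, hs, hs'⟩ := intermediate_value_Icc hab hc
      (show h a + 1 / 2 ∈ Icc (h a) (h b) from ⟨by linarith, by rw [hm, hn]; linarith⟩)
    obtain ⟨k, hk⟩ := hi s hs
    rw [hk, hm] at hs'
    have h3 : (2 * k : ℝ) = 2 * m + 1 := by linarith
    have h4 : 2 * k = 2 * m + 1 := by exact_mod_cast h3
    omega
  · exact heq
  · exfalso
    have h1 : n < m := by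
      rw [hm, hn] at hlt
      exact_mod_cast hlt
    have h2 : (n : ℝ) + 1 ≤ m := by exact_mod_cast h1
    obtain ⟨s, hs, hs'⟩ := intermediate_value_Icc' hab hc
      (show h b + 1 / 2 ∈ Icc (h b) (h a) from ⟨by linarith, by rw [hm, hn]; linarith⟩)
    obtain ⟨k, hk⟩ := hi s hs
    rw [hk, hn] at hs'
    have h3 : (2 * k : ℝ) = 2 * n + 1 := by linarith
    have h4 : 2 * k = 2 * n + 1 := by exact_mod_cast h3
    omega

private theorem S9_arg {a b : ℝ} (hab : a ≤ b) (w g : ℝ → ℂ) (c : ℂ)
    (hw : ContinuousOn w (Icc a b)) (hs : ∀ s ∈ Icc a b, w s ∈ Complex.slitPlane)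
    (hg : ContinuousOn g (Icc a b))
    (he : ∀ s ∈ Icc a b, Complex.exp (g s) = Complex.exp c * w s) :
    (g b).im - (g a).im = (w b).arg - (w a).arg := by
  have hpi : (2 * Real.pi : ℝ) ≠ 0 := by positivity
  have key := S9_int hab (fun s => ((g s).im - c.im - (w s).arg) / (2 * Real.pi)) ?_ ?_
  · rw [div_left_inj' hpi] at key
    linarith
  · refine ContinuousOn.div_const ?_ _
    refine ContinuousOn.sub (ContinuousOn.sub ?_ continuousOn_const) ?_
    · exact Complex.continuous_im.comp_continuousOn hg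
    · intro s hs'
      exact (Complex.continuousAt_arg (hs s hs')).comp_continuousWithinAt (hw s hs')
  · intro s hs'
    have hw0 : w s ≠ 0 := Complex.slitPlane_ne_zero (hs s hs')
    have h1 : Complex.exp (g s - c - Complex.log (w s)) = 1 := by
      rw [Complex.exp_sub, Complex.exp_sub, he s hs', Complex.exp_log hw0]
      have := Complex.exp_ne_zero c
      field_simp
    obtain ⟨n, hn⟩ := Complex.exp_eq_one_iff.1 h1
    refine ⟨n, ?_⟩
    have h2 := congrArg Complex.im hn
    simp only [Complex.sub_im, Complex.log_im] at h2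
    rw [h2]
    have h3 : ((n : ℂ) * (2 * Real.pi * Complex.I)).im = n * (2 * Real.pi) := by
      simp
    rw [h3]
    field_simp

theorem winding_contra (z g : ℝ → ℂ) (hz : ContinuousOn z (Icc 0 1))
    (hg : ContinuousOn g (Icc 0 1)) (hgz : ∀ s ∈ Icc (0 : ℝ) 1, Complex.exp (g s) = z s)
    (hz01 : z 0 = z 1) (hg01 : g 0 = g 1) (δ : ℝ) (hδ : 0 < δ) (hδ' : δ < 1 / 2)
    (h1 : ∀ s : ℝ, δ ≤ s → s ≤ 1 - δ → ¬ ((z s).re = 0 ∧ (z s).im ≤ 0))
    (h2 : ∀ s : ℝ, 0 ≤ s → s ≤ 1 → s ≤ δ ∨ 1 - δ ≤ s → (z s).im < 0)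
    (h3 : 0 < (z δ).re) (h4 : (z (1 - δ)).re < 0) : False := by
  have eI : Complex.exp (Real.pi / 2 * Complex.I) = Complex.I := Complex.exp_pi_div_two_mul_I
  have eI' : Complex.exp (-(Real.pi / 2 * Complex.I)) = -Complex.I := by
    rw [Complex.exp_neg, eI, Complex.inv_I]
  -- the middle interval
  have k1 := S9_arg (a := δ) (b := 1 - δ) (by linarith) (fun s => -Complex.I * z s) g
    (Real.pi / 2 * Complex.I)
    (continuousOn_const.mul (hz.mono (Icc_subset_Icc hδ.le (by linarith)))) ?_
    (hg.mono (Icc_subset_Icc hδ.le (by linarith))) ?_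
  rotate_left
  · intro s hs
    have h5 := h1 s hs.1 hs.2
    rw [Complex.mem_slitPlane_iff]
    simp only [neg_mul, Complex.neg_re, Complex.neg_im, Complex.mul_re, Complex.mul_im,
      Complex.I_re, Complex.I_im, zero_mul, one_mul, zero_sub, zero_add, neg_neg]
    by_contra h6
    push Not at h6
    apply h5
    refine ⟨?_, h6.1⟩
    have := h6.2
    linarith
  · intro s hs
    rw [eI, hgz s ⟨by linarith [hs.1], by linarith [hs.2]⟩]
    rw [← mul_assoc, mul_neg, Complex.I_mul_I, neg_neg, one_mul]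
  -- the two outer intervals
  have k2 := S9_arg (a := 0) (b := δ) hδ.le (fun s => Complex.I * z s) g
    (-(Real.pi / 2 * Complex.I))
    (continuousOn_const.mul (hz.mono (Icc_subset_Icc le_rfl (by linarith)))) ?_
    (hg.mono (Icc_subset_Icc le_rfl (by linarith))) ?_
  rotate_left
  · intro s hs
    have h5 := h2 s hs.1 (by linarith [hs.2]) (Or.inl hs.2)
    rw [Complex.mem_slitPlane_iff]
    left
    simp only [Complex.mul_re, Complex.I_re, Complex.I_im, zero_mul, one_mul, zero_sub]
    linarith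
  · intro s hs
    rw [eI', hgz s ⟨hs.1, by linarith [hs.2]⟩]
    rw [← mul_assoc, neg_mul, Complex.I_mul_I, neg_neg, one_mul]
  have k3 := S9_arg (a := 1 - δ) (b := 1) (by linarith) (fun s => Complex.I * z s) g
    (-(Real.pi / 2 * Complex.I))
    (continuousOn_const.mul (hz.mono (Icc_subset_Icc (by linarith) le_rfl))) ?_
    (hg.mono (Icc_subset_Icc (by linarith) le_rfl)) ?_
  rotate_left
  · intro s hs
    have h5 := h2 s (by linarith [hs.1]) hs.2 (Or.inr hs.1)
    rw [Complex.mem_slitPlane_iff]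
    left
    simp only [Complex.mul_re, Complex.I_re, Complex.I_im, zero_mul, one_mul, zero_sub]
    linarith
  · intro s hs
    rw [eI', hgz s ⟨by linarith [hs.1], hs.2⟩]
    rw [← mul_assoc, neg_mul, Complex.I_mul_I, neg_neg, one_mul]
  rw [← hz01, ← hg01] at k3
  -- bounds of the arguments
  have hi1 := h2 δ hδ.le (by linarith) (Or.inl le_rfl)
  have hi2 := h2 (1 - δ) (by linarith) (by linarith) (Or.inr le_rfl)
  have b1 : |(Complex.I * z δ).arg| < Real.pi / 2 := by
    rw [Complex.abs_arg_lt_pi_div_two_iff]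
    left
    simp only [Complex.mul_re, Complex.I_re, Complex.I_im, zero_mul, one_mul, zero_sub]
    linarith
  have b2 : |(Complex.I * z (1 - δ)).arg| < Real.pi / 2 := by
    rw [Complex.abs_arg_lt_pi_div_two_iff]
    left
    simp only [Complex.mul_re, Complex.I_re, Complex.I_im, zero_mul, one_mul, zero_sub]
    linarith
  have b3 : (-Complex.I * z δ).arg < -(Real.pi / 2) := by
    by_contra h6
    rw [not_lt, Complex.neg_pi_div_two_le_arg_iff] at h6
    simp only [neg_mul, Complex.neg_re, Complex.neg_im, Complex.mul_re, Complex.mul_im,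
      Complex.I_re, Complex.I_im, zero_mul, one_mul, zero_sub, zero_add, neg_neg] at h6
    rcases h6 with h6 | h6 <;> linarith
  have b4 : Real.pi / 2 < (-Complex.I * z (1 - δ)).arg := by
    by_contra h6
    rw [not_lt, Complex.arg_le_pi_div_two_iff] at h6
    simp only [neg_mul, Complex.neg_re, Complex.neg_im, Complex.mul_re, Complex.mul_im,
      Complex.I_re, Complex.I_im, zero_mul, one_mul, zero_sub, zero_add, neg_neg] at h6
    rcases h6 with h6 | h6 <;> linarith
  rw [abs_lt] at b1 b2
  linarith [b1.1, b1.2, b2.1, b2.2]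

end Pool.Agent.Helper3.CD
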