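import Mathlib
import Pool.Agent.Helper16.CD.Stmt
import Pool.Agent.Helper3.CD.T4
import Pool.Agent.Helper3.CD.S5
import Pool.Agent.Helper3.CD.S7
import Pool.Agent.Helper3.CD.S8
import Pool.Agent.Helper3.CD.S9

/-!
# CD-S10: a standard Brownian loop is in `Lset` with positive probability
-/

set_option autoImplicit false

open MeasureTheory ProbabilityTheory Set Metric
open scoped NNReal ENNReal unitInterval

namespace Pool.Agent.Helper3.CD

open Pool.Agent.Helper16.CD

/-- a closed curve near the polygon surrounds `h0` -/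
theorem h0_mem_fill (γ : I → Plane) (hγ : Continuous γ) (h01 : γ 0 = γ 1)
    (h : ∀ s : I, dist (γ s) (poly s) < 1 / 64) : h0 ∈ fillIn (range γ) := by
  by_contra hcon
  set K : Set ℂ := toP.symm '' range γ with hK
  have hKc : IsCompact K := (isCompact_range hγ).image toP.symm.continuous
  have hrange : range γ = toP '' K := by
    rw [hK, ← image_comp]
    simp
  set a : ℂ := toP.symm h0 with ha
  have ha' : toP a = h0 := toP.apply_symm_apply h0
  have hnot : a ∉ fillIn K := by
    intro hmem
    apply hcon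
    rw [hrange, fillIn_image toP bounded_toP, ← ha']
    exact mem_image_of_mem _ hmem
  obtain ⟨haK, g, hg, hgw⟩ := log_of_not_fill K hKc a hnot
  -- the curve as a function of a real time
  set c : ℝ → Plane := fun s => γ (projIcc 0 1 zero_le_one s) with hc
  have hcc : Continuous c := hγ.comp continuous_projIcc
  have hcv : ∀ s (hs : s ∈ Icc (0 : ℝ) 1), c s = γ ⟨s, hs⟩ := by
    intro s hs
    simp only [hc, projIcc_of_mem _ hs]
  have hcl : ∀ s : ℝ, 0 ≤ s → s ≤ 1 → dist (c s) (poly s) < 1 / 64 := by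
    intro s h0 h1
    rw [hcv s ⟨h0, h1⟩]
    exact h ⟨s, h0, h1⟩
  have hcK : ∀ s, toP.symm (c s) ∈ K := fun s => mem_image_of_mem _ (mem_range_self _)
  have hare : a.re = 12 / 64 := by
    have h5 : (toP a).1 = h0.1 := by rw [ha']
    have h6 : a.re = h0.1 := h5
    rw [h6]
    norm_num [h0]
  have haim : a.im = 12 / 64 := by
    have h5 : (toP a).2 = h0.2 := by rw [ha']
    have h6 : a.im = h0.2 := h5
    rw [h6]
    norm_num [h0]
  have hre : ∀ s, (toP.symm (c s)).re = (c s).1 := by
    intro s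
    have : (toP (toP.symm (c s))).1 = (c s).1 := by rw [toP.apply_symm_apply]
    exact this
  have him : ∀ s, (toP.symm (c s)).im = (c s).2 := by
    intro s
    have : (toP (toP.symm (c s))).2 = (c s).2 := by rw [toP.apply_symm_apply]
    exact this
  have hz0 : c 0 = c 1 := by
    rw [hcv 0 ⟨le_rfl, zero_le_one⟩, hcv 1 ⟨zero_le_one, le_rfl⟩]
    exact h01
  refine winding_contra (fun s => toP.symm (c s) - a) (fun s => g (toP.symm (c s))) ?_ ?_ ?_ ?_ ?_
    (1 / 65) (by norm_num) (by norm_num) ?_ ?_ ?_ ?_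
  · exact ((toP.symm.continuous.comp hcc).sub continuous_const).continuousOn
  · exact hg.comp (toP.symm.continuous.comp hcc).continuousOn fun s _ => hcK s
  · intro s _
    exact hgw _ (hcK s)
  · simp only [hz0]
  · simp only [hz0]
  · intro s hs0 hs1 hs2
    refine close_ray hcl s hs0 (by linarith) ?_
    rw [Complex.sub_re, Complex.sub_im, hre, him, hare, haim] at hs2
    exact ⟨by linarith [hs2.1], by linarith [hs2.2]⟩
  · intro s hs0 hs1 hs2
    have := close_low hcl s hs0 hs1 (by
      rcases hs2 with hs2 | hs2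
      · exact Or.inl hs2
      · right
        linarith)
    rw [Complex.sub_im, him, haim]
    linarith
  · have := close_right hcl
    rw [Complex.sub_re, hre, hare]
    linarith
  · have := close_left hcl
    rw [show (1 : ℝ) - 1 / 65 = 64 / 65 by norm_num, Complex.sub_re, hre, hare]
    linarith

/-- a closed curve near the polygon is in `Lset` -/
theorem mem_L_of_close (γ : I → Plane) (hγ : Continuous γ) (h01 : γ 0 = γ 1)
    (h : ∀ s : I, dist (γ s) (poly s) < 1 / 64) :
    range γ ⊆ thickening (1 / 32) Hset ∧ Disjoint (range γ) Hset ∧ h0 ∈ fillIn (range γ) := by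
  set c : ℝ → Plane := fun s => γ (projIcc 0 1 zero_le_one s) with hc
  have hcv : ∀ s (hs : s ∈ Icc (0 : ℝ) 1), c s = γ ⟨s, hs⟩ := by
    intro s hs
    simp only [hc, projIcc_of_mem _ hs]
  have hcl : ∀ s : ℝ, 0 ≤ s → s ≤ 1 → dist (c s) (poly s) < 1 / 64 := by
    intro s h0 h1
    rw [hcv s ⟨h0, h1⟩]
    exact h ⟨s, h0, h1⟩
  have him : c '' Icc 0 1 = range γ := by
    ext z
    constructor
    · rintro ⟨s, _, rfl⟩
      exact mem_range_self _
    · rintro ⟨s, rfl⟩
      exact ⟨s, s.2, hcv s s.2⟩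
  have h1 := close_near hcl
  have h2 := close_disj hcl
  rw [him] at h1 h2
  exact ⟨h1, h2, h0_mem_fill γ hγ h01 h⟩

variable {Ω : Type} [MeasurableSpace Ω] {P : Measure Ω}

omit [MeasurableSpace Ω] in
theorem continuous_curveB (B₁ B₂ : ℝ≥0 → Ω → ℝ) (h₁ : ∀ ω, Continuous fun t => B₁ t ω)
    (h₂ : ∀ ω, Continuous fun t => B₂ t ω) (e : Mark Ω) : Continuous (curveB B₁ B₂ e) := by
  have hb : ∀ B : ℝ≥0 → Ω → ℝ, (∀ ω, Continuous fun t => B t ω) →
      Continuous fun s : I => bridge B e.2 s := by
    intro B hB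
    unfold bridge
    have h3 : Continuous fun s : I => B (Real.toNNReal s) e.2 :=
      (hB e.2).comp (continuous_real_toNNReal.comp continuous_subtype_val)
    exact (h3.sub continuous_const).sub (continuous_subtype_val.mul continuous_const)
  unfold curveB
  exact (continuous_const.add (continuous_const.mul (hb B₁ h₁))).prodMk
    (continuous_const.add (continuous_const.mul (hb B₂ h₂)))

omit [MeasurableSpace Ω] in
theorem curveB_closed (B₁ B₂ : ℝ≥0 → Ω → ℝ) (e : Mark Ω) :
    curveB B₁ B₂ e 0 = curveB B₁ B₂ e 1 := by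
  have hb : ∀ B : ℝ≥0 → Ω → ℝ, bridge B e.2 0 = 0 ∧ bridge B e.2 1 = 0 := by
    intro B
    simp [bridge]
  simp only [curveB, (hb B₁).1, (hb B₂).1, (hb B₁).2, (hb B₂).2]

/-- the field `good` of `IsShape` -/
theorem good_shapeB [IsProbabilityMeasure P] {B₁ B₂ : ℝ≥0 → Ω → ℝ} (h : IsPlanarBM P B₁ B₂) :
    0 < ((volume : Measure (I × I × I)).prod P) (Lset (shapeB B₁ B₂)) := by
  have hv0 : poly 0 = (12 / 64, 7 / 64) := by
    obtain ⟨k, hk, l, hl0, hl1, hkl, he⟩ := poly_edge 0 le_rfl zero_le_one
    have hk0 : (k : ℝ) = 0 := by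
      have : (0 : ℝ) ≤ k := Nat.cast_nonneg k
      linarith
    have hk1 : k = 0 := by exact_mod_cast hk0
    subst hk1
    have hl : l = 0 := by
      simp at hkl
      linarith
    rw [he, hl]
    norm_num [vt]
  have hv1 : poly 1 = (12 / 64, 7 / 64) := by
    obtain ⟨k, hk, l, hl0, hl1, hkl, he⟩ := poly_edge 1 zero_le_one le_rfl
    have hk0 : (12 : ℝ) ≤ k := by linarith
    have hk1 : 12 ≤ k := by exact_mod_cast hk0
    have hk2 : k = 12 := by omega
    subst hk2
    have hl : l = 1 := by
      norm_num at hkl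
      linarith
    rw [he, hl]
    norm_num [vt]
  have h1 := tube_marks h (fun s : I => poly s) (continuous_poly.comp continuous_subtype_val)
    (by simp [hv0, hv1]) (by simp only [Set.Icc.coe_zero, hv0]; norm_num)
    (by simp only [Set.Icc.coe_zero, hv0]; norm_num)
    (by simp only [Set.Icc.coe_zero, hv0]; norm_num)
    (by simp only [Set.Icc.coe_zero, hv0]; norm_num) (1 / 64) (by norm_num)
  refine h1.trans_le (measure_mono fun e he => ?_)
  have h2 := mem_L_of_close (curveB B₁ B₂ e) (continuous_curveB B₁ B₂ h.cont₁ h.cont₂ e)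
    (curveB_closed B₁ B₂ e) he
  exact h2

end Pool.Agent.Helper3.CD
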